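import Mathlib

open Polynomial MeasureTheory Set Filter Topology

namespace Pool.Agent.Results.MP_98db6a_an.PolynomialSequences

/-- `act l p`: the polynomial `∑ l k * a_k * x^k` for `p = ∑ a_k x^k`. -/
noncomputable def act (l : ℕ → ℝ) (p : ℝ[X]) : ℝ[X] :=
  ∑ k ∈ Finset.range (p.natDegree + 1), C (l k * p.coeff k) * X ^ k

/-- nonnegative on the whole real line -/
def NonnegPoly (p : ℝ[X]) : Prop := ∀ x : ℝ, 0 ≤ p.eval x

/-- λ-sequence: nonzero terms, maps nonnegative polynomials to nonnegative polynomials -/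
def IsLambda (l : ℕ → ℝ) : Prop :=
  (∀ k, l k ≠ 0) ∧ ∀ p : ℝ[X], NonnegPoly p → NonnegPoly (act l p)

/-- a polynomial is hyperbolic if all its complex zeros are real (the zero polynomial is allowed) -/
def Hyperbolic (p : ℝ[X]) : Prop := p = 0 ∨ ∀ z : ℂ, aeval z p = 0 → z.im = 0

/-- multiplier sequence -/
def IsMultiplier (g : ℕ → ℝ) : Prop := ∀ p : ℝ[X], Hyperbolic p → Hyperbolic (act g p)

/-- some zero of `P` is real, negative, and has the largest real part among all complex zeros -/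
def NegDominantZero (P : ℝ[X]) : Prop :=
  ∃ x0 : ℝ, x0 < 0 ∧ P.eval x0 = 0 ∧ ∀ z : ℂ, aeval z P = 0 → z.re ≤ x0


/-- Laplace criterion: all zeros of `P` have negative real part, and `1/P` is, on the closed right
half plane, the Laplace transform of a continuous nonnegative integrable function on `[0,∞)`. -/
def LaplaceNonneg (P : ℝ[X]) : Prop :=
  (∀ z : ℂ, aeval z P = 0 → z.re < 0) ∧
  ∃ k : ℝ → ℝ, Continuous k ∧ (∀ x : ℝ, 0 ≤ x → 0 ≤ k x) ∧ IntegrableOn k (Ioi 0) ∧
    ∀ s : ℂ, 0 ≤ s.re →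
      ∫ x in Ioi (0:ℝ), Complex.exp (-s * x) * (k x : ℂ) = 1 / aeval s P

/-- with `q = ∏_{a∈S} (x + a) = ∑ q_j x^j`, the polynomial `∑_j q_j m(m-1)⋯(m-j+1)` in `m` -/
noncomputable def facSum (S : Multiset ℝ) : ℝ[X] :=
  ∑ j ∈ Finset.range (Multiset.card S + 1),
    C (((S.map fun a => X + C a).prod).coeff j) * descPochhammer ℝ j

/-- the operator `∑ q_j x^j D^j` -/
noncomputable def T (q f : ℝ[X]) : ℝ[X] :=
  ∑ j ∈ Finset.range (q.natDegree + 1), C (q.coeff j) * X ^ j * (derivative^[j] f)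

/-- `x^5 + 241 x^4 + 23654 x^3 + 1180761 x^2 + 29950093 x + 308550000` -/
noncomputable def P5 : ℝ[X] :=
  X ^ 5 + C 241 * X ^ 4 + C 23654 * X ^ 3 + C 1180761 * X ^ 2 + C 29950093 * X + C 308550000

/-- Taylor coefficients of the kernel: `y_0 = … = y_3 = 0`, `y_4 = 1` and
`y_{n+5} = -(y_{n+4} + 422 y_{n+3} + 249 y_{n+2} + 24877 y_{n+1})` -/
def ys : ℕ → ℤ
  | 0 => 0
  | 1 => 0
  | 2 => 0
  | 3 => 0
  | 4 => 1
  | (n + 5) => -(ys (n + 4) + 422 * ys (n + 3) + 249 * ys (n + 2) + 24877 * ys (n + 1))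


/-! ### part J1a -/

theorem cs_lo (b : ℝ) (hb : 0 < b) (n : ℕ) :
    (fun x : ℝ => (1 + x) ^ n * Real.exp (-b * x)) =o[atTop]
      (fun x : ℝ => Real.exp (-(b/2) * x)) := by
  have h1 : (fun x : ℝ => x ^ n) =o[atTop] fun x => Real.exp ((b/2) * x) :=
    isLittleO_pow_exp_pos_mul_atTop n (by positivity)
  have h2 : Tendsto (fun x : ℝ => 1 + x) atTop atTop := tendsto_atTop_add_const_left _ _ tendsto_id
  have h3 := (h1.comp_tendsto h2).mul_isBigO
    (Asymptotics.isBigO_refl (fun x : ℝ => Real.exp (-b * x)) atTop)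
  have h4 : (fun x : ℝ => Real.exp ((b/2) * (1 + x)) * Real.exp (-b * x)) =O[atTop]
      (fun x : ℝ => Real.exp (-(b/2) * x)) := by
    have : (fun x : ℝ => Real.exp ((b/2) * (1 + x)) * Real.exp (-b * x)) =
        (fun x : ℝ => Real.exp (b/2) * Real.exp (-(b/2) * x)) := by
      funext x
      rw [← Real.exp_add, ← Real.exp_add]
      congr 1
      ring
    rw [this]
    exact Asymptotics.isBigO_const_mul_self _ _ _
  exact h3.trans_isBigO h4

theorem cs_int (b : ℝ) (hb : 0 < b) (n : ℕ) :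
    IntegrableOn (fun x : ℝ => (1 + x) ^ n * Real.exp (-b * x)) (Ioi 0) := by
  refine integrable_of_isBigO_exp_neg (b := b/2) (by positivity) ?_ (cs_lo b hb n).isBigO
  fun_prop

theorem cs_tend (b : ℝ) (hb : 0 < b) (n : ℕ) :
    Tendsto (fun x : ℝ => (1 + x) ^ n * Real.exp (-b * x)) atTop (𝓝 0) := by
  refine (cs_lo b hb n).isBigO.trans_tendsto ?_
  have : Tendsto (fun x : ℝ => (-(b/2)) * x) atTop atBot :=
    tendsto_id.const_mul_atTop_of_neg (by linarith)
  exact Real.tendsto_exp_atBot.comp this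

/-- one step: convolution with an exponential divides the Laplace transform by `s - ρ` -/
theorem conv_step (σ : ℝ) (ρ : ℂ) (hρ : ρ.re ≤ σ) (k : ℝ → ℂ) (hk : Continuous k) (C : ℝ) (n : ℕ)
    (hb : ∀ x : ℝ, 0 ≤ x → ‖k x‖ ≤ C * (1 + x) ^ n * Real.exp (σ * x)) :
    ∃ k' : ℝ → ℂ, Continuous k' ∧
      (∀ x : ℝ, 0 ≤ x → ‖k' x‖ ≤ C * (1 + x) ^ (n + 1) * Real.exp (σ * x)) ∧
      ∀ s : ℂ, σ < s.re →
        ∫ x in Ioi (0:ℝ), Complex.exp (-s * x) * k' x =
          (∫ x in Ioi (0:ℝ), Complex.exp (-s * x) * k x) / (s - ρ) := by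
  have hC : 0 ≤ C := by
    have := hb 0 le_rfl
    simp at this
    exact (norm_nonneg _).trans this
  set g : ℝ → ℂ := fun y => Complex.exp (-ρ * y) * k y with hg
  have hgc : Continuous g := by
    rw [hg]; fun_prop
  set G : ℝ → ℂ := fun x => ∫ y in (0:ℝ)..x, g y with hG
  have hGd : ∀ x, HasDerivAt G (g x) x := fun x => (hgc.integral_hasStrictDerivAt 0 x).hasDerivAt
  have hGc : Continuous G := continuous_iff_continuousAt.2 fun x => (hGd x).continuousAt
  set k' : ℝ → ℂ := fun x => Complex.exp (ρ * x) * G x with hk'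
  have hk'c : Continuous k' := by
    rw [hk']; fun_prop
  have hexpd : ∀ (a : ℂ) (x : ℝ), HasDerivAt (fun x : ℝ => Complex.exp (a * x))
      (a * Complex.exp (a * x)) x := by
    intro a x
    have h1 : HasDerivAt (fun x : ℝ => a * (x : ℂ)) a x := by
      simpa using (Complex.ofRealCLM.hasDerivAt (x := x)).const_mul a
    have h2 := h1.cexp
    rwa [mul_comm] at h2
  have hnexp : ∀ (a : ℂ) (x : ℝ), ‖Complex.exp (a * x)‖ = Real.exp (a.re * x) := by
    intro a x
    rw [Complex.norm_exp]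
    simp
  have hk'd : ∀ x, HasDerivAt k' (ρ * k' x + k x) x := by
    intro x
    have h := (hexpd ρ x).mul (hGd x)
    have e : ρ * Complex.exp (ρ * x) * G x + Complex.exp (ρ * x) * g x = ρ * k' x + k x := by
      rw [hk', hg]
      simp only
      have : Complex.exp (ρ * x) * (Complex.exp (-ρ * x) * k x) = k x := by
        rw [← mul_assoc, ← Complex.exp_add]
        simp
      rw [this, mul_assoc]
    rw [e] at h
    exact h
  have hk'b : ∀ x : ℝ, 0 ≤ x → ‖k' x‖ ≤ C * (1 + x) ^ (n + 1) * Real.exp (σ * x) := by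
    intro x hx
    have hGb : ‖G x‖ ≤ (C * (1 + x) ^ n * Real.exp ((σ - ρ.re) * x)) * |x - 0| := by
      refine intervalIntegral.norm_integral_le_of_norm_le_const ?_
      intro y hy
      rw [uIoc_of_le hx] at hy
      have hy0 : 0 ≤ y := hy.1.le
      rw [hg]
      simp only
      rw [norm_mul, hnexp]
      have h1 := hb y hy0
      have h2 : Real.exp ((-ρ).re * y) * ‖k y‖ ≤
          Real.exp ((-ρ).re * y) * (C * (1 + y) ^ n * Real.exp (σ * y)) :=
        mul_le_mul_of_nonneg_left h1 (Real.exp_pos _).le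
      refine h2.trans ?_
      have h3 : Real.exp ((-ρ).re * y) * (C * (1 + y) ^ n * Real.exp (σ * y)) =
          C * (1 + y) ^ n * Real.exp ((σ - ρ.re) * y) := by
        rw [show (σ - ρ.re) * y = (-ρ).re * y + σ * y by simp; ring, Real.exp_add]
        ring
      rw [h3]
      have h4 : (1 + y) ^ n ≤ (1 + x) ^ n := pow_le_pow_left₀ (by linarith) (by linarith [hy.2]) n
      have h5 : Real.exp ((σ - ρ.re) * y) ≤ Real.exp ((σ - ρ.re) * x) :=
        Real.exp_le_exp.2 (mul_le_mul_of_nonneg_left hy.2 (by linarith))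
      have h6 : 0 ≤ (1 + y) ^ n := by positivity
      have h7 : 0 ≤ (1 + x) ^ n := by positivity
      exact mul_le_mul (mul_le_mul_of_nonneg_left h4 hC) h5 (Real.exp_pos _).le (by positivity)
    rw [hk']
    simp only
    rw [norm_mul, hnexp]
    have h1 : Real.exp (ρ.re * x) * ‖G x‖ ≤
        Real.exp (ρ.re * x) * ((C * (1 + x) ^ n * Real.exp ((σ - ρ.re) * x)) * |x - 0|) :=
      mul_le_mul_of_nonneg_left hGb (Real.exp_pos _).le
    refine h1.trans ?_
    have h2 : Real.exp (ρ.re * x) * ((C * (1 + x) ^ n * Real.exp ((σ - ρ.re) * x)) * |x - 0|) =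
        C * (1 + x) ^ n * x * Real.exp (σ * x) := by
      rw [sub_zero, abs_of_nonneg hx,
        show σ * x = ρ.re * x + (σ - ρ.re) * x by ring, Real.exp_add]
      ring
    rw [h2, pow_succ]
    have h3 : 0 ≤ C * (1 + x) ^ n := by positivity
    have h4 : C * (1 + x) ^ n * x ≤ C * ((1 + x) ^ n * (1 + x)) := by nlinarith
    exact mul_le_mul_of_nonneg_right h4 (Real.exp_pos _).le
  have hgen : ∀ (f : ℝ → ℂ) (m : ℕ), Continuous f →
      (∀ x : ℝ, 0 ≤ x → ‖f x‖ ≤ C * (1 + x) ^ m * Real.exp (σ * x)) → ∀ s : ℂ, σ < s.re →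
      IntegrableOn (fun x : ℝ => Complex.exp (-s * x) * f x) (Ioi 0) ∧
      Tendsto (fun x : ℝ => Complex.exp (-s * x) * f x) atTop (𝓝 0) := by
    intro f m hf hfb s hs
    have hbd : ∀ x : ℝ, 0 ≤ x → ‖Complex.exp (-s * x) * f x‖ ≤
        C * ((1 + x) ^ m * Real.exp (-(s.re - σ) * x)) := by
      intro x hx
      rw [norm_mul, hnexp]
      have h1 := mul_le_mul_of_nonneg_left (hfb x hx) (Real.exp_pos ((-s).re * x)).le
      refine h1.trans (le_of_eq ?_)
      rw [show -(s.re - σ) * x = (-s).re * x + σ * x by simp; ring, Real.exp_add]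
      ring
    have hpos : 0 < s.re - σ := by linarith
    constructor
    · refine Integrable.mono' ((cs_int (s.re - σ) hpos m).const_mul C) ?_ ?_
      · exact (Continuous.aestronglyMeasurable (by fun_prop))
      · filter_upwards [ae_restrict_mem measurableSet_Ioi] with x hx
        exact hbd x (le_of_lt hx)
    · have h0 : Tendsto (fun x : ℝ => C * ((1 + x) ^ m * Real.exp (-(s.re - σ) * x))) atTop
          (𝓝 0) := by
        simpa using (cs_tend (s.re - σ) hpos m).const_mul C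
      refine squeeze_zero_norm' ?_ h0
      filter_upwards [eventually_ge_atTop (0:ℝ)] with x hx
      exact hbd x hx
  refine ⟨k', hk'c, hk'b, ?_⟩
  intro s hs
  obtain ⟨i1, t1⟩ := hgen k' (n + 1) hk'c hk'b s hs
  obtain ⟨i2, _⟩ := hgen k n hk hb s hs
  have hF : ∀ x : ℝ, HasDerivAt (fun x : ℝ => Complex.exp (-s * x) * k' x)
      ((ρ - s) * (Complex.exp (-s * x) * k' x) + Complex.exp (-s * x) * k x) x := by
    intro x
    have h := (hexpd (-s) x).mul (hk'd x)
    have e : -s * Complex.exp (-s * x) * k' x + Complex.exp (-s * x) * (ρ * k' x + k x) =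
        (ρ - s) * (Complex.exp (-s * x) * k' x) + Complex.exp (-s * x) * k x := by ring
    rw [e] at h
    exact h
  have hint : IntegrableOn (fun x : ℝ => (ρ - s) * (Complex.exp (-s * x) * k' x) +
      Complex.exp (-s * x) * k x) (Ioi 0) := (i1.const_mul (ρ - s)).add i2
  have hmain := integral_Ioi_of_hasDerivAt_of_tendsto
    (a := 0) (f := fun x : ℝ => Complex.exp (-s * x) * k' x)
    (hF 0).continuousAt.continuousWithinAt (fun x _ => hF x) hint t1
  rw [integral_add (i1.const_mul (ρ - s)) i2, integral_const_mul] at hmain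
  have hk0 : k' 0 = 0 := by
    rw [hk']
    simp [hG]
  simp only [hk0, mul_zero, sub_zero] at hmain
  have hne : s - ρ ≠ 0 := by
    intro h
    have : (s - ρ).re = 0 := by rw [h]; simp
    simp at this
    linarith
  rw [eq_div_iff hne]
  linear_combination -hmain

/-! ### part J1b -/

theorem kernel_base (σ : ℝ) (ρ : ℂ) (hρ : ρ.re ≤ σ) :
    ∃ k : ℝ → ℂ, Continuous k ∧ (∃ (C : ℝ) (n : ℕ), ∀ x : ℝ, 0 ≤ x →
        ‖k x‖ ≤ C * (1 + x) ^ n * Real.exp (σ * x)) ∧
      ∀ s : ℂ, σ < s.re →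
        ∫ x in Ioi (0:ℝ), Complex.exp (-s * x) * k x = (s - ρ)⁻¹ := by
  refine ⟨fun x => Complex.exp (ρ * x), by fun_prop, ⟨1, 0, ?_⟩, ?_⟩
  · intro x hx
    rw [Complex.norm_exp]
    simp only [pow_zero, mul_one, one_mul]
    apply Real.exp_le_exp.mpr
    have : (ρ * (x : ℂ)).re = ρ.re * x := by simp
    rw [this]
    exact mul_le_mul_of_nonneg_right hρ hx
  · intro s hs
    have hre : (ρ - s).re < 0 := by
      rw [Complex.sub_re]
      linarith
    have e : ∀ x : ℝ, Complex.exp (-s * x) * Complex.exp (ρ * x) = Complex.exp ((ρ - s) * x) := by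
      intro x
      rw [← Complex.exp_add]
      congr 1
      ring
    simp_rw [e]
    rw [integral_exp_mul_complex_Ioi hre 0]
    simp only [Complex.ofReal_zero, mul_zero, Complex.exp_zero]
    rw [← neg_sub s ρ, neg_div_neg_eq, one_div]


theorem kernel_of_multiset (σ : ℝ) (S : Multiset ℂ) (hS : ∀ z ∈ S, z.re ≤ σ) (hne : S ≠ 0)
    (step : ∀ (ρ : ℂ), ρ.re ≤ σ → ∀ (k : ℝ → ℂ), Continuous k → ∀ (C : ℝ) (n : ℕ),
      (∀ x : ℝ, 0 ≤ x → ‖k x‖ ≤ C * (1 + x) ^ n * Real.exp (σ * x)) →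
      ∃ k' : ℝ → ℂ, Continuous k' ∧
      (∀ x : ℝ, 0 ≤ x → ‖k' x‖ ≤ C * (1 + x) ^ (n + 1) * Real.exp (σ * x)) ∧
      ∀ s : ℂ, σ < s.re →
        ∫ x in Ioi (0:ℝ), Complex.exp (-s * x) * k' x =
          (∫ x in Ioi (0:ℝ), Complex.exp (-s * x) * k x) / (s - ρ)) :
    ∃ k : ℝ → ℂ, Continuous k ∧ (∃ (C : ℝ) (n : ℕ), ∀ x : ℝ, 0 ≤ x →
        ‖k x‖ ≤ C * (1 + x) ^ n * Real.exp (σ * x)) ∧
      ∀ s : ℂ, σ < s.re →
        ∫ x in Ioi (0:ℝ), Complex.exp (-s * x) * k x = ((S.map (fun z => s - z)).prod)⁻¹ := by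
  induction S using Multiset.induction_on with
  | empty => exact absurd rfl hne
  | cons ρ T ih =>
    have hρ : ρ.re ≤ σ := hS ρ (Multiset.mem_cons_self _ _)
    by_cases hT : T = 0
    · subst hT
      obtain ⟨k, h1, h2, h3⟩ := kernel_base σ ρ hρ
      refine ⟨k, h1, h2, fun s hs => ?_⟩
      rw [h3 s hs]
      simp
    · obtain ⟨k, h1, ⟨C, n, h2⟩, h3⟩ := ih (fun z hz => hS z (Multiset.mem_cons_of_mem hz)) hT
      obtain ⟨k', h1', h2', h3'⟩ := step ρ hρ k h1 C n h2
      refine ⟨k', h1', ⟨C, n + 1, h2'⟩, fun s hs => ?_⟩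
      rw [h3' s hs, h3 s hs, Multiset.map_cons, Multiset.prod_cons, mul_inv, div_eq_mul_inv, mul_comm]

/-! ### part J1c -/

theorem kernel_real (P : ℝ[X]) (hP : 1 ≤ P.natDegree) (σ : ℝ)
    (hσ : ∀ z : ℂ, aeval z P = 0 → z.re ≤ σ)
    (km : ∀ S : Multiset ℂ, (∀ z ∈ S, z.re ≤ σ) → S ≠ 0 →
      ∃ k : ℝ → ℂ, Continuous k ∧ (∃ (C : ℝ) (n : ℕ), ∀ x : ℝ, 0 ≤ x →
        ‖k x‖ ≤ C * (1 + x) ^ n * Real.exp (σ * x)) ∧
      ∀ s : ℂ, σ < s.re →
        ∫ x in Ioi (0:ℝ), Complex.exp (-s * x) * k x = ((S.map (fun z => s - z)).prod)⁻¹) :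
    ∃ k : ℝ → ℝ, Continuous k ∧ (∃ (C : ℝ) (n : ℕ), ∀ x : ℝ, 0 ≤ x →
        |k x| ≤ C * (1 + x) ^ n * Real.exp (σ * x)) ∧
      ∀ s : ℂ, σ < s.re →
        ∫ x in Ioi (0:ℝ), Complex.exp (-s * x) * (k x : ℂ) = 1 / aeval s P := by
  have hP0 : P ≠ 0 := by
    rintro rfl
    simp at hP
  set Q : ℂ[X] := P.map (algebraMap ℝ ℂ) with hQ
  have hQ0 : Q ≠ 0 := by
    rw [hQ]
    exact (Polynomial.map_ne_zero_iff (algebraMap ℝ ℂ).injective).2 hP0
  have haev : ∀ s : ℂ, aeval s P = Q.eval s := by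
    intro s
    rw [hQ, eval_map_algebraMap]
  have hmem : ∀ z ∈ Q.roots, z.re ≤ σ := by
    intro z hz
    apply hσ
    rw [haev]
    exact (mem_roots'.1 hz).2
  have hcard : Q.roots.card = Q.natDegree := by
    exact (IsAlgClosed.splits Q).natDegree_eq_card_roots.symm
  have hdeg : Q.natDegree = P.natDegree := natDegree_map _
  have hne : Q.roots ≠ 0 := by
    intro h
    rw [h] at hcard
    simp at hcard
    omega
  obtain ⟨κ, hκc, ⟨C, n, hκb⟩, hκ⟩ := km Q.roots hmem hne
  set a : ℝ := P.leadingCoeff with ha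
  have ha0 : a ≠ 0 := leadingCoeff_ne_zero.2 hP0
  have hac : (a : ℂ) ≠ 0 := by exact_mod_cast ha0
  set R : ℂ → ℂ := fun s => (Q.roots.map (fun z => s - z)).prod with hR
  have hfac : ∀ s : ℂ, aeval s P = (a : ℂ) * R s := by
    intro s
    rw [haev]
    have h1 := (IsAlgClosed.splits Q).eq_prod_roots
    have h2 : Q.leadingCoeff = (a : ℂ) := by
      rw [hQ, leadingCoeff_map]
      rfl
    conv_lhs => rw [h1]
    rw [eval_mul, eval_C, h2, eval_multiset_prod, Multiset.map_map]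
    simp [hR]
  have hconj : ∀ s : ℂ, aeval ((starRingEnd ℂ) s) P = (starRingEnd ℂ) (aeval s P) := by
    intro s
    exact Polynomial.aeval_conj P s
  have hRconj : ∀ s : ℂ, R ((starRingEnd ℂ) s) = (starRingEnd ℂ) (R s) := by
    intro s
    have h1 := hconj s
    rw [hfac, hfac, map_mul, Complex.conj_ofReal] at h1
    exact mul_left_cancel₀ hac h1
  have hR0 : ∀ s : ℂ, σ < s.re → R s ≠ 0 := by
    intro s hs h
    have h1 := Multiset.prod_eq_zero_iff.1 h
    rw [Multiset.mem_map] at h1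
    obtain ⟨z, hz, hz0⟩ := h1
    have h2 := hmem z hz
    have h3 : s = z := sub_eq_zero.1 hz0
    rw [h3] at hs
    linarith
  have hint : ∀ s : ℂ, σ < s.re →
      IntegrableOn (fun x : ℝ => Complex.exp (-s * x) * κ x) (Ioi (0:ℝ)) := by
    intro s hs
    by_contra hni
    have h1 := integral_undef hni
    rw [hκ s hs] at h1
    exact hR0 s hs (inv_eq_zero.1 h1)
  have hstar : ∀ (s : ℂ) (x : ℝ), Complex.exp (-s * x) * (starRingEnd ℂ) (κ x)
      = (starRingEnd ℂ) (Complex.exp (-(starRingEnd ℂ) s * x) * κ x) := by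
    intro s x
    rw [map_mul, ← Complex.exp_conj]
    simp
  refine ⟨fun x => (κ x).re / a, (Complex.continuous_re.comp hκc).div_const a, ⟨C / |a|, n, ?_⟩, ?_⟩
  · intro x hx
    have h1 := hκb x hx
    have h2 : |(κ x).re| ≤ ‖κ x‖ := Complex.abs_re_le_norm _
    rw [abs_div]
    have h3 : 0 < |a| := abs_pos.2 ha0
    rw [div_le_iff₀ h3]
    calc |(κ x).re| ≤ C * (1 + x) ^ n * Real.exp (σ * x) := h2.trans h1
      _ = C / |a| * (1 + x) ^ n * Real.exp (σ * x) * |a| := by
        field_simp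
  · intro s hs
    have hs' : σ < ((starRingEnd ℂ) s).re := by simpa using hs
    have hi1 := hint s hs
    have hi2 : IntegrableOn (fun x : ℝ => Complex.exp (-s * x) * (starRingEnd ℂ) (κ x))
        (Ioi (0:ℝ)) := by
      have h1 := hint _ hs'
      have h2 : (fun x : ℝ => Complex.exp (-s * x) * (starRingEnd ℂ) (κ x))
          = fun x : ℝ => (starRingEnd ℂ) (Complex.exp (-(starRingEnd ℂ) s * x) * κ x) := by
        funext x
        exact hstar s x
      rw [h2]
      exact (Complex.conjCLE.integrable_comp_iff).2 h1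
    have e1 : ∫ x in Ioi (0:ℝ), Complex.exp (-s * x) * (starRingEnd ℂ) (κ x) = (R s)⁻¹ := by
      have h2 : (fun x : ℝ => Complex.exp (-s * x) * (starRingEnd ℂ) (κ x))
          = fun x : ℝ => (starRingEnd ℂ) (Complex.exp (-(starRingEnd ℂ) s * x) * κ x) := by
        funext x
        exact hstar s x
      rw [h2, integral_conj, hκ _ hs']
      change (starRingEnd ℂ) (R ((starRingEnd ℂ) s))⁻¹ = _
      rw [hRconj, ← map_inv₀, Complex.conj_conj]
    have e2 : ∀ x : ℝ, Complex.exp (-s * x) * (((κ x).re / a : ℝ) : ℂ)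
        = (2 * (a : ℂ))⁻¹ * (Complex.exp (-s * x) * κ x
          + Complex.exp (-s * x) * (starRingEnd ℂ) (κ x)) := by
      intro x
      have h1 : κ x + (starRingEnd ℂ) (κ x) = 2 * ((κ x).re : ℂ) := by
        rw [Complex.add_conj]
        push_cast
        ring
      rw [← mul_add, h1]
      push_cast
      field_simp
    simp only [e2]
    rw [integral_const_mul, integral_add hi1 hi2, e1, hκ s hs]
    change (2 * (a : ℂ))⁻¹ * ((R s)⁻¹ + (R s)⁻¹) = 1 / aeval s P
    rw [hfac]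
    have := hR0 s hs
    field_simp
    norm_num

/-! ### part J2 -/

theorem kn_int (k : ℝ → ℝ) (hk : Continuous k) (σ C : ℝ) (n : ℕ)
    (hb : ∀ x : ℝ, 0 ≤ x → |k x| ≤ C * (1 + x) ^ n * Real.exp (σ * x)) (j : ℝ) (hj : σ < j) :
    IntegrableOn (fun x : ℝ => Real.exp (-j * x) * k x) (Ioi 0) := by
  obtain ⟨c, hc⟩ : ∃ c : ℝ, c = j - σ := ⟨_, rfl⟩
  have hc0 : 0 < c := by rw [hc]; linarith
  refine integrable_of_isBigO_exp_neg (b := c / 2) (half_pos hc0)
    (Continuous.continuousOn (by fun_prop)) ?_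
  obtain ⟨K, hK⟩ := (isLittleO_pow_exp_pos_mul_atTop (k := n) (half_pos hc0)).isBigO.bound
  refine Asymptotics.IsBigO.of_bound (|C| * 2 ^ n * K) ?_
  filter_upwards [hK, eventually_ge_atTop 1] with x hx hx1
  have hx0 : 0 ≤ x := by linarith
  rw [Real.norm_eq_abs, Real.norm_eq_abs, abs_of_nonneg (by positivity : (0:ℝ) ≤ x ^ n),
    Real.abs_exp] at hx
  rw [Real.norm_eq_abs, Real.norm_eq_abs, abs_mul, Real.abs_exp, Real.abs_exp]
  have h1 := hb x hx0
  have h2 : C * (1 + x) ^ n * Real.exp (σ * x) ≤ |C| * (2 ^ n * x ^ n) * Real.exp (σ * x) := by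
    refine mul_le_mul_of_nonneg_right ?_ (Real.exp_pos _).le
    have h3 : (1 + x) ^ n ≤ 2 ^ n * x ^ n := by
      rw [← mul_pow]
      exact pow_le_pow_left₀ (by linarith) (by linarith) n
    calc C * (1 + x) ^ n ≤ |C| * (1 + x) ^ n :=
          mul_le_mul_of_nonneg_right (le_abs_self C) (by positivity)
      _ ≤ |C| * (2 ^ n * x ^ n) := mul_le_mul_of_nonneg_left h3 (abs_nonneg C)
  have h4 : |C| * (2 ^ n * x ^ n) * Real.exp (σ * x) ≤
      |C| * (2 ^ n * (K * Real.exp (c / 2 * x))) * Real.exp (σ * x) := by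
    refine mul_le_mul_of_nonneg_right ?_ (Real.exp_pos _).le
    refine mul_le_mul_of_nonneg_left ?_ (abs_nonneg C)
    exact mul_le_mul_of_nonneg_left hx (by positivity)
  calc Real.exp (-j * x) * |k x| ≤ Real.exp (-j * x) *
        (|C| * (2 ^ n * (K * Real.exp (c / 2 * x))) * Real.exp (σ * x)) :=
        mul_le_mul_of_nonneg_left (h1.trans (h2.trans h4)) (Real.exp_pos _).le
    _ = |C| * 2 ^ n * K * (Real.exp (-j * x) * Real.exp (c / 2 * x) * Real.exp (σ * x)) := by ring
    _ = |C| * 2 ^ n * K * Real.exp (-(c / 2) * x) := by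
        rw [← Real.exp_add, ← Real.exp_add]
        congr 2
        rw [hc]
        ring

theorem kn_poly (l : ℕ → ℝ) (hl : IsLambda l) (k : ℝ → ℝ) (hk : Continuous k) (σ C : ℝ) (n : ℕ)
    (hb : ∀ x : ℝ, 0 ≤ x → |k x| ≤ C * (1 + x) ^ n * Real.exp (σ * x))
    (hrep : ∀ m : ℕ, σ < m → ∫ x in Ioi (0:ℝ), Real.exp (-(m:ℝ) * x) * k x = l m)
    (M : ℕ) (hM : σ < ((2 * M : ℕ) : ℝ)) (g : ℝ[X]) :
    0 ≤ ∫ x in Ioi (0:ℝ), (Real.exp (-((2 * M : ℕ) : ℝ) * x) * k x) *
      (g.eval (Real.exp (-x))) ^ 2 := by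
  obtain ⟨f, hf⟩ : ∃ f : ℝ[X], f = X ^ (2 * M) * g ^ 2 := ⟨_, rfl⟩
  have hfn : NonnegPoly f := by
    intro x
    rw [hf, eval_mul, eval_pow, eval_pow, eval_X, pow_mul]
    positivity
  have h0 := hl.2 f hfn 1
  have h1 : (act l f).eval 1 = ∑ j ∈ Finset.range (f.natDegree + 1), l j * f.coeff j := by
    unfold act
    rw [eval_finset_sum]
    refine Finset.sum_congr rfl fun j _ => ?_
    rw [eval_mul, eval_C, eval_pow, eval_X, one_pow, mul_one]
  have hc0 : ∀ j, ¬ 2 * M ≤ j → f.coeff j = 0 := by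
    intro j hj
    rw [hf, coeff_X_pow_mul', if_neg hj]
  have h2 : ∀ j : ℕ, l j * f.coeff j =
      ∫ x in Ioi (0:ℝ), f.coeff j * (Real.exp (-(j : ℝ) * x) * k x) := by
    intro j
    by_cases hj : 2 * M ≤ j
    · rw [integral_const_mul, hrep j (hM.trans_le (by exact_mod_cast hj)), mul_comm]
    · rw [hc0 j hj]; simp
  have h3 : ∀ j : ℕ, IntegrableOn (fun x : ℝ => f.coeff j * (Real.exp (-(j : ℝ) * x) * k x))
      (Ioi 0) := by
    intro j
    by_cases hj : 2 * M ≤ j
    · exact (kn_int k hk σ C n hb j (hM.trans_le (by exact_mod_cast hj))).const_mul _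
    · rw [hc0 j hj]; simp
  rw [h1, Finset.sum_congr rfl fun j _ => h2 j, ← integral_finsetSum _ fun j _ => h3 j] at h0
  have h5 : ∀ x : ℝ, ∑ j ∈ Finset.range (f.natDegree + 1),
      f.coeff j * (Real.exp (-(j : ℝ) * x) * k x) =
      (Real.exp (-((2 * M : ℕ) : ℝ) * x) * k x) * (g.eval (Real.exp (-x))) ^ 2 := by
    intro x
    have h6 : ∀ j : ℕ, Real.exp (-(j : ℝ) * x) = Real.exp (-x) ^ j := by
      intro j
      rw [← Real.exp_nat_mul]
      congr 1
      ring
    have h7 : f.eval (Real.exp (-x)) = ∑ j ∈ Finset.range (f.natDegree + 1),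
        f.coeff j * Real.exp (-x) ^ j := eval_eq_sum_range _
    have h8 : f.eval (Real.exp (-x)) = Real.exp (-x) ^ (2 * M) * (g.eval (Real.exp (-x))) ^ 2 := by
      rw [hf, eval_mul, eval_pow, eval_pow, eval_X]
    calc ∑ j ∈ Finset.range (f.natDegree + 1), f.coeff j * (Real.exp (-(j : ℝ) * x) * k x) =
        (∑ j ∈ Finset.range (f.natDegree + 1), f.coeff j * Real.exp (-x) ^ j) * k x := by
          rw [Finset.sum_mul]
          refine Finset.sum_congr rfl fun j _ => ?_
          rw [h6 j]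
          ring
      _ = (Real.exp (-((2 * M : ℕ) : ℝ) * x) * k x) * (g.eval (Real.exp (-x))) ^ 2 := by
          rw [← h7, h8, h6 (2 * M)]
          ring
  rw [integral_congr_ae (Filter.Eventually.of_forall h5)] at h0
  exact h0

theorem kernel_nonneg (l : ℕ → ℝ) (hl : IsLambda l) (k : ℝ → ℝ) (hk : Continuous k) (σ C : ℝ) (n : ℕ)
    (hb : ∀ x : ℝ, 0 ≤ x → |k x| ≤ C * (1 + x) ^ n * Real.exp (σ * x))
    (hrep : ∀ m : ℕ, σ < m → ∫ x in Ioi (0:ℝ), Real.exp (-(m:ℝ) * x) * k x = l m) :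
    ∀ x : ℝ, 0 ≤ x → 0 ≤ k x := by
  intro x1 hx1
  by_contra hneg
  push Not at hneg
  -- the interval
  obtain ⟨ε, hε, hball⟩ := Metric.eventually_nhds_iff.1 (hk.continuousAt.eventually (gt_mem_nhds hneg))
  obtain ⟨a, ha⟩ : ∃ a : ℝ, a = x1 + ε / 4 := ⟨_, rfl⟩
  obtain ⟨b, hb'⟩ : ∃ b : ℝ, b = x1 + ε / 2 := ⟨_, rfl⟩
  have ha0 : 0 < a := by rw [ha]; linarith
  have hab : a < b := by rw [ha, hb']; linarith
  have hkab : ∀ x, a < x → x < b → k x < 0 := by
    intro x h1 h2
    apply hball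
    rw [Real.dist_eq, abs_lt]
    rw [ha] at h1
    rw [hb'] at h2
    constructor <;> linarith
  obtain ⟨M, hM'⟩ := exists_nat_gt σ
  have hM : σ < ((2 * M : ℕ) : ℝ) := by
    push_cast
    have : (0 : ℝ) ≤ M := Nat.cast_nonneg M
    linarith
  obtain ⟨w, hw⟩ : ∃ w : ℝ → ℝ, w = fun x => Real.exp (-((2 * M : ℕ) : ℝ) * x) * k x := ⟨_, rfl⟩
  have hwint : IntegrableOn w (Ioi 0) := by rw [hw]; exact kn_int k hk σ C n hb _ hM
  have hpoly : ∀ g : ℝ[X], 0 ≤ ∫ x in Ioi (0:ℝ), w x * (g.eval (Real.exp (-x))) ^ 2 := by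
    intro g
    rw [hw]
    exact kn_poly l hl k hk σ C n hb hrep M hM g
  obtain ⟨φ, hφ⟩ : ∃ φ : ℝ → ℝ, φ = fun t => max 0 ((t - Real.exp (-b)) * (Real.exp (-a) - t)) :=
    ⟨_, rfl⟩
  have hφc : Continuous φ := by rw [hφ]; fun_prop
  have hφ0 : ∀ t, 0 ≤ φ t := fun t => by rw [hφ]; exact le_max_left _ _
  have hφ1 : ∀ t ∈ Icc (0:ℝ) 1, φ t ≤ 1 := by
    intro t ht
    rw [hφ]
    refine max_le zero_le_one ?_
    have e1 : 0 < Real.exp (-b) := Real.exp_pos _
    have e2 : Real.exp (-a) ≤ 1 := by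
      rw [Real.exp_le_one_iff]; linarith
    have e3 : 0 < Real.exp (-a) := Real.exp_pos _
    have e4 : Real.exp (-b) < Real.exp (-a) := Real.exp_lt_exp.2 (by linarith)
    have e5 : t - Real.exp (-b) ≤ 1 := by linarith [ht.2]
    have e6 : Real.exp (-a) - t ≤ 1 := by linarith [ht.1]
    rcases le_or_gt 0 (t - Real.exp (-b)) with h | h
    · calc (t - Real.exp (-b)) * (Real.exp (-a) - t) ≤ (t - Real.exp (-b)) * 1 :=
            mul_le_mul_of_nonneg_left e6 h
        _ ≤ 1 := by linarith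
    · have h' : 0 ≤ Real.exp (-a) - t := by linarith
      have : (t - Real.exp (-b)) * (Real.exp (-a) - t) ≤ 0 :=
        mul_nonpos_of_nonpos_of_nonneg h.le h'
      linarith
  have hexp : ∀ x : ℝ, 0 < x → Real.exp (-x) ∈ Icc (0:ℝ) 1 := fun x hx =>
    ⟨(Real.exp_pos _).le, by rw [Real.exp_le_one_iff]; linarith⟩
  have hIφ : IntegrableOn (fun x => w x * φ (Real.exp (-x)) ^ 2) (Ioi 0) := by
    have h1 : IntegrableOn (fun x => φ (Real.exp (-x)) ^ 2 * w x) (Ioi 0) := by
      refine Integrable.bdd_mul (c := 1) hwint (Continuous.aestronglyMeasurable (by fun_prop)) ?_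
      refine (ae_restrict_iff' measurableSet_Ioi).2 (Filter.Eventually.of_forall fun x hx => ?_)
      have h2 := hφ1 _ (hexp x hx)
      have h3 := hφ0 (Real.exp (-x))
      rw [Real.norm_eq_abs, abs_of_nonneg (by positivity)]
      exact pow_le_one₀ h3 h2
    exact h1.congr (Filter.Eventually.of_forall fun x => mul_comm _ _)
  -- the limit integral is nonnegative
  have hge : 0 ≤ ∫ x in Ioi (0:ℝ), w x * φ (Real.exp (-x)) ^ 2 := by
    apply le_of_forall_pos_le_add
    intro η hη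
    obtain ⟨I, hI⟩ : ∃ I : ℝ, I = ∫ x in Ioi (0:ℝ), |w x| := ⟨_, rfl⟩
    have hI0 : 0 ≤ I := by rw [hI]; exact integral_nonneg fun x => abs_nonneg _
    obtain ⟨δ, hδ⟩ : ∃ δ : ℝ, δ = min 1 (η / (3 * I + 1)) := ⟨_, rfl⟩
    have hδ0 : 0 < δ := by rw [hδ]; exact lt_min one_pos (by positivity)
    have hδ1 : δ ≤ 1 := by rw [hδ]; exact min_le_left _ _
    have hδ2 : δ * (3 * I) ≤ η := by
      have h1 : δ ≤ η / (3 * I + 1) := by rw [hδ]; exact min_le_right _ _
      rw [le_div_iff₀ (by positivity)] at h1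
      nlinarith
    obtain ⟨g, hg⟩ := exists_polynomial_near_of_continuousOn 0 1 φ hφc.continuousOn δ hδ0
    have h1 := hpoly g
    have h2 : ∀ x ∈ Ioi (0:ℝ), w x * (g.eval (Real.exp (-x))) ^ 2 ≤
        w x * φ (Real.exp (-x)) ^ 2 + δ * 3 * |w x| := by
      intro x hx
      have h3 := hg _ (hexp x hx)
      have h4 := hφ1 _ (hexp x hx)
      have h5 := hφ0 (Real.exp (-x))
      obtain ⟨p, hp⟩ : ∃ p : ℝ, p = g.eval (Real.exp (-x)) := ⟨_, rfl⟩
      obtain ⟨q, hq⟩ : ∃ q : ℝ, q = φ (Real.exp (-x)) := ⟨_, rfl⟩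
      rw [← hp, ← hq] at h3
      rw [← hq] at h4 h5
      rw [← hp, ← hq]
      have h6 : |p ^ 2 - q ^ 2| ≤ δ * 3 := by
        have h7 : p ^ 2 - q ^ 2 = (p - q) * (p + q) := by ring
        rw [h7, abs_mul]
        have h8 := abs_lt.1 h3
        have h9 : |p + q| ≤ 3 := by
          rw [abs_le]; constructor <;> linarith
        exact mul_le_mul h3.le h9 (abs_nonneg _) hδ0.le
      have h10 : w x * (p ^ 2 - q ^ 2) ≤ |w x| * (δ * 3) := by
        calc w x * (p ^ 2 - q ^ 2) ≤ |w x * (p ^ 2 - q ^ 2)| := le_abs_self _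
          _ = |w x| * |p ^ 2 - q ^ 2| := abs_mul _ _
          _ ≤ |w x| * (δ * 3) := mul_le_mul_of_nonneg_left h6 (abs_nonneg _)
      nlinarith
    have hIabs : IntegrableOn (fun x => δ * 3 * |w x|) (Ioi 0) := (hwint.abs).const_mul _
    by_cases hIg : IntegrableOn (fun x => w x * (g.eval (Real.exp (-x))) ^ 2) (Ioi 0)
    · have h11 := setIntegral_mono_on hIg (hIφ.add hIabs) measurableSet_Ioi h2
      have h12 : ∫ x in Ioi (0:ℝ), (w x * φ (Real.exp (-x)) ^ 2 + δ * 3 * |w x|) =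
          (∫ x in Ioi (0:ℝ), w x * φ (Real.exp (-x)) ^ 2) + δ * 3 * I := by
        rw [integral_add hIφ hIabs, integral_const_mul, hI]
      have h13 : ∫ x in Ioi (0:ℝ), ((fun x => w x * φ (Real.exp (-x)) ^ 2) + fun x => δ * 3 * |w x|) x
          = ∫ x in Ioi (0:ℝ), (w x * φ (Real.exp (-x)) ^ 2 + δ * 3 * |w x|) := rfl
      rw [h13, h12] at h11
      linarith
    · exfalso
      apply hIg
      have hbd : ∃ B : ℝ, ∀ t ∈ Icc (0:ℝ) 1, ‖(g.eval t) ^ 2‖ ≤ B := by
        have hcont : ContinuousOn (fun t : ℝ => (g.eval t) ^ 2) (Icc 0 1) := by fun_prop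
        exact isCompact_Icc.exists_bound_of_continuousOn hcont
      obtain ⟨B, hB⟩ := hbd
      have h14 : IntegrableOn (fun x => (g.eval (Real.exp (-x))) ^ 2 * w x) (Ioi 0) := by
        refine Integrable.bdd_mul (c := B) hwint (Continuous.aestronglyMeasurable (by fun_prop)) ?_
        exact (ae_restrict_iff' measurableSet_Ioi).2
          (Filter.Eventually.of_forall fun x hx => hB _ (hexp x hx))
      exact h14.congr (Filter.Eventually.of_forall fun x => mul_comm _ _)
  -- but it is negative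
  have hwneg : ∀ x, a < x → x < b → w x < 0 := by
    intro x h1 h2
    rw [hw]
    exact mul_neg_of_pos_of_neg (Real.exp_pos _) (hkab x h1 h2)
  have hφz : ∀ x, ¬ (a < x ∧ x < b) → φ (Real.exp (-x)) = 0 := by
    intro x hx
    rw [hφ]
    refine max_eq_left ?_
    have hx' : x ≤ a ∨ b ≤ x := by
      by_contra hcon
      push Not at hcon
      exact hx hcon
    rcases hx' with h | h
    · have e1 : Real.exp (-a) ≤ Real.exp (-x) := Real.exp_le_exp.2 (by linarith)
      have e2 : Real.exp (-b) < Real.exp (-a) := Real.exp_lt_exp.2 (by linarith)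
      exact mul_nonpos_of_nonneg_of_nonpos (by linarith) (by linarith)
    · have e1 : Real.exp (-x) ≤ Real.exp (-b) := Real.exp_le_exp.2 (by linarith)
      have e2 : Real.exp (-b) < Real.exp (-a) := Real.exp_lt_exp.2 (by linarith)
      exact mul_nonpos_of_nonpos_of_nonneg (by linarith) (by linarith)
  have hφp : ∀ x, a < x → x < b → 0 < φ (Real.exp (-x)) := by
    intro x h1 h2
    rw [hφ]
    refine lt_max_of_lt_right ?_
    have e1 : Real.exp (-x) < Real.exp (-a) := Real.exp_lt_exp.2 (by linarith)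
    have e2 : Real.exp (-b) < Real.exp (-x) := Real.exp_lt_exp.2 (by linarith)
    exact mul_pos (by linarith) (by linarith)
  have hpos : 0 < ∫ x in Ioi (0:ℝ), -(w x * φ (Real.exp (-x)) ^ 2) := by
    rw [setIntegral_pos_iff_support_of_nonneg_ae]
    · have hsub : Ioo a b ⊆ (Function.support fun x => -(w x * φ (Real.exp (-x)) ^ 2)) ∩ Ioi 0 := by
        rintro x ⟨h1, h2⟩
        refine ⟨?_, ha0.trans h1⟩
        rw [Function.mem_support]
        have h3 := hwneg x h1 h2
        have h4 := hφp x h1 h2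
        have : w x * φ (Real.exp (-x)) ^ 2 < 0 := mul_neg_of_neg_of_pos h3 (by positivity)
        intro h5
        linarith
      refine lt_of_lt_of_le ?_ (measure_mono hsub)
      rw [Real.volume_Ioo]
      simpa using hab
    · refine Filter.Eventually.of_forall fun x => ?_
      show 0 ≤ -(w x * φ (Real.exp (-x)) ^ 2)
      by_cases hx : a < x ∧ x < b
      · have h3 := hwneg x hx.1 hx.2
        have : w x * φ (Real.exp (-x)) ^ 2 ≤ 0 :=
          mul_nonpos_of_nonpos_of_nonneg h3.le (by positivity)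
        linarith
      · rw [hφz x hx]; simp
    · exact hIφ.neg
  rw [integral_neg] at hpos
  linarith

/-! ### part J3 -/

theorem mass_bound_int (k : ℝ → ℝ) (hk : Continuous k) (σ C : ℝ) (n : ℕ)
    (hb : ∀ x : ℝ, 0 ≤ x → |k x| ≤ C * (1 + x) ^ n * Real.exp (σ * x)) (s : ℝ) (hs : σ < s) :
    IntegrableOn (fun x => Real.exp (-s * x) * k x) (Ioi 0) := by
  have hpos : 0 < (s - σ) / 2 := by linarith
  have hC : 0 ≤ C := by
    have h := hb 0 le_rfl
    simp at h
    exact (abs_nonneg _).trans h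
  apply integrable_of_isBigO_exp_neg hpos
  · fun_prop
  · have h1 : (fun x : ℝ => x ^ n) =o[atTop] fun x => Real.exp ((s - σ) / 2 * x) :=
      isLittleO_pow_exp_pos_mul_atTop n hpos
    have h2 : (fun x : ℝ => Real.exp (-s * x) * k x) =O[atTop]
        fun x => x ^ n * Real.exp (-(s - σ) * x) := by
      apply Asymptotics.IsBigO.of_bound (C * 2 ^ n)
      filter_upwards [eventually_ge_atTop 1] with x hx
      have hx0 : 0 ≤ x := by linarith
      have h3 := hb x hx0
      have h4 : (1 + x) ^ n ≤ 2 ^ n * x ^ n := by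
        rw [← mul_pow]
        exact pow_le_pow_left₀ (by linarith) (by linarith) n
      rw [Real.norm_eq_abs, Real.norm_eq_abs, abs_mul, abs_mul, Real.abs_exp, Real.abs_exp,
        abs_of_nonneg (pow_nonneg hx0 n)]
      have h5 : Real.exp (-(s - σ) * x) = Real.exp (-s * x) * Real.exp (σ * x) := by
        rw [← Real.exp_add]
        congr 1
        ring
      rw [h5]
      calc Real.exp (-s * x) * |k x| ≤ Real.exp (-s * x) * (C * (1 + x) ^ n * Real.exp (σ * x)) :=
            mul_le_mul_of_nonneg_left h3 (Real.exp_pos _).le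
        _ ≤ Real.exp (-s * x) * (C * (2 ^ n * x ^ n) * Real.exp (σ * x)) := by
            apply mul_le_mul_of_nonneg_left _ (Real.exp_pos _).le
            apply mul_le_mul_of_nonneg_right _ (Real.exp_pos _).le
            exact mul_le_mul_of_nonneg_left h4 hC
        _ = C * 2 ^ n * (x ^ n * (Real.exp (-s * x) * Real.exp (σ * x))) := by ring
    have h3 : (fun x : ℝ => x ^ n * Real.exp (-(s - σ) * x)) =O[atTop]
        fun x => Real.exp ((s - σ) / 2 * x) * Real.exp (-(s - σ) * x) :=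
      h1.isBigO.mul (Asymptotics.isBigO_refl _ _)
    refine (h2.trans h3).congr_right fun x => ?_
    rw [← Real.exp_add]
    congr 1
    ring

/-- the polynomial `2 h - h ^ 2` -/
noncomputable def mbg (M N : ℕ) : ℝ[X] :=
  2 * (1 - (1 - X) ^ N) ^ M - ((1 - (1 - X) ^ N) ^ M) ^ 2

theorem mbg_eval (M N : ℕ) (t : ℝ) :
    (mbg M N).eval t = 2 * (1 - (1 - t) ^ N) ^ M - ((1 - (1 - t) ^ N) ^ M) ^ 2 := by
  simp [mbg]

theorem mbg_coeff (M N j : ℕ) (hj : j < M) : (mbg M N).coeff j = 0 := by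
  have h1 : (X : ℝ[X]) ∣ 1 - (1 - X) ^ N := by
    rw [X_dvd_iff, coeff_zero_eq_eval_zero]
    simp
  have h2 : (X : ℝ[X]) ^ M ∣ mbg M N := by
    have h3 : mbg M N = (1 - (1 - X) ^ N) ^ M * (2 - (1 - (1 - X) ^ N) ^ M) := by
      unfold mbg
      ring
    rw [h3]
    exact dvd_mul_of_dvd_left (pow_dvd_pow_of_dvd h1 M) _
  exact X_pow_dvd_iff.mp h2 j hj

theorem mb_act (l : ℕ → ℝ) (p : ℝ[X]) (D : ℕ) (hD : p.natDegree < D) :
    (act l p).eval 1 = ∑ j ∈ Finset.range D, l j * p.coeff j := by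
  unfold act
  rw [eval_finsetSum]
  have h1 : ∀ j ∈ Finset.range (p.natDegree + 1),
      (C (l j * p.coeff j) * X ^ j).eval 1 = l j * p.coeff j := by
    intro j _
    simp
  rw [Finset.sum_congr rfl h1]
  apply Finset.sum_subset
  · intro j hj
    rw [Finset.mem_range] at hj ⊢
    omega
  · intro j _ hj2
    rw [Finset.mem_range, not_lt] at hj2
    rw [coeff_eq_zero_of_natDegree_lt (by omega), mul_zero]

theorem mass_bound (l : ℕ → ℝ) (hl : IsLambda l) (k : ℝ → ℝ) (hk : Continuous k) (σ C : ℝ) (n : ℕ)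
    (hb : ∀ x : ℝ, 0 ≤ x → |k x| ≤ C * (1 + x) ^ n * Real.exp (σ * x))
    (hrep : ∀ m : ℕ, σ < m → ∫ x in Ioi (0:ℝ), Real.exp (-(m:ℝ) * x) * k x = l m)
    (hnn : ∀ x : ℝ, 0 ≤ x → 0 ≤ k x) (s : ℝ) (hs : σ < s) (hs0 : 0 ≤ s) :
    ∫ x in Ioi (0:ℝ), Real.exp (-s * x) * k x ≤ l 0 := by
  obtain ⟨M, hM⟩ := exists_nat_gt (max σ 0)
  have hMσ : σ < M := lt_of_le_of_lt (le_max_left _ _) hM
  have hM0 : 0 < M := by
    have : (0 : ℝ) < M := lt_of_le_of_lt (le_max_right _ _) hM
    exact_mod_cast this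
  -- term integrability
  have hterm : ∀ N j : ℕ, IntegrableOn
      (fun x => (mbg M N).coeff j * (Real.exp (-(j : ℝ) * x) * k x)) (Ioi 0) := by
    intro N j
    by_cases hj : j < M
    · rw [mbg_coeff M N j hj]
      simp only [zero_mul]
      exact integrableOn_zero
    · push Not at hj
      have : (M : ℝ) ≤ j := by exact_mod_cast hj
      exact (mass_bound_int k hk σ C n hb j (by linarith)).const_mul _
  have hexpand : ∀ N : ℕ, ∀ D : ℕ, (mbg M N).natDegree < D → ∀ x : ℝ,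
      (mbg M N).eval (Real.exp (-x)) * k x =
        ∑ j ∈ Finset.range D, (mbg M N).coeff j * (Real.exp (-(j : ℝ) * x) * k x) := by
    intro N D hD x
    rw [eval_eq_sum_range' hD, Finset.sum_mul]
    refine Finset.sum_congr rfl fun j _ => ?_
    rw [← Real.exp_nat_mul]
    have : (j : ℝ) * -x = -(j : ℝ) * x := by ring
    rw [this]
    ring
  have hgint : ∀ N : ℕ, IntegrableOn (fun x => (mbg M N).eval (Real.exp (-x)) * k x) (Ioi 0) := by
    intro N
    have h1 : (fun x => (mbg M N).eval (Real.exp (-x)) * k x) = fun x =>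
        ∑ j ∈ Finset.range ((mbg M N).natDegree + 1),
          (mbg M N).coeff j * (Real.exp (-(j : ℝ) * x) * k x) := by
      funext x
      exact hexpand N _ (Nat.lt_succ_self _) x
    rw [h1]
    exact integrable_finsetSum _ fun j _ => hterm N j
  have hmain : ∀ N : ℕ, ∫ x in Ioi (0:ℝ), (mbg M N).eval (Real.exp (-x)) * k x ≤ l 0 := by
    intro N
    obtain ⟨f, hf⟩ : ∃ f : ℝ[X], f = (1 - (1 - (1 - X) ^ N) ^ M) ^ 2 := ⟨_, rfl⟩
    have hfg : f = 1 - mbg M N := by
      rw [hf]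
      unfold mbg
      ring
    have hfn : NonnegPoly f := by
      intro x
      rw [hf, eval_pow]
      exact sq_nonneg _
    have h1 := hl.2 f hfn 1
    obtain ⟨D, hD⟩ : ∃ D : ℕ, D = max f.natDegree (mbg M N).natDegree + 1 := ⟨_, rfl⟩
    rw [mb_act l f D (by omega)] at h1
    have h2 : ∑ j ∈ Finset.range D, l j * f.coeff j =
        l 0 - ∑ j ∈ Finset.range D, l j * (mbg M N).coeff j := by
      have h3 : ∀ j ∈ Finset.range D, l j * f.coeff j =
          (if j = 0 then l j else 0) - l j * (mbg M N).coeff j := by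
        intro j _
        rw [hfg, coeff_sub, coeff_one]
        split_ifs <;> ring
      rw [Finset.sum_congr rfl h3, Finset.sum_sub_distrib, Finset.sum_ite_eq',
        if_pos (Finset.mem_range.mpr (by omega))]
    have h3 : ∫ x in Ioi (0:ℝ), (mbg M N).eval (Real.exp (-x)) * k x =
        ∑ j ∈ Finset.range D, l j * (mbg M N).coeff j := by
      have h4 : (fun x => (mbg M N).eval (Real.exp (-x)) * k x) = fun x =>
          ∑ j ∈ Finset.range D, (mbg M N).coeff j * (Real.exp (-(j : ℝ) * x) * k x) := by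
        funext x
        exact hexpand N D (by omega) x
      rw [h4, integral_finsetSum _ fun j _ => hterm N j]
      refine Finset.sum_congr rfl fun j _ => ?_
      by_cases hj : j < M
      · rw [mbg_coeff M N j hj]
        simp
      · push Not at hj
        have h5 : (M : ℝ) ≤ j := by exact_mod_cast hj
        rw [integral_const_mul, hrep j (by linarith), mul_comm]
    rw [h3]
    rw [h2] at h1
    linarith
  -- bounds for `t ∈ (0,1)`
  have hg01 : ∀ N : ℕ, ∀ x : ℝ, 0 < x → 0 ≤ (mbg M N).eval (Real.exp (-x)) ∧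
      (mbg M N).eval (Real.exp (-x)) ≤ 1 := by
    intro N x hx
    rw [mbg_eval]
    have ht0 : 0 < Real.exp (-x) := Real.exp_pos _
    have ht1 : Real.exp (-x) < 1 := by
      rw [Real.exp_lt_one_iff]
      linarith
    generalize Real.exp (-x) = t at ht0 ht1
    have hu0 : 0 ≤ (1 - t) ^ N := pow_nonneg (by linarith) N
    have hu1 : (1 - t) ^ N ≤ 1 := pow_le_one₀ (by linarith) (by linarith)
    have hh0 : 0 ≤ (1 - (1 - t) ^ N) ^ M := pow_nonneg (by linarith) M
    have hh1 : (1 - (1 - t) ^ N) ^ M ≤ 1 := pow_le_one₀ (by linarith) (by linarith)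
    generalize (1 - (1 - t) ^ N) ^ M = h at hh0 hh1
    constructor <;> nlinarith
  have hkint := mass_bound_int k hk σ C n hb s hs
  have hlim : Tendsto (fun N : ℕ => ∫ x in Ioi (0:ℝ),
      Real.exp (-s * x) * ((mbg M N).eval (Real.exp (-x)) * k x)) atTop
      (𝓝 (∫ x in Ioi (0:ℝ), Real.exp (-s * x) * k x)) := by
    apply tendsto_integral_of_dominated_convergence (fun x => Real.exp (-s * x) * k x)
    · intro N
      have hc : Continuous (fun x : ℝ =>
          Real.exp (-s * x) * ((mbg M N).eval (Real.exp (-x)) * k x)) := by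
        have h1 : Continuous (fun x : ℝ => (mbg M N).eval (Real.exp (-x))) :=
          (mbg M N).continuous.comp (by fun_prop)
        fun_prop
      exact hc.aestronglyMeasurable
    · exact hkint
    · intro N
      refine ae_restrict_of_forall_mem measurableSet_Ioi fun x hx => ?_
      have hx0 : 0 < x := hx
      obtain ⟨g0, g1⟩ := hg01 N x hx0
      have hk0 := hnn x hx0.le
      have he := (Real.exp_pos (-s * x)).le
      rw [Real.norm_of_nonneg (mul_nonneg he (mul_nonneg g0 hk0))]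
      apply mul_le_mul_of_nonneg_left _ he
      exact mul_le_of_le_one_left hk0 g1
    · refine ae_restrict_of_forall_mem measurableSet_Ioi fun x hx => ?_
      have hx0 : 0 < x := hx
      have ht0 : 0 < Real.exp (-x) := Real.exp_pos _
      have ht1 : Real.exp (-x) < 1 := by
        rw [Real.exp_lt_one_iff]
        linarith
      have h1 : Tendsto (fun N : ℕ => (1 - Real.exp (-x)) ^ N) atTop (𝓝 0) :=
        tendsto_pow_atTop_nhds_zero_of_lt_one (by linarith) (by linarith)
      have h2 : Tendsto (fun N : ℕ => (mbg M N).eval (Real.exp (-x))) atTop (𝓝 1) := by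
        have h3 : Tendsto (fun N : ℕ => 2 * (1 - (1 - Real.exp (-x)) ^ N) ^ M -
            ((1 - (1 - Real.exp (-x)) ^ N) ^ M) ^ 2) atTop
            (𝓝 (2 * (1 - 0) ^ M - ((1 - 0) ^ M) ^ 2)) :=
          (((h1.const_sub 1).pow M).const_mul 2).sub (((h1.const_sub 1).pow M).pow 2)
        have h4 : (2 : ℝ) * (1 - 0) ^ M - ((1 - 0) ^ M) ^ 2 = 1 := by
          rw [sub_zero, one_pow]
          norm_num
        rw [h4] at h3
        refine h3.congr fun N => ?_
        rw [mbg_eval]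
      have h3 := (h2.mul_const (k x)).const_mul (Real.exp (-s * x))
      rw [one_mul] at h3
      exact h3
  refine le_of_tendsto' hlim fun N => ?_
  refine le_trans ?_ (hmain N)
  apply setIntegral_mono_on _ (hgint N) measurableSet_Ioi
  · intro x hx
    have hx0 : 0 < x := hx
    obtain ⟨g0, g1⟩ := hg01 N x hx0
    have hk0 := hnn x hx0.le
    apply mul_le_of_le_one_left (mul_nonneg g0 hk0)
    rw [Real.exp_le_one_iff]
    have : 0 ≤ s * x := mul_nonneg hs0 hx0.le
    linarith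
  · refine Integrable.mono' hkint ?_ ?_
    · have hc : Continuous (fun x : ℝ =>
          Real.exp (-s * x) * ((mbg M N).eval (Real.exp (-x)) * k x)) := by
        have h1 : Continuous (fun x : ℝ => (mbg M N).eval (Real.exp (-x))) :=
          (mbg M N).continuous.comp (by fun_prop)
        fun_prop
      exact hc.aestronglyMeasurable
    · refine ae_restrict_of_forall_mem measurableSet_Ioi fun x hx => ?_
      have hx0 : 0 < x := hx
      obtain ⟨g0, g1⟩ := hg01 N x hx0
      have hk0 := hnn x hx0.le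
      have he := (Real.exp_pos (-s * x)).le
      rw [Real.norm_of_nonneg (mul_nonneg he (mul_nonneg g0 hk0))]
      apply mul_le_mul_of_nonneg_left _ he
      exact mul_le_of_le_one_left hk0 g1

/-! ### part J5 -/

theorem necessary_of (P : ℝ[X]) (hP : 1 ≤ P.natDegree) (hpos : ∀ m : ℕ, 0 < P.eval (m:ℝ))
    (kr : ∀ σ : ℝ, (∀ z : ℂ, aeval z P = 0 → z.re ≤ σ) →
      ∃ k : ℝ → ℝ, Continuous k ∧ (∃ (C : ℝ) (n : ℕ), ∀ x : ℝ, 0 ≤ x →
        |k x| ≤ C * (1 + x) ^ n * Real.exp (σ * x)) ∧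
      ∀ s : ℂ, σ < s.re →
        ∫ x in Ioi (0:ℝ), Complex.exp (-s * x) * (k x : ℂ) = 1 / aeval s P)
    (nn : ∀ (k : ℝ → ℝ), Continuous k → ∀ (σ C : ℝ) (n : ℕ),
      (∀ x : ℝ, 0 ≤ x → |k x| ≤ C * (1 + x) ^ n * Real.exp (σ * x)) →
      (∀ m : ℕ, σ < m → ∫ x in Ioi (0:ℝ), Real.exp (-(m:ℝ) * x) * k x = 1 / P.eval (m:ℝ)) →
      (∀ x : ℝ, 0 ≤ x → 0 ≤ k x) ∧
      ∀ s : ℝ, σ < s → 0 ≤ s → ∫ x in Ioi (0:ℝ), Real.exp (-s * x) * k x ≤ 1 / P.eval 0) :
    NegDominantZero P := by
  have hP0 : P ≠ 0 := by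
    rintro rfl
    simp at hP
  have hfin : (P.rootSet ℂ).Finite := P.rootSet_finite ℂ
  have hne : (P.rootSet ℂ).Nonempty := by
    obtain ⟨z, hz⟩ := IsAlgClosed.exists_aeval_eq_zero ℂ P (by
      intro hd
      rw [Polynomial.degree_eq_natDegree hP0] at hd
      have : P.natDegree = 0 := by exact_mod_cast hd
      omega)
    exact ⟨z, (Polynomial.mem_rootSet).2 ⟨hP0, hz⟩⟩
  obtain ⟨z0, hz0, hmax⟩ := Set.exists_max_image (P.rootSet ℂ) (fun z => z.re) hfin hne
  have hz0r : aeval z0 P = 0 := ((Polynomial.mem_rootSet).1 hz0).2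
  have hmax' : ∀ z : ℂ, aeval z P = 0 → z.re ≤ z0.re := fun z hz =>
    hmax z ((Polynomial.mem_rootSet).2 ⟨hP0, hz⟩)
  obtain ⟨k, hkc, ⟨C, n, hkb⟩, hki⟩ := kr z0.re hmax'
  have hev : ∀ s : ℝ, aeval (s : ℂ) P = ((P.eval s : ℝ) : ℂ) := by
    intro s
    have := Polynomial.aeval_algebraMap_apply ℂ s P
    simpa using this
  have hreal : ∀ s : ℝ, z0.re < s →
      ∫ x in Ioi (0:ℝ), Real.exp (-s * x) * k x = 1 / P.eval s := by
    intro s hs
    have h1 := hki (s : ℂ) (by simpa using hs)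
    rw [hev] at h1
    have h2 : ∀ x : ℝ, Complex.exp (-(s:ℂ) * x) * (k x : ℂ) =
        ((Real.exp (-s * x) * k x : ℝ) : ℂ) := by
      intro x; push_cast; rfl
    simp_rw [h2] at h1
    rw [integral_complex_ofReal] at h1
    exact_mod_cast h1
  obtain ⟨hk0, hle0⟩ := nn k hkc z0.re C n hkb (fun m hm => hreal m hm)
  have hPs : ∀ s : ℝ, z0.re < s →
      0 < P.eval s ∧ P.eval s ≤ ‖aeval ((s : ℂ) + z0.im * Complex.I) P‖ := by
    intro s hs
    have h1 := hki ((s : ℂ) + z0.im * Complex.I) (by simpa using hs)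
    have hne : aeval ((s : ℂ) + z0.im * Complex.I) P ≠ 0 := by
      intro h0
      have := hmax' _ h0
      simp at this
      linarith
    have h2 : ‖∫ x in Ioi (0:ℝ), Complex.exp (-((s : ℂ) + z0.im * Complex.I) * x) * (k x : ℂ)‖ ≤
        ∫ x in Ioi (0:ℝ), Real.exp (-s * x) * k x := by
      refine (norm_integral_le_integral_norm _).trans (le_of_eq ?_)
      refine setIntegral_congr_fun measurableSet_Ioi ?_
      intro x hx
      simp only
      rw [norm_mul, Complex.norm_exp, Complex.norm_real, Real.norm_eq_abs,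
        abs_of_nonneg (hk0 x (le_of_lt hx))]
      congr 2
      simp
    rw [h1, hreal s hs, norm_div, norm_one] at h2
    have h3 : 0 < ‖aeval ((s : ℂ) + z0.im * Complex.I) P‖ := norm_pos_iff.2 hne
    have h4 : 0 < 1 / P.eval s := lt_of_lt_of_le (by positivity) h2
    have h5 : 0 < P.eval s := one_div_pos.1 h4
    exact ⟨h5, (one_div_le_one_div h3 h5).1 h2⟩
  have hc1 : Tendsto (fun s : ℝ => P.eval s) (𝓝[>] z0.re) (𝓝 (P.eval z0.re)) :=
    (P.continuous.tendsto _).mono_left nhdsWithin_le_nhds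
  have hc2 : Tendsto (fun s : ℝ => ‖aeval ((s : ℂ) + z0.im * Complex.I) P‖) (𝓝[>] z0.re)
      (𝓝 0) := by
    have hcont : Continuous (fun s : ℝ => ‖aeval ((s : ℂ) + z0.im * Complex.I) P‖) := by
      refine continuous_norm.comp ?_
      exact (Polynomial.continuous_aeval P).comp (by fun_prop)
    have := (hcont.tendsto z0.re).mono_left (nhdsWithin_le_nhds (s := Ioi z0.re))
    have e : ‖aeval ((z0.re : ℂ) + z0.im * Complex.I) P‖ = 0 := by
      rw [Complex.re_add_im, hz0r, norm_zero]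
    rw [e] at this
    exact this
  have hev' : ∀ᶠ s in 𝓝[>] z0.re, z0.re < s := self_mem_nhdsWithin
  have hle : P.eval z0.re ≤ 0 :=
    le_of_tendsto_of_tendsto hc1 hc2 (hev'.mono fun s hs => (hPs s hs).2)
  have hge : 0 ≤ P.eval z0.re := ge_of_tendsto hc1 (hev'.mono fun s hs => (hPs s hs).1.le)
  have hz : P.eval z0.re = 0 := le_antisymm hle hge
  refine ⟨z0.re, ?_, hz, hmax'⟩
  by_contra hcon
  have hP00 : 0 < P.eval 0 := by simpa using hpos 0
  have h6 : P.eval 0 ≤ P.eval z0.re := by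
    refine ge_of_tendsto hc1 (hev'.mono fun s hs => ?_)
    have h7 := hle0 s hs (by linarith)
    rw [hreal s hs] at h7
    exact (one_div_le_one_div (hPs s hs).1 hP00).1 h7
  linarith

/-! ### part J6 -/

theorem act_coeff' (l : ℕ → ℝ) (p : ℝ[X]) (j : ℕ) : (act l p).coeff j = l j * p.coeff j := by
  unfold act
  rw [finset_sum_coeff]
  simp only [coeff_C_mul, coeff_X_pow]
  by_cases hj : j < p.natDegree + 1
  · rw [Finset.sum_eq_single j]
    · simp
    · intro b _ hb
      rw [if_neg (fun h => hb h.symm)]; simp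
    · intro h; exact absurd (Finset.mem_range.2 hj) h
  · have h0 : p.coeff j = 0 := coeff_eq_zero_of_natDegree_lt (by omega)
    rw [h0, mul_zero]
    apply Finset.sum_eq_zero
    intro b hb
    rw [if_neg, mul_zero]
    intro h; subst h; exact hj (Finset.mem_range.1 hb)

theorem act_eval' (l : ℕ → ℝ) (p : ℝ[X]) (x : ℝ) :
    (act l p).eval x = ∑ j ∈ Finset.range (p.natDegree + 1), l j * p.coeff j * x ^ j := by
  unfold act
  rw [eval_finset_sum]
  simp

theorem isLambda_of_kernel (l : ℕ → ℝ) (hl : ∀ m, l m ≠ 0) (k : ℝ → ℝ)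
    (hnn : ∀ x : ℝ, 0 < x → 0 ≤ k x) (hint : ∀ m : ℕ, IntegrableOn (fun x => Real.exp (-(m:ℝ) * x) * k x) (Ioi 0))
    (hrep : ∀ m : ℕ, ∫ x in Ioi (0:ℝ), Real.exp (-(m:ℝ) * x) * k x = l m) : IsLambda l := by
  refine ⟨hl, ?_⟩
  intro p hp x
  rw [act_eval']
  have h1 : ∑ j ∈ Finset.range (p.natDegree + 1), l j * p.coeff j * x ^ j
      = ∫ y in Ioi (0:ℝ), ∑ j ∈ Finset.range (p.natDegree + 1),
          (p.coeff j * x ^ j) * (Real.exp (-(j:ℝ) * y) * k y) := by
    rw [integral_finset_sum]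
    · apply Finset.sum_congr rfl
      intro j _
      rw [integral_const_mul, hrep j]; ring
    · intro j _
      exact (hint j).const_mul _
  rw [h1]
  apply setIntegral_nonneg measurableSet_Ioi
  intro y hy
  have h2 : ∑ j ∈ Finset.range (p.natDegree + 1),
          (p.coeff j * x ^ j) * (Real.exp (-(j:ℝ) * y) * k y)
      = p.eval (x * Real.exp (-y)) * k y := by
    rw [eval_eq_sum_range, Finset.sum_mul]
    apply Finset.sum_congr rfl
    intro j _
    rw [mul_pow, ← Real.exp_nat_mul]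
    rw [show ((j:ℝ) * -y) = -(j:ℝ) * y by ring]
    ring
  rw [h2]
  exact mul_nonneg (hp _) (hnn y hy)

theorem isLambda_mul (l1 l2 : ℕ → ℝ) (h1 : IsLambda l1) (h2 : IsLambda l2) :
    IsLambda (fun m => l1 m * l2 m) := by
  refine ⟨fun k => mul_ne_zero (h1.1 k) (h2.1 k), ?_⟩
  intro p hp
  have h3 := h1.2 _ (h2.2 p hp)
  have h4 : act (fun m => l1 m * l2 m) p = act l1 (act l2 p) := by
    ext j
    rw [act_coeff', act_coeff', act_coeff']; ring
  rw [h4]; exact h3

theorem isLambda_const (c : ℝ) (hc : 0 < c) : IsLambda (fun _ => c) := by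
  refine ⟨fun _ => hc.ne', ?_⟩
  intro p hp x
  have h4 : act (fun _ => c) p = C c * p := by
    ext j
    rw [act_coeff', coeff_C_mul]
  rw [h4, eval_mul, eval_C]
  exact mul_nonneg hc.le (hp x)

theorem isLambda_linear (a : ℝ) (ha : 0 < a) : IsLambda (fun m => 1 / ((m:ℝ) + a)) := by
  have hpos : ∀ m : ℕ, 0 < (m:ℝ) + a := fun m => by positivity
  have heq : ∀ m : ℕ, (fun x : ℝ => Real.exp (-(m:ℝ) * x) * Real.exp (-a * x))
      = fun x => Real.exp (-((m:ℝ) + a) * x) := by
    intro m; funext x; rw [← Real.exp_add]; congr 1; ring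
  apply isLambda_of_kernel _ _ (fun y => Real.exp (-a * y))
  · intro x _; positivity
  · intro m
    have := integrableOn_exp_mul_Ioi (a := -((m:ℝ) + a)) (by linarith [hpos m]) 0
    rw [← heq m] at this
    exact this
  · intro m
    show ∫ x in Ioi (0:ℝ), Real.exp (-(m:ℝ) * x) * Real.exp (-a * x) = 1 / ((m:ℝ) + a)
    rw [heq m, integral_exp_mul_Ioi (by linarith [hpos m]) 0]
    have h5 := (hpos m).ne'
    rw [mul_zero, Real.exp_zero, neg_div_neg_eq]
  · intro m
    exact (one_div_pos.2 (hpos m)).ne'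

/-! ### part J8 -/

theorem cubic_kernel_aux (q w : ℝ) (hq : 0 < q) :
    IntegrableOn (fun y : ℝ => Real.exp (-q * y) * Real.cos (w * y)) (Ioi 0) ∧
    IntegrableOn (fun y : ℝ => Real.exp (-q * y) * Real.sin (w * y)) (Ioi 0) ∧
    ∫ y in Ioi (0:ℝ), Real.exp (-q * y) * Real.cos (w * y) = q / (q ^ 2 + w ^ 2) ∧
    ∫ y in Ioi (0:ℝ), Real.exp (-q * y) * Real.sin (w * y) = w / (q ^ 2 + w ^ 2) := by
  set a : ℂ := ⟨-q, w⟩ with ha
  have hre : a.re < 0 := by simp [ha, hq]
  have hint : IntegrableOn (fun x : ℝ => Complex.exp (a * x)) (Ioi 0) :=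
    integrableOn_exp_mul_complex_Ioi hre 0
  have hval := integral_exp_mul_complex_Ioi hre 0
  have hax : ∀ x : ℝ, (a * (x:ℂ)) = ⟨-q * x, w * x⟩ := by
    intro x
    apply Complex.ext
    · simp [ha]
    · simp [ha]
  have hR : ∀ x : ℝ, (Complex.exp (a * x)).re = Real.exp (-q * x) * Real.cos (w * x) := by
    intro x
    rw [hax, Complex.exp_re]
  have hI : ∀ x : ℝ, (Complex.exp (a * x)).im = Real.exp (-q * x) * Real.sin (w * x) := by
    intro x
    rw [hax, Complex.exp_im]
  have hv : ∫ x in Ioi (0:ℝ), Complex.exp (a * x) = ⟨q / (q ^ 2 + w ^ 2), w / (q ^ 2 + w ^ 2)⟩ := by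
    rw [hval]
    have hpos : 0 < q ^ 2 + w ^ 2 := by positivity
    have ha0 : a ≠ 0 := by
      intro h
      rw [h] at hre
      simp at hre
    simp only [Complex.ofReal_zero, mul_zero, Complex.exp_zero]
    rw [div_eq_iff ha0]
    apply Complex.ext
    · simp only [ha, Complex.mul_re, Complex.neg_re, Complex.one_re]
      field_simp
      ring
    · simp only [ha, Complex.mul_im, Complex.neg_im, Complex.one_im]
      field_simp
      ring
  refine ⟨?_, ?_, ?_, ?_⟩
  · have h := hint.re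
    refine h.congr (Filter.Eventually.of_forall fun x => ?_)
    exact hR x
  · have h := hint.im
    refine h.congr (Filter.Eventually.of_forall fun x => ?_)
    exact hI x
  · have h := integral_re hint
    have h2 : ∫ y in Ioi (0:ℝ), Real.exp (-q * y) * Real.cos (w * y)
        = ∫ y in Ioi (0:ℝ), RCLike.re (Complex.exp (a * y)) := by
      apply integral_congr_ae
      exact Filter.Eventually.of_forall fun x => (hR x).symm
    rw [h2, h, hv]
    rfl
  · have h := integral_im hint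
    have h2 : ∫ y in Ioi (0:ℝ), Real.exp (-q * y) * Real.sin (w * y)
        = ∫ y in Ioi (0:ℝ), RCLike.im (Complex.exp (a * y)) := by
      apply integral_congr_ae
      exact Filter.Eventually.of_forall fun x => (hI x).symm
    rw [h2, h, hv]
    rfl

theorem cubic_kernel (x0 b w : ℝ) (hx0 : x0 < 0) (hb : -b ≤ x0) (hw : 0 < w) :
    ∃ k : ℝ → ℝ, (∀ y : ℝ, 0 < y → 0 ≤ k y) ∧
      (∀ m : ℕ, IntegrableOn (fun y => Real.exp (-(m:ℝ) * y) * k y) (Ioi 0)) ∧
      ∀ m : ℕ, ∫ y in Ioi (0:ℝ), Real.exp (-(m:ℝ) * y) * k y =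
        1 / (((m:ℝ) - x0) * (((m:ℝ) + b) ^ 2 + w ^ 2)) := by
  set d := b + x0 with hd
  have hd0 : 0 ≤ d := by linarith
  have hden : 0 < w * (d ^ 2 + w ^ 2) := by positivity
  have hform : ∀ (m : ℕ) (y : ℝ), Real.exp (-(m:ℝ) * y) * (Real.exp (x0 * y) * (w - Real.exp (-d * y) *
      (d * Real.sin (w * y) + w * Real.cos (w * y))) / (w * (d ^ 2 + w ^ 2)))
      = (w / (w * (d ^ 2 + w ^ 2))) * (Real.exp (-((m:ℝ) - x0) * y) * Real.cos (0 * y))
        - ((d / (w * (d ^ 2 + w ^ 2))) * (Real.exp (-((m:ℝ) + b) * y) * Real.sin (w * y))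
        + (w / (w * (d ^ 2 + w ^ 2))) * (Real.exp (-((m:ℝ) + b) * y) * Real.cos (w * y))) := by
    intro m y
    have e1 : Real.exp (-((m:ℝ) - x0) * y) = Real.exp (-(m:ℝ) * y) * Real.exp (x0 * y) := by
      rw [← Real.exp_add]; congr 1; ring
    have e2 : Real.exp (-((m:ℝ) + b) * y) = Real.exp (-(m:ℝ) * y) * Real.exp (x0 * y) * Real.exp (-d * y) := by
      rw [← Real.exp_add, ← Real.exp_add]; congr 1; rw [hd]; ring
    rw [e1, e2, zero_mul, Real.cos_zero]
    ring
  refine ⟨fun y => Real.exp (x0 * y) * (w - Real.exp (-d * y) *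
      (d * Real.sin (w * y) + w * Real.cos (w * y))) / (w * (d ^ 2 + w ^ 2)), ?_, ?_, ?_⟩
  · intro y hy
    apply div_nonneg _ hden.le
    apply mul_nonneg (Real.exp_pos _).le
    rw [sub_nonneg]
    have h1 : Real.sin (w * y) ≤ w * y := Real.sin_le (by positivity)
    have h2 : Real.cos (w * y) ≤ 1 := Real.cos_le_one _
    have h3 : d * y + 1 ≤ Real.exp (d * y) := Real.add_one_le_exp _
    have h4 : d * Real.sin (w * y) + w * Real.cos (w * y) ≤ w * Real.exp (d * y) := by
      have a1 := mul_le_mul_of_nonneg_left h1 hd0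
      have a2 := mul_le_mul_of_nonneg_left h2 hw.le
      have a3 := mul_le_mul_of_nonneg_left h3 hw.le
      nlinarith
    calc Real.exp (-d * y) * (d * Real.sin (w * y) + w * Real.cos (w * y))
        ≤ Real.exp (-d * y) * (w * Real.exp (d * y)) := mul_le_mul_of_nonneg_left h4 (Real.exp_pos _).le
      _ = w * (Real.exp (-d * y) * Real.exp (d * y)) := by ring
      _ = w := by rw [← Real.exp_add, show -d * y + d * y = 0 by ring, Real.exp_zero, mul_one]
  · intro m
    have hp : 0 < (m:ℝ) - x0 := by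
      have : (0:ℝ) ≤ (m:ℝ) := Nat.cast_nonneg m
      linarith
    have hq : 0 < (m:ℝ) + b := by linarith
    obtain ⟨a1, a2, a3, a4⟩ := cubic_kernel_aux ((m:ℝ) - x0) 0 hp
    obtain ⟨b1, b2, b3, b4⟩ := cubic_kernel_aux ((m:ℝ) + b) w hq
    simp only [hform m]
    exact (a1.const_mul _).sub ((b2.const_mul _).add (b1.const_mul _))
  · intro m
    have hp : 0 < (m:ℝ) - x0 := by
      have : (0:ℝ) ≤ (m:ℝ) := Nat.cast_nonneg m
      linarith
    have hq : 0 < (m:ℝ) + b := by linarith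
    obtain ⟨a1, a2, a3, a4⟩ := cubic_kernel_aux ((m:ℝ) - x0) 0 hp
    obtain ⟨b1, b2, b3, b4⟩ := cubic_kernel_aux ((m:ℝ) + b) w hq
    simp only [hform m]
    have hA : IntegrableOn (fun y : ℝ => (w / (w * (d ^ 2 + w ^ 2))) * (Real.exp (-((m:ℝ) - x0) * y) * Real.cos (0 * y))) (Ioi 0) :=
      a1.const_mul _
    have hB : IntegrableOn (fun y : ℝ => (d / (w * (d ^ 2 + w ^ 2))) * (Real.exp (-((m:ℝ) + b) * y) * Real.sin (w * y))) (Ioi 0) :=
      b2.const_mul _
    have hC : IntegrableOn (fun y : ℝ => (w / (w * (d ^ 2 + w ^ 2))) * (Real.exp (-((m:ℝ) + b) * y) * Real.cos (w * y))) (Ioi 0) :=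
      b1.const_mul _
    have hBC : IntegrableOn (fun y : ℝ => (d / (w * (d ^ 2 + w ^ 2))) * (Real.exp (-((m:ℝ) + b) * y) * Real.sin (w * y))
        + (w / (w * (d ^ 2 + w ^ 2))) * (Real.exp (-((m:ℝ) + b) * y) * Real.cos (w * y))) (Ioi 0) :=
      hB.add hC
    rw [integral_sub hA hBC, integral_add hB hC, integral_const_mul, integral_const_mul,
      integral_const_mul, a3, b3, b4]
    have hq2 : 0 < ((m:ℝ) + b) ^ 2 + w ^ 2 := by positivity
    have hd2 : 0 < d ^ 2 + w ^ 2 := by positivity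
    have hbd : b = d - x0 := by rw [hd]; ring
    have hp' : (m:ℝ) - x0 ≠ 0 := hp.ne'
    rw [hbd] at hq2 ⊢
    have hq3 : ((m:ℝ) + (d - x0)) ^ 2 + w ^ 2 ≠ 0 := hq2.ne'
    have e0 : ((m:ℝ) - x0) ^ 2 + 0 ^ 2 = ((m:ℝ) - x0) ^ 2 := by ring
    rw [e0]
    field_simp
    ring

/-! ### part J10 -/

theorem isLambda_split_aux
    (mul : ∀ l1 l2 : ℕ → ℝ, IsLambda l1 → IsLambda l2 → IsLambda (fun m => l1 m * l2 m))
    (const : ∀ c : ℝ, 0 < c → IsLambda (fun _ => c))
    (lin : ∀ a : ℝ, 0 < a → IsLambda (fun m => 1 / ((m:ℝ) + a)))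
    (c : ℝ) (hc : 0 < c) (S : Multiset ℝ) (hS : ∀ a ∈ S, a < 0) :
    IsLambda (fun m : ℕ => 1 / (c * (S.map (fun a => (m:ℝ) - a)).prod)) := by
  induction S using Multiset.induction_on with
  | empty =>
    have := const (1 / c) (by positivity)
    simpa using this
  | cons a S ih =>
    have h1 := ih (fun b hb => hS b (Multiset.mem_cons_of_mem hb))
    have h2 := lin (-a) (by have := hS a (Multiset.mem_cons_self a S); linarith)
    have h3 := mul _ _ h2 h1
    have e : (fun m : ℕ => 1 / (c * ((a ::ₘ S).map (fun a => (m:ℝ) - a)).prod)) =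
        (fun m : ℕ => 1 / ((m:ℝ) + -a) * (1 / (c * (S.map (fun a => (m:ℝ) - a)).prod))) := by
      funext m
      rw [Multiset.map_cons, Multiset.prod_cons, ← sub_eq_add_neg]
      rw [one_div_mul_one_div]
      congr 1
      ring
    rw [e]
    exact h3

theorem isLambda_split
    (mul : ∀ l1 l2 : ℕ → ℝ, IsLambda l1 → IsLambda l2 → IsLambda (fun m => l1 m * l2 m))
    (const : ∀ c : ℝ, 0 < c → IsLambda (fun _ => c))
    (lin : ∀ a : ℝ, 0 < a → IsLambda (fun m => 1 / ((m:ℝ) + a)))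
    (P : ℝ[X]) (hpos : ∀ m : ℕ, 0 < P.eval (m:ℝ)) (c : ℝ) (S : Multiset ℝ) (hc : c ≠ 0)
    (hS : ∀ a ∈ S, a < 0) (hP : ∀ x : ℝ, P.eval x = c * (S.map (fun a => x - a)).prod) :
    IsLambda (fun m : ℕ => 1 / P.eval (m:ℝ)) := by
  have hprod : 0 < (S.map (fun a => (0:ℝ) - a)).prod := by
    apply Multiset.prod_pos
    intro b hb
    rw [Multiset.mem_map] at hb
    obtain ⟨a, ha, rfl⟩ := hb
    have := hS a ha
    linarith
  have h0 := hpos 0
  rw [Nat.cast_zero, hP 0] at h0
  have hc' : 0 < c := by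
    by_contra hcon
    push Not at hcon
    have := mul_nonpos_of_nonpos_of_nonneg hcon hprod.le
    linarith
  have h := isLambda_split_aux mul const lin c hc' S hS
  have e : (fun m : ℕ => 1 / P.eval (m:ℝ)) =
      (fun m : ℕ => 1 / (c * (S.map (fun a => (m:ℝ) - a)).prod)) := by
    funext m
    rw [hP]
  rw [e]
  exact h

theorem split_of_real_zeros (P : ℝ[X]) (h0 : P ≠ 0) (hz : ∀ z : ℂ, aeval z P = 0 → z.im = 0) :
    ∃ (c : ℝ) (S : Multiset ℝ), c ≠ 0 ∧ (∀ a ∈ S, P.eval a = 0) ∧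
      ∀ x : ℝ, P.eval x = c * (S.map (fun a => x - a)).prod := by
  generalize hn : P.natDegree = n
  induction n generalizing P with
  | zero =>
    rw [Polynomial.natDegree_eq_zero] at hn
    obtain ⟨c, rfl⟩ := hn
    refine ⟨c, 0, ?_, ?_, ?_⟩
    · rintro rfl
      exact h0 (by simp)
    · intro a ha; simp at ha
    · intro x; simp
  | succ n ih =>
    have hdeg : P.degree ≠ 0 := by
      intro h
      have h1 : P.natDegree = 0 := Polynomial.natDegree_eq_of_degree_eq_some h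
      omega
    obtain ⟨z, hz0⟩ := IsAlgClosed.exists_aeval_eq_zero ℂ P hdeg
    have him := hz z hz0
    have hzre : z = ((z.re : ℝ) : ℂ) := by
      apply Complex.ext <;> simp [him]
    have hroot : P.IsRoot z.re := by
      rw [Polynomial.IsRoot.def]
      have h1 : aeval ((z.re : ℝ) : ℂ) P = 0 := by rw [← hzre]; exact hz0
      have h2 : aeval (algebraMap ℝ ℂ z.re) P = algebraMap ℝ ℂ (P.eval z.re) := by
        rw [Polynomial.aeval_algebraMap_apply]
        simp
      have h3 : algebraMap ℝ ℂ (P.eval z.re) = 0 := by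
        rw [← h2]; exact h1
      have := (map_eq_zero (algebraMap ℝ ℂ)).1 h3
      exact this
    obtain ⟨Q, hQ⟩ := Polynomial.dvd_iff_isRoot.2 hroot
    have hQ0 : Q ≠ 0 := by
      rintro rfl
      rw [mul_zero] at hQ
      exact h0 hQ
    have hQdeg : Q.natDegree = n := by
      have h1 : P.natDegree = (X - C z.re).natDegree + Q.natDegree := by
        rw [hQ, Polynomial.natDegree_mul (Polynomial.X_sub_C_ne_zero _) hQ0]
      rw [Polynomial.natDegree_X_sub_C, hn] at h1
      omega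
    obtain ⟨c, S, hc, hS, hx⟩ := ih Q hQ0 (by
      intro w hw
      apply hz
      rw [hQ, map_mul, hw, mul_zero]) hQdeg
    refine ⟨c, z.re ::ₘ S, hc, ?_, ?_⟩
    · intro a ha
      rw [Multiset.mem_cons] at ha
      rcases ha with rfl | ha
      · exact hroot
      · rw [hQ, Polynomial.eval_mul, hS a ha, mul_zero]
    · intro x
      rw [hQ, Polynomial.eval_mul, hx x, Multiset.map_cons, Multiset.prod_cons]
      simp only [Polynomial.eval_sub, Polynomial.eval_X, Polynomial.eval_C]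
      ring

/-! ### part J11 -/

theorem integrableOn_of_bound (k : ℝ → ℝ) (hk : Continuous k) (σ C : ℝ) (n : ℕ) (hσ : σ < 0)
    (hb : ∀ x : ℝ, 0 ≤ x → |k x| ≤ C * (1 + x) ^ n * Real.exp (σ * x)) :
    IntegrableOn k (Ioi 0) := by
  have hb0 : 0 < -σ / 2 := by linarith
  apply integrable_of_isBigO_exp_neg hb0 hk.continuousOn
  have h1 : (fun x : ℝ => (1 + x) ^ n) =O[atTop] fun x => Real.exp ((-σ / 2) * (1 + x)) := by
    have := (isLittleO_pow_exp_pos_mul_atTop n hb0).isBigO
    exact this.comp_tendsto (tendsto_atTop_add_const_left atTop 1 tendsto_id)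
  have h2 : k =O[atTop] fun x : ℝ => (1 + x) ^ n * Real.exp (σ * x) := by
    apply Asymptotics.IsBigO.of_bound C
    filter_upwards [eventually_ge_atTop 0] with x hx
    rw [Real.norm_eq_abs, Real.norm_eq_abs, abs_of_nonneg (by positivity : 0 ≤ (1 + x) ^ n * Real.exp (σ * x)),
      ← mul_assoc]
    exact hb x hx
  have h3 : (fun x : ℝ => (1 + x) ^ n * Real.exp (σ * x)) =O[atTop]
      fun x => Real.exp ((-σ / 2) * (1 + x)) * Real.exp (σ * x) :=
    h1.mul (Asymptotics.isBigO_refl _ _)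
  have h4 : (fun x : ℝ => Real.exp ((-σ / 2) * (1 + x)) * Real.exp (σ * x)) =
      fun x => Real.exp (-σ / 2) * Real.exp (-(-σ / 2) * x) := by
    funext x
    rw [← Real.exp_add, ← Real.exp_add]
    congr 1
    ring
  rw [h4] at h3
  exact (h2.trans h3).trans (Asymptotics.isBigO_const_mul_self _ _ _)

theorem integrableOn_exp_mul (k : ℝ → ℝ) (hk : Continuous k) (hint : IntegrableOn k (Ioi 0)) (m : ℕ) :
    IntegrableOn (fun x => Real.exp (-(m:ℝ) * x) * k x) (Ioi 0) := by
  refine Integrable.mono hint ?_ ?_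
  · apply Continuous.aestronglyMeasurable
    fun_prop
  · filter_upwards [ae_restrict_mem measurableSet_Ioi] with x hx
    have hx0 : (0 : ℝ) < x := hx
    rw [norm_mul, Real.norm_eq_abs (Real.exp _), abs_of_pos (Real.exp_pos _)]
    have : Real.exp (-(m : ℝ) * x) ≤ 1 := by
      rw [Real.exp_le_one_iff]
      have : (0 : ℝ) ≤ m * x := by positivity
      linarith
    exact mul_le_of_le_one_left (norm_nonneg _) this

/-! ### part M1 -/


theorem T_hyp_sum (q f : ℝ[X]) :
    T q f = q.sum (fun j c => C c * X ^ j * (derivative^[j] f)) := by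
  unfold T
  rw [Polynomial.sum_over_range]
  intro n
  rw [C_0, zero_mul, zero_mul]

theorem T_hyp_add_left (q₁ q₂ f : ℝ[X]) : T (q₁ + q₂) f = T q₁ f + T q₂ f := by
  rw [T_hyp_sum, T_hyp_sum, T_hyp_sum]
  apply Polynomial.sum_add_index
  · intro i
    rw [C_0, zero_mul, zero_mul]
  · intro i a b
    rw [C_add]; ring

theorem T_hyp_monomial (n : ℕ) (c : ℝ) (f : ℝ[X]) :
    T (monomial n c) f = C c * X ^ n * (derivative^[n] f) := by
  rw [T_hyp_sum, Polynomial.sum_monomial_index]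
  rw [C_0, zero_mul, zero_mul]

theorem T_hyp_add_right (q f g : ℝ[X]) : T q (f + g) = T q f + T q g := by
  unfold T
  rw [← Finset.sum_add_distrib]
  refine Finset.sum_congr rfl fun j _ => ?_
  rw [iterate_map_add]; ring

theorem T_hyp_C_mul_right (q : ℝ[X]) (c : ℝ) (f : ℝ[X]) : T q (C c * f) = C c * T q f := by
  unfold T
  rw [Finset.mul_sum]
  refine Finset.sum_congr rfl fun j _ => ?_
  rw [Polynomial.iterate_derivative_C_mul]; ring

theorem T_hyp_zero_right (q : ℝ[X]) : T q 0 = 0 := by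
  have h := T_hyp_C_mul_right q 0 0
  rwa [C_0, zero_mul, zero_mul] at h

theorem T_hyp_zero_left (f : ℝ[X]) : T 0 f = 0 := by
  unfold T
  simp

theorem T_hyp_one_left (f : ℝ[X]) : T 1 f = f := by
  unfold T
  simp

theorem T_hyp_X_mul_left (q f : ℝ[X]) : T (X * q) f = X * T q (derivative f) := by
  induction q using Polynomial.induction_on' with
  | add p q hp hq => rw [mul_add, T_hyp_add_left, hp, hq, T_hyp_add_left, mul_add]
  | monomial n c =>
    rw [X_mul_monomial, T_hyp_monomial, T_hyp_monomial, Function.iterate_succ_apply]; ring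

theorem T_hyp_C_mul_left (q : ℝ[X]) (a : ℝ) (f : ℝ[X]) : T (C a * q) f = C a * T q f := by
  induction q using Polynomial.induction_on' with
  | add p q hp hq => rw [mul_add, T_hyp_add_left, hp, hq, T_hyp_add_left, mul_add]
  | monomial n c =>
    rw [C_mul_monomial, T_hyp_monomial, T_hyp_monomial, C_mul]; ring

theorem T_hyp_I1 (q : ℝ[X]) (a : ℝ) (f : ℝ[X]) :
    T ((X + C a) * q) f = C a * T q f + X * T q (derivative f) := by
  rw [add_mul, T_hyp_add_left, T_hyp_X_mul_left, T_hyp_C_mul_left]; ring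

theorem T_hyp_I2 (q f : ℝ[X]) :
    T q (X * f) = X * T q f + X * T (derivative q) f := by
  induction q using Polynomial.induction_on' with
  | add p q hp hq => 
    rw [T_hyp_add_left, hp, hq, T_hyp_add_left, derivative_add, T_hyp_add_left]; ring
  | monomial n c =>
    rw [derivative_monomial, T_hyp_monomial, T_hyp_monomial, T_hyp_monomial, mul_comm X f,
      Polynomial.iterate_derivative_mul_X, C_mul]
    rcases n with _ | n
    · simp
      ring
    · rw [Nat.succ_sub_one, nsmul_eq_mul, pow_succ]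
      simp only [map_natCast]
      ring

/-- additive in the left variable -/
noncomputable def ThypL (f : ℝ[X]) : ℝ[X] →+ ℝ[X] where
  toFun q := T q f
  map_zero' := T_hyp_zero_left f
  map_add' q₁ q₂ := T_hyp_add_left q₁ q₂ f

/-- additive in the right variable -/
noncomputable def ThypR (q : ℝ[X]) : ℝ[X] →+ ℝ[X] where
  toFun f := T q f
  map_zero' := T_hyp_zero_right q
  map_add' f g := T_hyp_add_right q f g

/-- the product `∏ (X + a)` -/
noncomputable def hypQ (S : Multiset ℝ) : ℝ[X] := (S.map fun a => X + C a).prod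

/-- the product `∏ (X - r)` -/
noncomputable def hypH (R : Multiset ℝ) : ℝ[X] := (R.map fun r => X - C r).prod

theorem hypQ_cons (a : ℝ) (S : Multiset ℝ) : hypQ (a ::ₘ S) = (X + C a) * hypQ S := by
  unfold hypQ
  rw [Multiset.map_cons, Multiset.prod_cons]

theorem hypH_cons (r : ℝ) (R : Multiset ℝ) : hypH (r ::ₘ R) = (X - C r) * hypH R := by
  unfold hypH
  rw [Multiset.map_cons, Multiset.prod_cons]

theorem hypQ_deriv (S : Multiset ℝ) :
    derivative (hypQ S) = (S.map fun a => hypQ (S.erase a)).sum := by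
  unfold hypQ
  rw [Polynomial.derivative_prod]
  congr 1
  refine Multiset.map_congr rfl fun a _ => ?_
  rw [derivative_add, derivative_X, derivative_C, add_zero, mul_one]

theorem hypH_deriv (R : Multiset ℝ) :
    derivative (hypH R) = (R.map fun r => hypH (R.erase r)).sum := by
  unfold hypH
  rw [Polynomial.derivative_prod]
  congr 1
  refine Multiset.map_congr rfl fun a _ => ?_
  rw [derivative_sub, derivative_X, derivative_C, sub_zero, mul_one]

/-- the value of `T_q h` at `z` -/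
noncomputable def hypF (z : ℂ) (S R : Multiset ℝ) : ℂ := aeval z (T (hypQ S) (hypH R))

theorem hypF_cons_left (z : ℂ) (a : ℝ) (S R : Multiset ℝ) :
    hypF z (a ::ₘ S) R = a * hypF z S R + z * (R.map fun r => hypF z S (R.erase r)).sum := by
  unfold hypF
  rw [hypQ_cons, T_hyp_I1, map_add, map_mul, map_mul, aeval_C, aeval_X, hypH_deriv]
  have h1 : T (hypQ S) ((R.map fun r => hypH (R.erase r)).sum) =
      (R.map fun r => T (hypQ S) (hypH (R.erase r))).sum := by
    have h2 := map_multiset_sum (ThypR (hypQ S)) (R.map fun r => hypH (R.erase r))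
    rw [Multiset.map_map] at h2
    exact h2
  rw [h1, map_multiset_sum, Multiset.map_map]
  rfl

theorem hypF_cons_right (z : ℂ) (r : ℝ) (S R : Multiset ℝ) :
    hypF z S (r ::ₘ R) = (z - r) * hypF z S R + z * (S.map fun a => hypF z (S.erase a) R).sum := by
  unfold hypF
  have h0 : T (hypQ S) (hypH (r ::ₘ R)) = X * T (hypQ S) (hypH R) +
      X * T (derivative (hypQ S)) (hypH R) - C r * T (hypQ S) (hypH R) := by
    have h3 : hypH (r ::ₘ R) = X * hypH R + C (-r) * hypH R := by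
      rw [hypH_cons, C_neg]; ring
    rw [h3, T_hyp_add_right, T_hyp_I2, T_hyp_C_mul_right, C_neg]; ring
  rw [h0, map_sub, map_add, map_mul, map_mul, map_mul, aeval_C, aeval_X, hypQ_deriv]
  have h1 : T ((S.map fun a => hypQ (S.erase a)).sum) (hypH R) =
      (S.map fun a => T (hypQ (S.erase a)) (hypH R)).sum := by
    have h2 := map_multiset_sum (ThypL (hypH R)) (S.map fun a => hypQ (S.erase a))
    rw [Multiset.map_map] at h2
    exact h2
  rw [h1, map_multiset_sum, Multiset.map_map]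
  have h4 : (algebraMap ℝ ℂ) r = (r : ℂ) := rfl
  rw [h4]
  simp only [Function.comp_def]
  ring

theorem hypF_zero_left (z : ℂ) (R : Multiset ℝ) :
    hypF z 0 R = (R.map fun r : ℝ => z - (r : ℂ)).prod := by
  unfold hypF hypQ hypH
  rw [Multiset.map_zero, Multiset.prod_zero, T_hyp_one_left, map_multiset_prod, Multiset.map_map]
  congr 1
  refine Multiset.map_congr rfl fun r _ => ?_
  simp

theorem hyp_sum_div_im_nonpos (M : Multiset ℝ) (g : ℝ → ℂ) (w : ℂ)
    (h : ∀ r ∈ M, (g r / w).im ≤ 0) : ((M.map g).sum / w).im ≤ 0 := by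
  induction M using Multiset.induction_on with
  | empty => simp
  | cons a M ih =>
    rw [Multiset.map_cons, Multiset.sum_cons, add_div, Complex.add_im]
    have h1 := h a (Multiset.mem_cons_self a M)
    have h2 := ih fun r hr => h r (Multiset.mem_cons_of_mem hr)
    linarith

theorem hyp_sum_div_im_nonneg (M : Multiset ℝ) (g : ℝ → ℂ) (w : ℂ)
    (h : ∀ r ∈ M, 0 ≤ (g r / w).im) : 0 ≤ ((M.map g).sum / w).im := by
  induction M using Multiset.induction_on with
  | empty => simp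
  | cons a M ih =>
    rw [Multiset.map_cons, Multiset.sum_cons, add_div, Complex.add_im]
    have h1 := h a (Multiset.mem_cons_self a M)
    have h2 := ih fun r hr => h r (Multiset.mem_cons_of_mem hr)
    linarith

theorem hyp_inv_im_nonneg (w : ℂ) (h : w.im < 0) : 0 < (w⁻¹).im := by
  rw [Complex.inv_im]
  have hw : w ≠ 0 := by
    rintro rfl
    simp at h
  have : 0 < Complex.normSq w := Complex.normSq_pos.2 hw
  exact div_pos (by linarith) this

theorem hyp_inv_im_neg (w : ℂ) (h : 0 < w.im) : (w⁻¹).im < 0 := by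
  rw [Complex.inv_im]
  have hw : w ≠ 0 := by
    rintro rfl
    simp at h
  have : 0 < Complex.normSq w := Complex.normSq_pos.2 hw
  exact div_neg_of_neg_of_pos (by linarith) this

theorem hyp_claim (z : ℂ) (hz : 0 < z.im) : ∀ (n : ℕ) (S : Multiset ℝ), Multiset.card S = n →
    (∀ a ∈ S, 0 < a) → (∀ R, hypF z S R ≠ 0) ∧
      (∀ R r, (hypF z S R / hypF z S (r ::ₘ R)).im ≤ 0) := by
  have hz0 : z ≠ 0 := by
    rintro rfl
    simp at hz
  -- the key quantity
  have key : ∀ (a : ℝ) (S' R : Multiset ℝ), 0 < a → (∀ R, hypF z S' R ≠ 0) →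
      (∀ R r, (hypF z S' R / hypF z S' (r ::ₘ R)).im ≤ 0) →
      ∃ w : ℂ, w.im < 0 ∧ hypF z (a ::ₘ S') R = hypF z S' R * (z * w) := by
    intro a S' R ha h1 h2
    refine ⟨a / z + (R.map fun r => hypF z S' (R.erase r)).sum / hypF z S' R, ?_, ?_⟩
    · rw [Complex.add_im]
      have h3 : ((R.map fun r => hypF z S' (R.erase r)).sum / hypF z S' R).im ≤ 0 := by
        apply hyp_sum_div_im_nonpos
        intro r hr
        have h4 := h2 (R.erase r) r
        rwa [Multiset.cons_erase hr] at h4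
      have h5 : ((a : ℂ) / z).im < 0 := by
        rw [div_eq_mul_inv, Complex.im_ofReal_mul]
        exact mul_neg_of_pos_of_neg ha (hyp_inv_im_neg z hz)
      linarith
    · rw [hypF_cons_left]
      have h6 := h1 R
      field_simp
  intro n
  induction n with
  | zero =>
    intro S hS _
    rw [Multiset.card_eq_zero] at hS
    subst hS
    have hne : ∀ R, hypF z 0 R ≠ 0 := by
      intro R
      rw [hypF_zero_left]
      apply Multiset.prod_ne_zero
      intro h0
      obtain ⟨r, _, hr⟩ := Multiset.mem_map.1 h0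
      have : (z - (r : ℂ)).im = 0 := by rw [hr]; rfl
      rw [Complex.sub_im, Complex.ofReal_im, sub_zero] at this
      linarith
    refine ⟨hne, fun R r => ?_⟩
    have h1 : hypF z 0 (r ::ₘ R) = (z - r) * hypF z 0 R := by
      rw [hypF_zero_left, hypF_zero_left, Multiset.map_cons, Multiset.prod_cons]
    have h2 := hne R
    have h3 : hypF z 0 R / hypF z 0 (r ::ₘ R) = (z - r)⁻¹ := by
      rw [h1, mul_comm, div_mul_cancel_left₀ h2]
    rw [h3]
    apply le_of_lt
    apply hyp_inv_im_neg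
    rw [Complex.sub_im, Complex.ofReal_im, sub_zero]
    exact hz
  | succ n ih =>
    intro S hS hpos
    have hne : ∀ R, hypF z S R ≠ 0 := by
      intro R
      have hS0 : S ≠ 0 := by
        rintro rfl
        simp at hS
      obtain ⟨a, ha⟩ := Multiset.exists_mem_of_ne_zero hS0
      have hcard : Multiset.card (S.erase a) = n := by
        rw [Multiset.card_erase_of_mem ha, hS]; rfl
      obtain ⟨h1, h2⟩ := ih (S.erase a) hcard fun b hb => hpos b (Multiset.mem_of_mem_erase hb)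
      obtain ⟨w, hw, hw'⟩ := key a (S.erase a) R (hpos a ha) h1 h2
      rw [Multiset.cons_erase ha] at hw'
      rw [hw']
      have hw0 : w ≠ 0 := by
        rintro rfl
        simp at hw
      exact mul_ne_zero (h1 R) (mul_ne_zero hz0 hw0)
    refine ⟨hne, fun R r => ?_⟩
    have h1 : hypF z S (r ::ₘ R) / hypF z S R = (z - r) +
        (S.map fun a => z * hypF z (S.erase a) R).sum / hypF z S R := by
      rw [hypF_cons_right, Multiset.sum_map_mul_left]
      have h2 := hne R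
      field_simp
    have h3 : 0 ≤ ((S.map fun a => z * hypF z (S.erase a) R).sum / hypF z S R).im := by
      apply hyp_sum_div_im_nonneg
      intro a ha
      have hcard : Multiset.card (S.erase a) = n := by
        rw [Multiset.card_erase_of_mem ha, hS]; rfl
      obtain ⟨h1, h2⟩ := ih (S.erase a) hcard fun b hb => hpos b (Multiset.mem_of_mem_erase hb)
      obtain ⟨w, hw, hw'⟩ := key a (S.erase a) R (hpos a ha) h1 h2
      rw [Multiset.cons_erase ha] at hw'
      have hw0 : w ≠ 0 := by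
        rintro rfl
        simp at hw
      have h4 : z * hypF z (S.erase a) R / hypF z S R = w⁻¹ := by
        rw [hw']
        have := h1 R
        field_simp
      rw [h4]
      exact (hyp_inv_im_nonneg w hw).le
    have h5 : 0 < (hypF z S (r ::ₘ R) / hypF z S R).im := by
      rw [h1, Complex.add_im, Complex.sub_im, Complex.ofReal_im, sub_zero]
      linarith
    have h6 : hypF z S R / hypF z S (r ::ₘ R) = (hypF z S (r ::ₘ R) / hypF z S R)⁻¹ := by
      rw [inv_div]
    rw [h6]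
    exact (hyp_inv_im_neg _ h5).le

theorem hyp_factor : ∀ (n : ℕ) (f : ℝ[X]), f.natDegree = n → f ≠ 0 →
    (∀ z : ℂ, aeval z f = 0 → z.im = 0) →
    ∃ (c : ℝ) (R : Multiset ℝ), c ≠ 0 ∧ f = C c * hypH R := by
  intro n
  induction n with
  | zero =>
    intro f hf hf0 _
    rw [Polynomial.natDegree_eq_zero] at hf
    obtain ⟨c, hc⟩ := hf
    refine ⟨c, 0, ?_, ?_⟩
    · rintro rfl
      apply hf0
      rw [← hc, C_0]
    · rw [← hc]
      unfold hypH
      rw [Multiset.map_zero, Multiset.prod_zero, mul_one]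
  | succ n ih =>
    intro f hf hf0 hz
    have hdeg : (f.map (algebraMap ℝ ℂ)).degree ≠ 0 := by
      rw [Polynomial.degree_map]
      intro h0
      rw [Polynomial.degree_eq_natDegree hf0, hf] at h0
      norm_cast at h0
    obtain ⟨z, hzr⟩ := IsAlgClosed.exists_root (f.map (algebraMap ℝ ℂ)) hdeg
    have hzr' : aeval z f = 0 := by
      rw [IsRoot.def, eval_map_algebraMap] at hzr
      exact hzr
    have him := hz z hzr'
    have hzre : z = (z.re : ℂ) := by
      apply Complex.ext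
      · simp
      · simp [him]
    have hroot : f.IsRoot z.re := by
      rw [hzre] at hzr'
      have h1 : aeval ((algebraMap ℝ ℂ) z.re) f = 0 := hzr'
      rw [Polynomial.aeval_algebraMap_apply] at h1
      have h2 : (algebraMap ℝ ℂ) ((aeval z.re) f) = ((aeval z.re f : ℝ) : ℂ) := rfl
      rw [h2] at h1
      have h3 : aeval z.re f = 0 := by exact_mod_cast h1
      exact h3
    obtain ⟨g, hg⟩ := Polynomial.dvd_iff_isRoot.2 hroot
    have hg0 : g ≠ 0 := by
      rintro rfl
      apply hf0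
      rw [hg, mul_zero]
    have hgd : g.natDegree = n := by
      have h4 : f.natDegree = 1 + g.natDegree := by
        rw [hg, Polynomial.natDegree_mul (X_sub_C_ne_zero _) hg0, natDegree_X_sub_C]
      omega
    obtain ⟨c, R, hc, hR⟩ := ih g hgd hg0 fun w hw => by
      apply hz
      rw [hg, map_mul, hw, mul_zero]
    refine ⟨c, z.re ::ₘ R, hc, ?_⟩
    rw [hypH_cons, hg, hR]
    ring



theorem T_hyperbolic (S : Multiset ℝ) (hS : ∀ a ∈ S, 0 < a) (f : ℝ[X]) (hf : Hyperbolic f) :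
    Hyperbolic (T ((S.map fun a => X + C a).prod) f) := by
  rcases hf with hf | hf
  · left
    rw [hf, T_hyp_zero_right]
  · by_cases hf0 : f = 0
    · left
      rw [hf0, T_hyp_zero_right]
    right
    obtain ⟨c, R, hc, hR⟩ := hyp_factor f.natDegree f rfl hf0 hf
    have hT : T ((S.map fun a => X + C a).prod) f = C c * T (hypQ S) (hypH R) := by
      rw [hR, T_hyp_C_mul_right]
      rfl
    have hup : ∀ z : ℂ, 0 < z.im → aeval z (T ((S.map fun a => X + C a).prod) f) ≠ 0 := by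
      intro z hz
      rw [hT, map_mul, aeval_C]
      refine mul_ne_zero ?_ ((hyp_claim z hz _ S rfl hS).1 R)
      have h4 : (algebraMap ℝ ℂ) c = (c : ℂ) := rfl
      rw [h4]
      exact_mod_cast hc
    intro z hz
    rcases lt_trichotomy z.im 0 with h | h | h
    · exfalso
      have h1 : aeval ((starRingEnd ℂ) z) (T ((S.map fun a => X + C a).prod) f) = 0 := by
        rw [Polynomial.aeval_conj, hz, map_zero]
      exact hup _ (by rw [Complex.conj_im]; linarith) h1
    · exact h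
    · exact absurd hz (hup z h)

/-! ### part M2 -/


theorem coeff_act (l : ℕ → ℝ) (p : ℝ[X]) (n : ℕ) : (act l p).coeff n = l n * p.coeff n := by
  unfold act
  rw [finsetSum_coeff]
  simp only [coeff_C_mul_X_pow]
  rw [Finset.sum_ite_eq]
  split_ifs with h
  · rfl
  · have : p.coeff n = 0 := by
      apply coeff_eq_zero_of_natDegree_lt
      simp only [Finset.mem_range, not_lt] at h
      omega
    rw [this, mul_zero]

theorem act_eq_T (q f : ℝ[X]) :
    act (fun m => ∑ j ∈ Finset.range (q.natDegree + 1), q.coeff j * (m.descFactorial j : ℝ)) f = T q f := by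
  ext n
  rw [coeff_act]
  unfold T
  rw [finsetSum_coeff, Finset.sum_mul]
  refine Finset.sum_congr rfl fun j _ => ?_
  rw [mul_assoc (C (q.coeff j)), coeff_C_mul, coeff_X_pow_mul', mul_assoc (q.coeff j)]
  congr 1
  split_ifs with h
  · rw [coeff_iterate_derivative, Nat.sub_add_cancel h, nsmul_eq_mul]
  · rw [Nat.descFactorial_of_lt (by omega)]
    simp

theorem mult_of (hT : ∀ (S : Multiset ℝ), (∀ a ∈ S, 0 < a) → ∀ f : ℝ[X], Hyperbolic f →
      Hyperbolic (T ((S.map fun a => X + C a).prod) f)) (S : Multiset ℝ) (hS : ∀ a ∈ S, 0 < a)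
      (q : ℝ[X]) (hq : (S.map fun a => X + C a).prod = q) (g : ℕ → ℝ)
      (hg : ∀ m, g m = ∑ j ∈ Finset.range (q.natDegree + 1), q.coeff j * (m.descFactorial j : ℝ)) :
      IsMultiplier g := by
  intro p hp
  have h1 := hT S hS p hp
  rw [hq, ← act_eq_T] at h1
  have : g = (fun m => ∑ j ∈ Finset.range (q.natDegree + 1), q.coeff j * (m.descFactorial j : ℝ)) :=
    funext hg
  rw [this]
  exact h1

theorem mult_examples (hT : ∀ (S : Multiset ℝ), (∀ a ∈ S, 0 < a) → ∀ f : ℝ[X], Hyperbolic f →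
      Hyperbolic (T ((S.map fun a => X + C a).prod) f)) :
    IsMultiplier (fun m : ℕ => (m:ℝ) ^ 2 + m + 1) ∧
    IsMultiplier (fun m : ℕ => (m:ℝ) ^ 3 + 6 * (m:ℝ) ^ 2 + 17 * m + 16) := by
  constructor
  · have hd : (X ^ 2 + C 2 * X + C 1 : ℝ[X]).natDegree = 2 := by compute_degree!
    refine mult_of hT {1, 1} (by simp) (X ^ 2 + C 2 * X + C 1) ?_ _ ?_
    · simp only [Multiset.insert_eq_cons, Multiset.map_cons, Multiset.map_singleton,
        Multiset.prod_cons, Multiset.prod_singleton]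
      have : (C 2 : ℝ[X]) = 2 := rfl
      rw [this, C_1]; ring
    · intro m
      rw [hd]
      simp only [Finset.sum_range_succ, Finset.sum_range_zero]
      have h0 : (X ^ 2 + C 2 * X + C 1 : ℝ[X]).coeff 0 = 1 := by simp
      have h1 : (X ^ 2 + C 2 * X + C 1 : ℝ[X]).coeff 1 = 2 := by
        simp [coeff_X, coeff_one, coeff_X_pow]
      have h2 : (X ^ 2 + C 2 * X + C 1 : ℝ[X]).coeff 2 = 1 := by
        simp [coeff_X, coeff_one, coeff_X_pow]
      rw [h0, h1, h2]
      rcases m with _ | m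
      · simp
      · simp only [Nat.descFactorial_zero, Nat.descFactorial_succ, Nat.sub_zero, Nat.add_sub_cancel]
        push_cast
        ring
  · have hd : (X ^ 3 + C 9 * X ^ 2 + C 24 * X + C 16 : ℝ[X]).natDegree = 3 := by compute_degree!
    refine mult_of hT {1, 4, 4} ?_ (X ^ 3 + C 9 * X ^ 2 + C 24 * X + C 16) ?_ _ ?_
    · intro a ha
      simp only [Multiset.insert_eq_cons, Multiset.mem_cons, Multiset.mem_singleton] at ha
      rcases ha with rfl | rfl | rfl <;> norm_num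
    · simp only [Multiset.insert_eq_cons, Multiset.map_cons, Multiset.map_singleton,
        Multiset.prod_cons, Multiset.prod_singleton]
      have h4 : (C 4 : ℝ[X]) = 4 := rfl
      have h9 : (C 9 : ℝ[X]) = 9 := rfl
      have h24 : (C 24 : ℝ[X]) = 24 := rfl
      have h16 : (C 16 : ℝ[X]) = 16 := rfl
      rw [h4, h9, h24, h16, C_1]; ring
    · intro m
      rw [hd]
      simp only [Finset.sum_range_succ, Finset.sum_range_zero]
      have h0 : (X ^ 3 + C 9 * X ^ 2 + C 24 * X + C 16 : ℝ[X]).coeff 0 = 16 := by simp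
      have h1 : (X ^ 3 + C 9 * X ^ 2 + C 24 * X + C 16 : ℝ[X]).coeff 1 = 24 := by
        simp [coeff_X, coeff_C, coeff_X_pow]
      have h2 : (X ^ 3 + C 9 * X ^ 2 + C 24 * X + C 16 : ℝ[X]).coeff 2 = 9 := by
        simp [coeff_X, coeff_C, coeff_X_pow]
      have h3 : (X ^ 3 + C 9 * X ^ 2 + C 24 * X + C 16 : ℝ[X]).coeff 3 = 1 := by
        simp [coeff_X, coeff_C, coeff_X_pow]
      rw [h0, h1, h2, h3]
      rcases m with _ | _ | m
      · simp
      · simp [Nat.descFactorial_succ]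
        norm_num
      · simp only [Nat.descFactorial_zero, Nat.descFactorial_succ, Nat.sub_zero]
        have e1 : m + 1 + 1 - 2 = m := by omega
        have e2 : m + 1 + 1 - 1 = m + 1 := by omega
        rw [e1, e2]
        push_cast
        ring

/-! ### part M3 -/

theorem cubic_example :
    NegDominantZero (X ^ 3 + C 6 * X ^ 2 + C 17 * X + C 16 : ℝ[X]) ∧
    (∃ z : ℂ, z.im ≠ 0 ∧ aeval z (X ^ 3 + C 6 * X ^ 2 + C 17 * X + C 16 : ℝ[X]) = 0) ∧
    (X ^ 3 + C 6 * X ^ 2 + C 17 * X + C 16 : ℝ[X]).natDegree = 3 := by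
  have hev : ∀ z : ℂ, aeval z (X ^ 3 + C 6 * X ^ 2 + C 17 * X + C 16 : ℝ[X]) =
      z ^ 3 + 6 * z ^ 2 + 17 * z + 16 := by
    intro z
    simp only [map_add, map_mul, map_pow, aeval_X, aeval_C, Complex.coe_algebraMap]
    norm_num
  have hevr : ∀ x : ℝ, (X ^ 3 + C 6 * X ^ 2 + C 17 * X + C 16 : ℝ[X]).eval x =
      x ^ 3 + 6 * x ^ 2 + 17 * x + 16 := by
    intro x
    simp
  obtain ⟨x0, hx0, hr⟩ : ∃ x0 ∈ Set.Icc (-2 : ℝ) (-1), x0 ^ 3 + 6 * x0 ^ 2 + 17 * x0 + 16 = 0 := by
    have hc : ContinuousOn (fun x : ℝ => x ^ 3 + 6 * x ^ 2 + 17 * x + 16) (Set.Icc (-2) (-1)) := by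
      fun_prop
    have h1 := intermediate_value_Icc (show (-2 : ℝ) ≤ -1 by norm_num) hc
    have h2 : (0 : ℝ) ∈ Set.Icc ((fun x : ℝ => x ^ 3 + 6 * x ^ 2 + 17 * x + 16) (-2))
        ((fun x : ℝ => x ^ 3 + 6 * x ^ 2 + 17 * x + 16) (-1)) := by
      constructor <;> norm_num
    obtain ⟨x0, hx0, h3⟩ := h1 h2
    exact ⟨x0, hx0, h3⟩
  obtain ⟨hl, hu⟩ := hx0
  have hfac : ∀ z : ℂ, z ^ 3 + 6 * z ^ 2 + 17 * z + 16 =
      (z - x0) * (z ^ 2 + (6 + x0) * z + (17 + x0 * (6 + x0))) := by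
    intro z
    have hrc : (x0 : ℂ) ^ 3 + 6 * (x0 : ℂ) ^ 2 + 17 * (x0 : ℂ) + 16 = 0 := by
      exact_mod_cast hr
    linear_combination hrc
  have hD : 0 < 32 + 12 * x0 + 3 * x0 ^ 2 := by nlinarith [sq_nonneg (x0 + 2)]
  refine ⟨⟨x0, by linarith, by rw [hevr]; exact hr, ?_⟩, ?_, ?_⟩
  · intro z hz
    rw [hev, hfac] at hz
    rcases mul_eq_zero.1 hz with h | h
    · have : z = (x0 : ℂ) := sub_eq_zero.1 h
      rw [this]; simp
    · have hre := congrArg Complex.re h
      have him := congrArg Complex.im h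
      simp [pow_two] at hre him
      have him' : z.im * (2 * z.re + (6 + x0)) = 0 := by linarith
      rcases mul_eq_zero.1 him' with h0 | h0
      · exfalso
        rw [h0] at hre
        nlinarith [sq_nonneg (2 * z.re + (6 + x0))]
      · linarith
  · obtain ⟨r, hr0, hrr⟩ : ∃ r : ℝ, 0 < r ∧ r * r = 32 + 12 * x0 + 3 * x0 ^ 2 :=
      ⟨Real.sqrt (32 + 12 * x0 + 3 * x0 ^ 2), Real.sqrt_pos.2 hD, Real.mul_self_sqrt hD.le⟩
    refine ⟨⟨-(6 + x0) / 2, r / 2⟩, ?_, ?_⟩
    · exact (div_pos hr0 two_pos).ne'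
    · rw [hev, hfac]
      have h0 : ((⟨-(6 + x0) / 2, r / 2⟩ : ℂ) ^ 2 +
          (6 + x0) * (⟨-(6 + x0) / 2, r / 2⟩ : ℂ) +
          (17 + x0 * (6 + x0))) = 0 := by
        apply Complex.ext
        · simp [pow_two]
          nlinarith
        · simp [pow_two]
          ring
      rw [h0, mul_zero]
  · compute_degree!

theorem quad_example :
    ¬ NegDominantZero (X ^ 2 + X + C 1 : ℝ[X]) ∧ (X ^ 2 + X + C 1 : ℝ[X]).natDegree = 2 := by
  constructor
  · rintro ⟨x0, _, h, _⟩
    simp at h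
    nlinarith [sq_nonneg (2 * x0 + 1)]
  · compute_degree!

/-! ### part M4 -/


theorem mult_two (hT : ∀ (S : Multiset ℝ), (∀ a ∈ S, 0 < a) → ∀ f : ℝ[X], Hyperbolic f →
      Hyperbolic (T ((S.map fun a => X + C a).prod) f))
    (hact : ∀ (q f : ℝ[X]),
      act (fun m => ∑ j ∈ Finset.range (q.natDegree + 1), q.coeff j * (m.descFactorial j : ℝ)) f = T q f)
    (a b : ℝ) (ha : 0 < a) (hb : 0 < b) :
    IsMultiplier (fun m : ℕ => (m:ℝ) ^ 2 + (a + b - 1) * m + a * b) := by
  intro f hf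
  have h1 := hT ({a, b} : Multiset ℝ) (by
    intro c hc
    simp only [Multiset.insert_eq_cons, Multiset.mem_cons, Multiset.mem_singleton] at hc
    rcases hc with rfl | rfl <;> assumption) f hf
  have hq : ((({a, b} : Multiset ℝ)).map fun a => X + C a).prod = (X + C a) * (X + C b) := by
    simp
  rw [hq, ← hact] at h1
  have hq2 : (X + C a) * (X + C b) = X ^ 2 + C (a + b) * X + C (a * b) := by
    rw [C_add, C_mul]; ring
  have hdeg : ((X + C a) * (X + C b) : ℝ[X]).natDegree = 2 := by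
    rw [natDegree_mul (X_add_C_ne_zero a) (X_add_C_ne_zero b), natDegree_X_add_C,
      natDegree_X_add_C]
  have h2 : (fun m : ℕ => ∑ j ∈ Finset.range (((X + C a) * (X + C b) : ℝ[X]).natDegree + 1),
      ((X + C a) * (X + C b) : ℝ[X]).coeff j * (m.descFactorial j : ℝ))
      = (fun m : ℕ => (m:ℝ) ^ 2 + (a + b - 1) * m + a * b) := by
    funext m
    rw [hdeg, hq2]
    have c0 : (X ^ 2 + C (a + b) * X + C (a * b) : ℝ[X]).coeff 0 = a * b := by
      simp
    have c1 : (X ^ 2 + C (a + b) * X + C (a * b) : ℝ[X]).coeff 1 = a + b := by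
      simp only [coeff_add, coeff_X_pow, coeff_C_mul, coeff_X, coeff_C]
      norm_num
    have c2 : (X ^ 2 + C (a + b) * X + C (a * b) : ℝ[X]).coeff 2 = 1 := by
      simp only [coeff_add, coeff_X_pow, coeff_C_mul, coeff_X, coeff_C]
      norm_num
    rw [Finset.sum_range_succ, Finset.sum_range_succ, Finset.sum_range_succ, Finset.sum_range_zero,
      c0, c1, c2, Nat.cast_descFactorial_two]
    simp only [Nat.descFactorial_zero, Nat.descFactorial_one, Nat.cast_one]
    ring
  rw [h2] at h1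
  exact h1

theorem mult_scale (g : ℕ → ℝ) (hg : IsMultiplier g) (r : ℝ) (hr : 0 < r) :
    IsMultiplier (fun m : ℕ => r ^ m * g m) := by
  intro p hp
  have h1 : act (fun m : ℕ => r ^ m * g m) p = (act g p).comp (C r * X) := by
    unfold act
    rw [← Polynomial.coe_compRingHom_apply, map_sum]
    refine Finset.sum_congr rfl fun k _ => ?_
    rw [Polynomial.coe_compRingHom_apply, mul_comp, C_comp, X_pow_comp, mul_pow, ← C_pow,
      ← mul_assoc, ← C_mul]
    congr 2
    ring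
  rw [h1]
  rcases hg p hp with h | h
  · left
    rw [h, zero_comp]
  · right
    intro z hz
    rw [aeval_comp] at hz
    have h2 := h _ hz
    have h3 : aeval z (C r * X : ℝ[X]) = (r : ℂ) * z := by
      simp
    rw [h3, Complex.mul_im, Complex.ofReal_re, Complex.ofReal_im, zero_mul, add_zero] at h2
    exact (mul_eq_zero.1 h2).resolve_left hr.ne'

/-! ### part M5 -/

theorem quad_aeval (c d : ℝ) (z : ℂ) :
    aeval z (X ^ 2 + C c * X + C d : ℝ[X]) = z ^ 2 + (c : ℂ) * z + (d : ℂ) := by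
  simp

theorem quad_eval (c d x : ℝ) :
    (X ^ 2 + C c * X + C d : ℝ[X]).eval x = x ^ 2 + c * x + d := by
  simp

theorem quad_dom (a b : ℝ) (ha : 0 < a) (hb : 0 < b) :
    NegDominantZero (X ^ 2 + C (a + b - 1) * X + C (a * b) : ℝ[X]) ↔ 1 ≤ |Real.sqrt a - Real.sqrt b| := by
  have hs : 0 < Real.sqrt a := Real.sqrt_pos.mpr ha
  have ht : 0 < Real.sqrt b := Real.sqrt_pos.mpr hb
  have hsa : Real.sqrt a ^ 2 = a := Real.sq_sqrt ha.le
  have htb : Real.sqrt b ^ 2 = b := Real.sq_sqrt hb.le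
  have hab : 0 < a * b := mul_pos ha hb
  have hst : (Real.sqrt a * Real.sqrt b) ^ 2 = a * b := by rw [mul_pow, hsa, htb]
  have hst0 : 0 < Real.sqrt a * Real.sqrt b := mul_pos hs ht
  rw [← one_le_sq_iff_one_le_abs]
  have hexp : (Real.sqrt a - Real.sqrt b) ^ 2 = a + b - 2 * (Real.sqrt a * Real.sqrt b) := by
    rw [sub_sq, hsa, htb]; ring
  rw [hexp]
  constructor
  · rintro ⟨x0, hx0, hP, hz⟩
    rw [quad_eval] at hP
    set y : ℝ := -(a + b - 1) - x0 with hy
    have hy2 : y ^ 2 + (a + b - 1) * y + a * b = 0 := by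
      rw [hy]; linear_combination hP
    have hyz := hz (y : ℂ) (by
      rw [quad_aeval]
      exact_mod_cast hy2)
    rw [Complex.ofReal_re] at hyz
    have hc : 0 < a + b - 1 := by
      have : y < 0 := lt_of_le_of_lt hyz hx0
      rw [hy] at this
      linarith
    have hD : 4 * (a * b) ≤ (a + b - 1) ^ 2 := by
      have h1 : x0 * y = a * b := by
        rw [hy]; linear_combination -hP
      have h2 : x0 + y = -(a + b - 1) := by rw [hy]; ring
      have h3 : (a + b - 1) ^ 2 = (x0 + y) ^ 2 := by rw [h2]; ring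
      rw [h3, ← h1]
      nlinarith [sq_nonneg (x0 - y)]
    have h4 : 2 * (Real.sqrt a * Real.sqrt b) ≤ a + b - 1 := by
      apply le_of_sq_le_sq _ hc.le
      rw [mul_pow, hst]
      linarith
    linarith
  · intro h
    have hc : 2 * (Real.sqrt a * Real.sqrt b) ≤ a + b - 1 := by linarith
    have hc0 : 0 < a + b - 1 := by linarith
    have hD : 0 ≤ (a + b - 1) ^ 2 - 4 * (a * b) := by
      have h1 : (2 * (Real.sqrt a * Real.sqrt b)) ^ 2 ≤ (a + b - 1) ^ 2 :=
        pow_le_pow_left₀ (by positivity) hc 2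
      rw [mul_pow, hst] at h1
      linarith
    set r : ℝ := Real.sqrt ((a + b - 1) ^ 2 - 4 * (a * b)) with hr
    have hr2 : r ^ 2 = (a + b - 1) ^ 2 - 4 * (a * b) := Real.sq_sqrt hD
    have hr0 : 0 ≤ r := Real.sqrt_nonneg _
    have hrc : r < a + b - 1 := by
      by_contra hcon
      push Not at hcon
      nlinarith
    refine ⟨(-(a + b - 1) + r) / 2, by linarith, ?_, ?_⟩
    · rw [quad_eval]
      linear_combination (1 / 4 : ℝ) * hr2
    · intro z hz
      rw [quad_aeval] at hz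
      have hr2c : (r : ℂ) ^ 2 = ((a : ℂ) + b - 1) ^ 2 - 4 * ((a : ℂ) * b) := by exact_mod_cast hr2
      have h1 : (z - ((-(a + b - 1) + r) / 2 : ℝ)) * (z - ((-(a + b - 1) - r) / 2 : ℝ)) = 0 := by
        push_cast at hz ⊢
        linear_combination hz - (1 / 4 : ℂ) * hr2c
      rcases mul_eq_zero.mp h1 with h2 | h2
      · have h3 := sub_eq_zero.mp h2
        rw [h3, Complex.ofReal_re]
      · have h3 := sub_eq_zero.mp h2
        rw [h3, Complex.ofReal_re]
        linarith

theorem quad_natDegree (a b : ℝ) :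
    (X ^ 2 + C (a + b - 1) * X + C (a * b) : ℝ[X]).natDegree = 2 := by
  compute_degree!

/-! ### part N1 -/

theorem factor_one_pair_aux (n : ℕ) : ∀ (P : ℝ[X]), P.natDegree = n → P ≠ 0 →
    Multiset.card ((P.map (algebraMap ℝ ℂ)).roots.filter (fun z => z.im ≠ 0)) ≤ 2 →
    (∃ (c : ℝ) (S : Multiset ℝ), c ≠ 0 ∧ ∀ x : ℝ, P.eval x = c * (S.map (fun a => x - a)).prod) ∨
    (∃ (c b w : ℝ) (S : Multiset ℝ), c ≠ 0 ∧ 0 < w ∧
      aeval ((-b : ℂ) + w * Complex.I) P = 0 ∧
      ∀ x : ℝ, P.eval x = c * ((S.map (fun a => x - a)).prod * ((x + b) ^ 2 + w ^ 2))) := by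
  induction n using Nat.strong_induction_on with
  | _ n ih =>
  intro P hn hP h
  by_cases hr : ∃ a : ℝ, P.IsRoot a
  · obtain ⟨a, ha⟩ := hr
    obtain ⟨Q, hQ⟩ := dvd_iff_isRoot.2 ha
    have hQ0 : Q ≠ 0 := by
      rintro rfl
      exact hP (by rw [hQ, mul_zero])
    have hdeg : Q.natDegree < n := by
      rw [← hn, hQ, natDegree_mul (X_sub_C_ne_zero a) hQ0, natDegree_X_sub_C]
      omega
    have hmap : P.map (algebraMap ℝ ℂ) = (X - C (a : ℂ)) * Q.map (algebraMap ℝ ℂ) := by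
      rw [hQ, Polynomial.map_mul, Polynomial.map_sub, Polynomial.map_X, Polynomial.map_C]
      rfl
    have hQm : Q.map (algebraMap ℝ ℂ) ≠ 0 := by
      rwa [Ne, Polynomial.map_eq_zero]
    have hroots : (P.map (algebraMap ℝ ℂ)).roots = {(a : ℂ)} + (Q.map (algebraMap ℝ ℂ)).roots := by
      rw [hmap, roots_mul (mul_ne_zero (X_sub_C_ne_zero _) hQm), roots_X_sub_C]
    have hQc : Multiset.card ((Q.map (algebraMap ℝ ℂ)).roots.filter (fun z => z.im ≠ 0)) ≤ 2 := by
      rw [hroots, Multiset.filter_add, Multiset.card_add] at h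
      omega
    have hev : ∀ x : ℝ, P.eval x = (x - a) * Q.eval x := by
      intro x
      rw [hQ, eval_mul, eval_sub, eval_X, eval_C]
    rcases ih _ hdeg Q rfl hQ0 hQc with ⟨c, S, hc, hS⟩ | ⟨c, b, w, S, hc, hw, hz, hS⟩
    · left
      refine ⟨c, a ::ₘ S, hc, fun x => ?_⟩
      rw [hev, hS, Multiset.map_cons, Multiset.prod_cons]
      ring
    · right
      refine ⟨c, b, w, a ::ₘ S, hc, hw, ?_, fun x => ?_⟩
      · rw [hQ, map_mul, hz, mul_zero]
      · rw [hev, hS, Multiset.map_cons, Multiset.prod_cons]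
        ring
  · push Not at hr
    have hall : (P.map (algebraMap ℝ ℂ)).roots.filter (fun z => z.im ≠ 0) =
        (P.map (algebraMap ℝ ℂ)).roots := by
      rw [Multiset.filter_eq_self]
      intro z hz him
      rw [mem_roots', IsRoot.def, eval_map] at hz
      have hz2 : z = ((z.re : ℝ) : ℂ) := by
        apply Complex.ext <;> simp [him]
      apply hr z.re
      have h1 := hz.2
      rw [hz2] at h1
      have h2 : eval₂ (algebraMap ℝ ℂ) ((z.re : ℝ) : ℂ) P = ((P.eval z.re : ℝ) : ℂ) := by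
        have := Polynomial.eval₂_at_apply (p := P) (algebraMap ℝ ℂ) z.re
        simpa using this
      rw [h2] at h1
      simpa using h1
    rw [hall, IsAlgClosed.card_roots_eq_natDegree, natDegree_map] at h
    have hdeg2 : P = C (P.coeff 2) * X ^ 2 + C (P.coeff 1) * X + C (P.coeff 0) := by
      apply eq_quadratic_of_degree_le_two
      exact (natDegree_le_iff_degree_le).1 h
    set q := P.coeff 2 with hq
    set r := P.coeff 1 with hrr
    set t := P.coeff 0 with ht
    have hev : ∀ x : ℝ, P.eval x = q * x ^ 2 + r * x + t := by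
      intro x
      rw [hdeg2]
      simp
    by_cases hq0 : q = 0
    · have hr0 : r = 0 := by
        by_contra hrne
        apply hr (-t / r)
        rw [IsRoot.def, hev, hq0]
        field_simp
        ring
      left
      refine ⟨t, 0, ?_, fun x => ?_⟩
      · intro ht0
        apply hP
        rw [hdeg2, hq0, hr0, ht0]
        simp
      · rw [hev, hq0, hr0]
        simp
    · have hdisc : discrim q r t < 0 := by
        by_contra hcon
        push Not at hcon
        obtain ⟨x, hx⟩ := exists_quadratic_eq_zero hq0 ⟨√(discrim q r t), (Real.mul_self_sqrt hcon).symm⟩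
        apply hr x
        rw [IsRoot.def, hev]
        linarith [hx, sq x]
      rw [discrim] at hdisc
      right
      have hpos : 0 < (4 * q * t - r ^ 2) / (4 * q ^ 2) := by
        apply div_pos
        · linarith
        · positivity
      refine ⟨q, r / (2 * q), √((4 * q * t - r ^ 2) / (4 * q ^ 2)), 0, hq0, Real.sqrt_pos.2 hpos, ?_, fun x => ?_⟩
      · have hw2 := Real.sq_sqrt hpos.le
        set w := √((4 * q * t - r ^ 2) / (4 * q ^ 2)) with hw
        have hw3 : (4 * q ^ 2) * w ^ 2 = 4 * q * t - r ^ 2 := by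
          rw [hw2]; field_simp
        have hw4 : q * w ^ 2 = t - q * (r / (2 * q)) ^ 2 := by
          field_simp
          linarith
        have hq0' : (q : ℂ) ≠ 0 := by exact_mod_cast hq0
        have hw5 : (q : ℂ) * (w : ℂ) ^ 2 = t - q * ((r / (2 * q) : ℝ) : ℂ) ^ 2 := by
          exact_mod_cast hw4
        have hr5 : (r : ℂ) = 2 * q * ((r / (2 * q) : ℝ) : ℂ) := by
          have : r = 2 * q * (r / (2 * q)) := by field_simp
          exact_mod_cast this
        rw [hdeg2]
        simp only [map_add, map_mul, map_pow, aeval_X, aeval_C]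
        show (q : ℂ) * (-((r / (2 * q) : ℝ) : ℂ) + w * Complex.I) ^ 2 +
          (r : ℂ) * (-((r / (2 * q) : ℝ) : ℂ) + w * Complex.I) + (t : ℂ) = 0
        have hI : Complex.I ^ 2 = -1 := Complex.I_sq
        generalize ((r / (2 * q) : ℝ) : ℂ) = β at *
        rw [hr5]
        linear_combination (q : ℂ) * (w : ℂ) ^ 2 * hI - hw5
      · rw [hev, Real.sq_sqrt hpos.le]
        simp only [Multiset.map_zero, Multiset.prod_zero, one_mul]
        field_simp
        ring

theorem factor_one_pair (P : ℝ[X]) (hP : P ≠ 0)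
    (h : Multiset.card ((P.map (algebraMap ℝ ℂ)).roots.filter (fun z => z.im ≠ 0)) ≤ 2) :
    (∃ (c : ℝ) (S : Multiset ℝ), c ≠ 0 ∧ ∀ x : ℝ, P.eval x = c * (S.map (fun a => x - a)).prod) ∨
    (∃ (c b w : ℝ) (S : Multiset ℝ), c ≠ 0 ∧ 0 < w ∧
      aeval ((-b : ℂ) + w * Complex.I) P = 0 ∧
      ∀ x : ℝ, P.eval x = c * ((S.map (fun a => x - a)).prod * ((x + b) ^ 2 + w ^ 2))) :=
  factor_one_pair_aux _ P rfl hP h

/-! ### part N2 -/

theorem few_nonreal (P : ℝ[X]) (hP : P ≠ 0) (hdeg : P.natDegree ≤ 4) (x0 : ℝ) (h0 : P.eval x0 = 0) :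
    Multiset.card ((P.map (algebraMap ℝ ℂ)).roots.filter (fun z => z.im ≠ 0)) ≤ 2 := by
  set M : Multiset ℂ := (P.map (algebraMap ℝ ℂ)).roots with hM
  have hPm : P.map (algebraMap ℝ ℂ) ≠ 0 :=
    (Polynomial.map_ne_zero_iff (algebraMap ℝ ℂ).injective).2 hP
  have hconj : M.map (starRingEnd ℂ) = M := by
    have h1 := (IsAlgClosed.splits (P.map (algebraMap ℝ ℂ))).roots_map (starRingEnd ℂ)
    rw [Polynomial.map_map] at h1
    have h2 : (starRingEnd ℂ).comp (algebraMap ℝ ℂ) = algebraMap ℝ ℂ := by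
      ext x
      simp
    rw [h2] at h1
    exact h1.symm
  have hcard : Multiset.card M ≤ 4 :=
    (Polynomial.card_roots' _).trans ((Polynomial.natDegree_map_le).trans hdeg)
  have hx0 : (x0 : ℂ) ∈ M := by
    rw [hM, Polynomial.mem_roots hPm]
    have : (P.map (algebraMap ℝ ℂ)).eval (algebraMap ℝ ℂ x0) = algebraMap ℝ ℂ (P.eval x0) := by
      rw [Polynomial.eval_map, Polynomial.eval₂_at_apply]
    rw [Polynomial.IsRoot.def]
    have h3 : (algebraMap ℝ ℂ x0) = (x0 : ℂ) := rfl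
    rw [h3] at this
    rw [this, h0, map_zero]
  have h1 := Multiset.card_eq_countP_add_countP (fun z : ℂ => z.im ≠ 0) M
  have h2 : 0 < Multiset.countP (fun z : ℂ => ¬ z.im ≠ 0) M := by
    rw [Multiset.countP_pos]
    exact ⟨(x0 : ℂ), hx0, by simp⟩
  have h3 := Multiset.countP_eq_card_filter (fun z : ℂ => z.im ≠ 0) M
  have h4 : Multiset.countP (fun z : ℂ => z.im ≠ 0) M =
      Multiset.countP (fun z : ℂ => 0 < z.im) M + Multiset.countP (fun z : ℂ => z.im < 0) M := by
    clear_value M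
    clear hM hconj hcard hx0 h1 h2 h3
    induction M using Multiset.induction_on with
    | empty => simp
    | cons a s ih =>
      rcases lt_trichotomy a.im 0 with h | h | h
      · rw [Multiset.countP_cons_of_pos _ (by exact h.ne), Multiset.countP_cons_of_neg _ (by simpa using h.le),
          Multiset.countP_cons_of_pos (p := fun z : ℂ => z.im < 0) _ h]
        omega
      · rw [Multiset.countP_cons_of_neg _ (by simp [h]), Multiset.countP_cons_of_neg _ (by simp [h]),
          Multiset.countP_cons_of_neg _ (by simp [h])]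
        omega
      · rw [Multiset.countP_cons_of_pos _ (by exact h.ne'), Multiset.countP_cons_of_pos (p := fun z : ℂ => 0 < z.im) _ h,
          Multiset.countP_cons_of_neg _ (by simpa using h.le)]
        omega
  have h5 : Multiset.countP (fun z : ℂ => z.im < 0) M = Multiset.countP (fun z : ℂ => 0 < z.im) M := by
    conv_lhs => rw [← hconj]
    rw [Multiset.countP_map, Multiset.countP_eq_card_filter]
    congr 1
    apply Multiset.filter_congr
    intro z _
    simp
  rw [← h3]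
  omega

/-! ### part N3 -/

theorem bnd705 (c1 c2 c3 c4 c5 x : ℝ) (hx : 0 ≤ x) :
    |c1 + c2 * Real.sin x + c3 * Real.cos x + x * (c4 * Real.cos x + c5 * Real.sin x)| ≤
      (|c1| + |c2| + |c3|) + x * (|c4| + |c5|) := by
  have hs := Real.abs_sin_le_one x
  have hc := Real.abs_cos_le_one x
  have h2 : |c2 * Real.sin x| ≤ |c2| := by
    rw [abs_mul]; exact mul_le_of_le_one_right (abs_nonneg _) hs
  have h3 : |c3 * Real.cos x| ≤ |c3| := by
    rw [abs_mul]; exact mul_le_of_le_one_right (abs_nonneg _) hc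
  have h4 : |c4 * Real.cos x| ≤ |c4| := by
    rw [abs_mul]; exact mul_le_of_le_one_right (abs_nonneg _) hc
  have h5 : |c5 * Real.sin x| ≤ |c5| := by
    rw [abs_mul]; exact mul_le_of_le_one_right (abs_nonneg _) hs
  have h6 : |x * (c4 * Real.cos x + c5 * Real.sin x)| ≤ x * (|c4| + |c5|) := by
    rw [abs_mul, abs_of_nonneg hx]
    apply mul_le_mul_of_nonneg_left _ hx
    exact (abs_add_le _ _).trans (add_le_add h4 h5)
  have h7 := abs_add_le (c1 + c2 * Real.sin x + c3 * Real.cos x)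
    (x * (c4 * Real.cos x + c5 * Real.sin x))
  have h8 := abs_add_le (c1 + c2 * Real.sin x) (c3 * Real.cos x)
  have h9 := abs_add_le c1 (c2 * Real.sin x)
  linarith

theorem tend705 (q c1 c2 c3 c4 c5 : ℝ) (hq : 1 ≤ q) :
    Tendsto (fun x : ℝ => Real.exp (-q * x) * (c1 + c2 * Real.sin x + c3 * Real.cos x +
      x * (c4 * Real.cos x + c5 * Real.sin x))) atTop (𝓝 0) := by
  have h1 : Tendsto (fun x : ℝ => Real.exp (-x)) atTop (𝓝 0) :=
    Real.tendsto_exp_neg_atTop_nhds_zero
  have h2 : Tendsto (fun x : ℝ => x ^ 1 * Real.exp (-x)) atTop (𝓝 0) :=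
    Real.tendsto_pow_mul_exp_neg_atTop_nhds_zero 1
  have h3 : Tendsto (fun x : ℝ => (|c1| + |c2| + |c3|) * Real.exp (-x) +
      (|c4| + |c5|) * (x ^ 1 * Real.exp (-x))) atTop (𝓝 0) := by
    have := (h1.const_mul (|c1| + |c2| + |c3|)).add (h2.const_mul (|c4| + |c5|))
    simpa using this
  refine squeeze_zero_norm' ?_ h3
  filter_upwards [eventually_ge_atTop (0:ℝ)] with x hx
  rw [Real.norm_eq_abs, abs_mul, abs_of_pos (Real.exp_pos _)]
  have hb := bnd705 c1 c2 c3 c4 c5 x hx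
  have he : Real.exp (-q * x) ≤ Real.exp (-x) := by
    apply Real.exp_le_exp.mpr
    nlinarith
  calc Real.exp (-q * x) * |c1 + c2 * Real.sin x + c3 * Real.cos x +
        x * (c4 * Real.cos x + c5 * Real.sin x)|
      ≤ Real.exp (-x) * ((|c1| + |c2| + |c3|) + x * (|c4| + |c5|)) :=
        mul_le_mul he hb (abs_nonneg _) (Real.exp_pos _).le
    _ = _ := by ring

theorem deg5_laplace (s : ℝ) (hs : 0 ≤ s) :
    ∫ x in Ioi (0:ℝ), Real.exp (-s * x) * (Real.exp (-x) * (1 - Real.cos x - x / 2 * Real.sin x)) =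
      1 / ((s + 1) * ((s + 1) ^ 2 + 1) ^ 2) := by
  obtain ⟨q, hq⟩ : ∃ q : ℝ, q = s + 1 := ⟨_, rfl⟩
  have hq1 : 1 ≤ q := by linarith
  have hq0 : 0 < q := by linarith
  have hqq : 0 < q ^ 2 + 1 := by positivity
  have hfun : (fun x : ℝ => Real.exp (-s * x) *
      (Real.exp (-x) * (1 - Real.cos x - x / 2 * Real.sin x))) =
      fun x : ℝ => Real.exp (-q * x) * (1 - Real.cos x - x / 2 * Real.sin x) := by
    funext x
    rw [← mul_assoc, ← Real.exp_add]
    congr 2
    rw [hq]; ring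
  rw [hfun, ← hq]
  obtain ⟨c1, hc1⟩ : ∃ c : ℝ, c = -1 / q := ⟨_, rfl⟩
  obtain ⟨c2, hc2⟩ : ∃ c : ℝ, c = -1 / (q ^ 2 + 1) - (1 - q ^ 2) / (2 * (q ^ 2 + 1) ^ 2) := ⟨_, rfl⟩
  obtain ⟨c3, hc3⟩ : ∃ c : ℝ, c = q / (q ^ 2 + 1) + q / (q ^ 2 + 1) ^ 2 := ⟨_, rfl⟩
  obtain ⟨c4, hc4⟩ : ∃ c : ℝ, c = 1 / (2 * (q ^ 2 + 1)) := ⟨_, rfl⟩
  obtain ⟨c5, hc5⟩ : ∃ c : ℝ, c = q / (2 * (q ^ 2 + 1)) := ⟨_, rfl⟩
  have E1 : -q * c1 = 1 := by rw [hc1]; field_simp
  have E2 : -q * c2 - c3 + c5 = 0 := by rw [hc2, hc3, hc5]; field_simp; ring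
  have E3 : -q * c3 + c2 + c4 = -1 := by rw [hc2, hc3, hc4]; field_simp; ring
  have E4 : -q * c4 + c5 = 0 := by rw [hc4, hc5]; field_simp; ring
  have E5 : -q * c5 - c4 = -1/2 := by rw [hc4, hc5]; field_simp; ring
  have E6 : c1 + c3 = -(1 / (q * (q ^ 2 + 1) ^ 2)) := by rw [hc1, hc3]; field_simp; ring
  clear hc1 hc2 hc3 hc4 hc5
  have hder : ∀ x ∈ Ici (0:ℝ), HasDerivAt (fun x : ℝ => Real.exp (-q * x) *
      (c1 + c2 * Real.sin x + c3 * Real.cos x + x * (c4 * Real.cos x + c5 * Real.sin x)))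
      (Real.exp (-q * x) * (1 - Real.cos x - x / 2 * Real.sin x)) x := by
    intro x _
    have he : HasDerivAt (fun x : ℝ => Real.exp (-q * x)) (Real.exp (-q * x) * (-q * 1)) x :=
      ((hasDerivAt_id' x).const_mul (-q)).exp
    have hsin := Real.hasDerivAt_sin x
    have hcos := Real.hasDerivAt_cos x
    have hb := (((hsin.const_mul c2).const_add c1).add (hcos.const_mul c3)).add
      ((hasDerivAt_id' x).mul ((hcos.const_mul c4).add (hsin.const_mul c5)))
    have hm := he.mul hb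
    refine HasDerivAt.congr_deriv (f := fun x : ℝ => Real.exp (-q * x) *
      (c1 + c2 * Real.sin x + c3 * Real.cos x + x * (c4 * Real.cos x + c5 * Real.sin x))) hm ?_
    simp only [Pi.add_apply, Pi.mul_apply]
    have hq1' : q * c1 = -1 := by linarith
    have hc5' : c5 = q * c4 := by linarith
    have hc3' : c3 = -q * c2 + c5 := by linarith
    linear_combination (Real.exp (-q * x)) * E1 + (Real.exp (-q * x) * Real.sin x) * E2 +
      (Real.exp (-q * x) * Real.cos x) * E3 + (Real.exp (-q * x) * x * Real.cos x) * E4 +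
      (Real.exp (-q * x) * x * Real.sin x) * E5
  have hint : IntegrableOn (fun x : ℝ => Real.exp (-q * x) *
      (1 - Real.cos x - x / 2 * Real.sin x)) (Ioi 0) := by
    apply integrable_of_isBigO_exp_neg (b := 1/2) (by norm_num)
    · apply Continuous.continuousOn
      fun_prop
    · apply Asymptotics.IsBigO.of_bound 2
      filter_upwards [eventually_ge_atTop (0:ℝ)] with x hx
      rw [Real.norm_eq_abs, Real.norm_eq_abs, abs_mul, abs_of_pos (Real.exp_pos _),
        abs_of_pos (Real.exp_pos _)]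
      have hb := bnd705 1 0 (-1) 0 (-1/2) x hx
      have hb' : |1 - Real.cos x - x / 2 * Real.sin x| ≤ 2 + x := by
        have e : 1 - Real.cos x - x / 2 * Real.sin x = 1 + 0 * Real.sin x + (-1) * Real.cos x +
            x * (0 * Real.cos x + (-1/2) * Real.sin x) := by ring
        rw [e]
        refine hb.trans ?_
        have : |(-1/2 : ℝ)| = 1/2 := by rw [abs_of_neg (by norm_num)]; norm_num
        rw [this]
        simp
        linarith
      have hx2 : 2 + x ≤ 2 * Real.exp (x / 2) := by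
        have := Real.add_one_le_exp (x / 2)
        linarith
      have hE : Real.exp (-q * x) ≤ Real.exp (-x) := by
        apply Real.exp_le_exp.mpr
        nlinarith
      calc Real.exp (-q * x) * |1 - Real.cos x - x / 2 * Real.sin x|
          ≤ Real.exp (-x) * (2 * Real.exp (x / 2)) :=
            mul_le_mul hE (hb'.trans hx2) (abs_nonneg _) (Real.exp_pos _).le
        _ = 2 * (Real.exp (-x) * Real.exp (x / 2)) := by ring
        _ = 2 * Real.exp (-(1/2) * x) := by
            rw [← Real.exp_add]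
            congr 2
            ring
  have hfin := integral_Ioi_of_hasDerivAt_of_tendsto' hder hint
    (tend705 q c1 c2 c3 c4 c5 hq1)
  rw [hfin]
  simp only [Real.sin_zero, Real.cos_zero, mul_zero, Real.exp_zero, zero_mul, mul_one, one_mul,
    add_zero]
  linarith

/-! ### part N4 -/

/-- at `x = 5π/2` the kernel is negative, so this polynomial is not covered: the dominance condition is
not sufficient in degree 5 -/
theorem deg5_facts :
    (1 - Real.cos (5 * Real.pi / 2) - (5 * Real.pi / 2) / 2 * Real.sin (5 * Real.pi / 2) < 0) ∧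
    (∀ x : ℝ, 0 ≤ x → |Real.exp (-x) * (1 - Real.cos x - x / 2 * Real.sin x)| ≤ 2 * (1 + x) ^ 1 * Real.exp (-1 * x)) ∧
    Continuous (fun x : ℝ => Real.exp (-x) * (1 - Real.cos x - x / 2 * Real.sin x)) ∧
    NegDominantZero ((X + 1) * ((X + 1) ^ 2 + 1) ^ 2 : ℝ[X]) ∧
    ((X + 1) * ((X + 1) ^ 2 + 1) ^ 2 : ℝ[X]).natDegree = 5 ∧
    (∀ x : ℝ, ((X + 1) * ((X + 1) ^ 2 + 1) ^ 2 : ℝ[X]).eval x = (x + 1) * ((x + 1) ^ 2 + 1) ^ 2) := by
  have hc : Real.cos (5 * Real.pi / 2) = 0 := by
    have : 5 * Real.pi / 2 = Real.pi / 2 + 2 * Real.pi := by ring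
    rw [this, Real.cos_add_two_pi, Real.cos_pi_div_two]
  have hs : Real.sin (5 * Real.pi / 2) = 1 := by
    have : 5 * Real.pi / 2 = Real.pi / 2 + 2 * Real.pi := by ring
    rw [this, Real.sin_add_two_pi, Real.sin_pi_div_two]
  refine ⟨?_, ?_, ?_, ?_, ?_, ?_⟩
  · rw [hc, hs]
    have := Real.pi_gt_three
    linarith
  · intro x hx
    rw [abs_mul, abs_of_pos (Real.exp_pos _), pow_one, neg_one_mul, mul_comm]
    apply mul_le_mul_of_nonneg_right _ (Real.exp_pos _).le
    have h1 := Real.cos_le_one x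
    have h2 := Real.neg_one_le_cos x
    have h3 := Real.sin_le_one x
    have h4 := Real.neg_one_le_sin x
    rw [abs_le]
    constructor
    · nlinarith
    · nlinarith
  · fun_prop
  · refine ⟨-1, by norm_num, by simp, ?_⟩
    intro z hz
    simp only [map_mul, map_add, map_pow, aeval_X, map_one] at hz
    rcases mul_eq_zero.mp hz with h | h
    · have : z = -1 := by linear_combination h
      rw [this]; simp
    · have h' : (z + 1) ^ 2 + 1 = 0 := by
        exact pow_eq_zero_iff (two_ne_zero) |>.mp h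
      have h2 : (z + 1 - Complex.I) * (z + 1 + Complex.I) = 0 := by
        have : (z + 1 - Complex.I) * (z + 1 + Complex.I) = (z + 1) ^ 2 - Complex.I ^ 2 := by ring
        rw [this, Complex.I_sq]
        linear_combination h'
      rcases mul_eq_zero.mp h2 with h3 | h3
      · have : z = -1 + Complex.I := by linear_combination h3
        rw [this]; simp
      · have : z = -1 - Complex.I := by linear_combination h3
        rw [this]; simp
  · compute_degree!
  · intro x
    simp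

/-! ### part E1 -/


theorem P5_dom_alg (a b : ℝ) (ha : 0 < a)
    (hre : a ^ 4 - 6 * a ^ 2 * b ^ 2 + b ^ 4 + a ^ 3 - 3 * a * b ^ 2 + 422 * (a ^ 2 - b ^ 2)
      + 249 * a + 24877 = 0)
    (him : b * (4 * a ^ 3 - 4 * a * b ^ 2 + 3 * a ^ 2 - b ^ 2 + 844 * a + 249) = 0) : False := by
  rcases mul_eq_zero.mp him with hb | hb
  · rw [hb] at hre
    have h1 : 0 < a ^ 4 + a ^ 3 + 422 * a ^ 2 + 249 * a + 24877 := by positivity
    nlinarith
  · have hB : b ^ 2 * (4 * a + 1) = 4 * a ^ 3 + 3 * a ^ 2 + 844 * a + 249 := by linarith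
    have h2 : b ^ 4 * (4 * a + 1) ^ 2 = (4 * a ^ 3 + 3 * a ^ 2 + 844 * a + 249) ^ 2 := by
      rw [← hB]
      ring
    have h3 : (4 * a + 1) ^ 2 * (a ^ 4 - 6 * a ^ 2 * b ^ 2 + b ^ 4 + a ^ 3 - 3 * a * b ^ 2
        + 422 * (a ^ 2 - b ^ 2) + 249 * a + 24877) =
        -(64 * a ^ 6 + 96 * a ^ 5 + 13552 * a ^ 4 + 13512 * a ^ 3 + 318676 * a ^ 2 + 157650 * a
          + 18200) := by
      linear_combination h2 - (6 * a ^ 2 + 3 * a + 422) * (4 * a + 1) * hB
    rw [hre, mul_zero] at h3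
    have h4 : 0 < 64 * a ^ 6 + 96 * a ^ 5 + 13552 * a ^ 4 + 13512 * a ^ 3 + 318676 * a ^ 2
        + 157650 * a + 18200 := by positivity
    linarith

theorem P5_dom_cplx (u : ℂ) (hu : u * (u ^ 4 + u ^ 3 + 422 * u ^ 2 + 249 * u + 24877) = 0) :
    u.re ≤ 0 := by
  by_contra hcon
  push Not at hcon
  have hu0 : u ≠ 0 := by
    rintro rfl
    simp at hcon
  have hq : u ^ 4 + u ^ 3 + 422 * u ^ 2 + 249 * u + 24877 = 0 :=
    (mul_eq_zero.mp hu).resolve_left hu0
  obtain ⟨a, b⟩ := u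
  have hre := congrArg Complex.re hq
  have him := congrArg Complex.im hq
  simp [pow_succ] at hre him
  refine P5_dom_alg a b hcon ?_ ?_
  · linear_combination hre
  · linear_combination him

theorem P5_dom : NegDominantZero P5 ∧ P5.natDegree = 5 ∧
    (∀ x : ℝ, P5.eval x = (x + 48) ^ 5 + (x + 48) ^ 4 + 422 * (x + 48) ^ 3 + 249 * (x + 48) ^ 2 + 24877 * (x + 48)) ∧
    ∀ m : ℕ, 0 < P5.eval (m:ℝ) := by
  have heval : ∀ x : ℝ, P5.eval x = x ^ 5 + 241 * x ^ 4 + 23654 * x ^ 3 + 1180761 * x ^ 2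
      + 29950093 * x + 308550000 := by
    intro x
    simp [P5]
  refine ⟨⟨-48, by norm_num, ?_, ?_⟩, ?_, ?_, ?_⟩
  · rw [heval]
    norm_num
  · intro z hz
    have h1 : (z + 48) * ((z + 48) ^ 4 + (z + 48) ^ 3 + 422 * (z + 48) ^ 2 + 249 * (z + 48)
        + 24877) = 0 := by
      have h2 : aeval z P5 = z ^ 5 + 241 * z ^ 4 + 23654 * z ^ 3 + 1180761 * z ^ 2
          + 29950093 * z + 308550000 := by
        simp [P5]
      rw [h2] at hz
      linear_combination hz
    have h3 := P5_dom_cplx _ h1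
    simp at h3
    linarith
  · unfold P5
    compute_degree!
  · intro x
    rw [heval]
    ring
  · intro m
    rw [heval]
    positivity

/-! ### part E2 -/

theorem egf_lap (s : ℝ) (hs : 0 < s) (n : ℕ) :
    IntegrableOn (fun t : ℝ => t^n * Real.exp (-s*t)) (Ioi 0) ∧
    ∫ t in Ioi (0:ℝ), t^n * Real.exp (-s*t) = (n.factorial:ℝ) / s^(n+1) := by
  constructor
  · have h := integrableOn_rpow_mul_exp_neg_mul_rpow (p := 1) (s := (n:ℝ)) (b := s)
      (by have : (0:ℝ) ≤ n := Nat.cast_nonneg n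
          linarith) one_pos hs
    simpa using h
  · have h := Real.integral_rpow_mul_exp_neg_mul_Ioi (a := (n:ℝ)+1) (r := s) (by positivity) hs
    rw [add_sub_cancel_right, Real.Gamma_nat_eq_factorial] at h
    simp only [Real.rpow_natCast] at h
    have e : ∀ t : ℝ, -s * t = -(s * t) := fun t => by ring
    simp only [e]
    rw [h]
    have h2 : (1/s)^((n:ℝ)+1) = (1/s)^(n+1) := by
      rw [← Real.rpow_natCast]; push_cast; rfl
    rw [h2, one_div, inv_pow]
    field_simp

theorem egf_sum (y : ℕ → ℝ) (K : ℝ) (hy : ∀ n, |y n| ≤ K ^ n) (n : ℕ) (t R : ℝ)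
    (ht : |t| ≤ R) : ‖y n * t ^ n / (n.factorial : ℝ)‖ ≤ (K * R)^n / (n.factorial : ℝ) := by
  rw [norm_div, norm_mul, norm_pow, Real.norm_eq_abs, Real.norm_eq_abs, Real.norm_natCast, mul_pow]
  apply div_le_div_of_nonneg_right _ (by positivity)
  exact mul_le_mul (hy n) (pow_le_pow_left₀ (abs_nonneg _) ht n) (by positivity)
    ((abs_nonneg _).trans (hy n))

theorem egf_kernel (y : ℕ → ℝ) (K : ℝ) (hK : 0 < K) (hy : ∀ n, |y n| ≤ K ^ n) :
    Continuous (fun t : ℝ => ∑' n : ℕ, y n * t ^ n / (n.factorial : ℝ)) ∧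
    (∀ t : ℝ, 0 ≤ t → |∑' n : ℕ, y n * t ^ n / (n.factorial : ℝ)| ≤ Real.exp (K * t)) ∧
    ∀ s : ℝ, K < s →
      ∫ t in Ioi (0:ℝ), Real.exp (-s * t) * (∑' n : ℕ, y n * t ^ n / (n.factorial : ℝ)) =
        ∑' n : ℕ, y n / s ^ (n + 1) := by
  refine ⟨?_, ?_, ?_⟩
  · rw [continuous_iff_continuousAt]
    intro t0
    have h : ContinuousOn (fun t : ℝ => ∑' n : ℕ, y n * t ^ n / (n.factorial : ℝ))
        (Metric.ball 0 (|t0| + 1)) := by
      apply continuousOn_tsum (u := fun n => (K * (|t0|+1))^n / (n.factorial : ℝ))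
      · intro n
        fun_prop
      · exact Real.summable_pow_div_factorial _
      · intro n t ht
        apply egf_sum y K hy n t
        rw [Metric.mem_ball, Real.dist_eq, sub_zero] at ht
        exact ht.le
    apply h.continuousAt
    apply Metric.isOpen_ball.mem_nhds
    rw [Metric.mem_ball, Real.dist_eq, sub_zero]
    linarith
  · intro t ht
    have h1 : ∀ n : ℕ, ‖y n * t ^ n / (n.factorial : ℝ)‖ ≤ (K * t)^n / (n.factorial : ℝ) :=
      fun n => egf_sum y K hy n t t (by rw [abs_of_nonneg ht])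
    have h2 : HasSum (fun n : ℕ => (K * t)^n / (n.factorial : ℝ)) (Real.exp (K * t)) := by
      rw [Real.exp_eq_exp_ℝ]
      exact NormedSpace.expSeries_div_hasSum_exp (K * t)
    rw [← Real.norm_eq_abs]
    exact tsum_of_norm_bounded h2 h1
  · intro s hs
    have hs0 : 0 < s := hK.trans hs
    have hF : ∀ n, IntegrableOn (fun t : ℝ => Real.exp (-s * t) * (y n * t ^ n / (n.factorial : ℝ)))
        (Ioi 0) := by
      intro n
      have h := ((egf_lap s hs0 n).1).const_mul (y n / (n.factorial : ℝ))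
      refine h.congr (Filter.Eventually.of_forall fun t => ?_)
      simp only
      ring
    have hI : ∀ n, ∫ t in Ioi (0:ℝ), Real.exp (-s * t) * (y n * t ^ n / (n.factorial : ℝ)) =
        y n / s^(n+1) := by
      intro n
      have h := (egf_lap s hs0 n).2
      calc _ = ∫ t in Ioi (0:ℝ), (y n / (n.factorial : ℝ)) * (t^n * Real.exp (-s*t)) := by
            congr 1; ext t; ring
        _ = _ := by
            rw [integral_const_mul, h]
            have : (n.factorial : ℝ) ≠ 0 := by positivity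
            field_simp
    have hN : ∀ n, ∫ t in Ioi (0:ℝ), ‖Real.exp (-s * t) * (y n * t ^ n / (n.factorial : ℝ))‖ =
        |y n| / s^(n+1) := by
      intro n
      have h := (egf_lap s hs0 n).2
      calc _ = ∫ t in Ioi (0:ℝ), (|y n| / (n.factorial : ℝ)) * (t^n * Real.exp (-s*t)) := by
            apply setIntegral_congr_fun measurableSet_Ioi
            intro t ht
            have ht0 : 0 < t := ht
            simp only
            rw [norm_mul, norm_div, norm_mul, norm_pow, Real.norm_natCast,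
              Real.norm_of_nonneg (Real.exp_pos _).le, Real.norm_of_nonneg ht0.le,
              Real.norm_eq_abs]
            ring
        _ = _ := by
            rw [integral_const_mul, h]
            have : (n.factorial : ℝ) ≠ 0 := by positivity
            field_simp
    have hsum : Summable fun n => ∫ t in Ioi (0:ℝ),
        ‖Real.exp (-s * t) * (y n * t ^ n / (n.factorial : ℝ))‖ := by
      simp only [hN]
      have hg : Summable fun n : ℕ => (1/s) * (K/s)^n :=
        (summable_geometric_of_lt_one (by positivity) ((div_lt_one hs0).mpr hs)).mul_left _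
      refine Summable.of_nonneg_of_le (fun n => by positivity) (fun n => ?_) hg
      calc |y n| / s^(n+1) ≤ K^n / s^(n+1) := div_le_div_of_nonneg_right (hy n) (by positivity)
        _ = (1/s) * (K/s)^n := by rw [div_pow, pow_succ]; field_simp
    have hmain := integral_tsum_of_summable_integral_norm hF hsum
    simp only [hI] at hmain
    rw [hmain]
    congr 1
    ext t
    rw [tsum_mul_left]

/-! ### part E3 -/


theorem ys_facts_rec (k : ℕ) :
    ys (k + 8) = -(ys (k + 7) + 422 * ys (k + 6) + 249 * ys (k + 5) + 24877 * ys (k + 4)) := by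
  show ys ((k + 3) + 5) = _
  rw [ys]

theorem ys_facts_rec' (k : ℕ) :
    ys (k + 5) = -(ys (k + 4) + 422 * ys (k + 3) + 249 * ys (k + 2) + 24877 * ys (k + 1)) := by
  rw [ys]

theorem ys_facts_bd (k : ℕ) : |ys (k + 4)| ≤ 23 ^ k ∧ |ys (k + 5)| ≤ 23 ^ (k + 1) ∧
    |ys (k + 6)| ≤ 23 ^ (k + 2) ∧ |ys (k + 7)| ≤ 23 ^ (k + 3) := by
  induction k with
  | zero => decide
  | succ k ih =>
    obtain ⟨h0, h1, h2, h3⟩ := ih
    have e1 : k + 1 + 4 = k + 5 := by ring
    have e2 : k + 1 + 5 = k + 6 := by ring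
    have e3 : k + 1 + 6 = k + 7 := by ring
    have e4 : k + 1 + 7 = k + 8 := by ring
    rw [e1, e2, e3, e4]
    refine ⟨h1, h2, h3, ?_⟩
    rw [ys_facts_rec]
    rw [abs_neg]
    have p0 : (0 : ℤ) < 23 ^ k := by positivity
    have q1 : (23 : ℤ) ^ (k + 1) = 23 * 23 ^ k := by ring
    have q2 : (23 : ℤ) ^ (k + 2) = 529 * 23 ^ k := by ring
    have q3 : (23 : ℤ) ^ (k + 3) = 12167 * 23 ^ k := by ring
    have q4 : (23 : ℤ) ^ (k + 1 + 3) = 279841 * 23 ^ k := by ring
    rw [q4]
    rw [q1] at h1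
    rw [q2] at h2
    rw [q3] at h3
    rw [abs_le] at h0 h1 h2 h3 ⊢
    constructor <;> nlinarith

theorem ys_facts_bd1 (n : ℕ) : |(ys (n + 4) : ℝ)| ≤ 23 ^ n := by
  have := (ys_facts_bd n).1
  exact_mod_cast this

theorem ys_facts_bd2 (n : ℕ) : |(ys n : ℝ)| ≤ 23 ^ n := by
  match n with
  | 0 => simp [ys]
  | 1 => simp [ys]
  | 2 => simp [ys]
  | 3 => simp [ys]
  | (n + 4) =>
    refine (ys_facts_bd1 n).trans ?_
    exact pow_le_pow_right₀ (by norm_num) (by omega)

theorem ys_facts :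
    (∀ n : ℕ, |(ys (n + 4) : ℝ)| ≤ 23 ^ n) ∧ (∀ n : ℕ, |(ys n : ℝ)| ≤ 23 ^ n) ∧
    ∀ u : ℝ, 23 < u → ∑' n : ℕ, (ys n : ℝ) / u ^ (n + 1) =
      1 / (u ^ 5 + u ^ 4 + 422 * u ^ 3 + 249 * u ^ 2 + 24877 * u) := by
  refine ⟨ys_facts_bd1, ys_facts_bd2, ?_⟩
  intro u hu
  have hu0 : 0 < u := by linarith
  set f : ℕ → ℝ := fun n => (ys n : ℝ) / u ^ (n + 1) with hf
  have hs : Summable f := by
    have hg : Summable (fun n : ℕ => (23 / u) ^ n * u⁻¹) := by
      apply Summable.mul_right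
      apply summable_geometric_of_lt_one (by positivity)
      rw [div_lt_one hu0]
      exact hu
    refine Summable.of_norm_bounded hg ?_
    intro n
    rw [hf, Real.norm_eq_abs, abs_div, abs_of_pos (pow_pos hu0 _), div_pow, pow_succ]
    have := ys_facts_bd2 n
    rw [div_mul_eq_mul_div, div_le_div_iff₀ (by positivity) (by positivity)]
    have hun : 0 < u ^ n := pow_pos hu0 n
    calc |(ys n : ℝ)| * u ^ n ≤ 23 ^ n * u ^ n := mul_le_mul_of_nonneg_right this hun.le
      _ = 23 ^ n * u⁻¹ * (u ^ n * u) := by field_simp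
  set S := ∑' n, f n with hS
  have hsum := hs.hasSum
  have h1 := (hasSum_nat_add_iff' 1).mpr hsum
  have h2 := (hasSum_nat_add_iff' 2).mpr hsum
  have h3 := (hasSum_nat_add_iff' 3).mpr hsum
  have h4 := (hasSum_nat_add_iff' 4).mpr hsum
  have h5 := (hasSum_nat_add_iff' 5).mpr hsum
  have y0 : f 0 = 0 := by simp [hf, ys]
  have y1 : f 1 = 0 := by simp [hf, ys]
  have y2 : f 2 = 0 := by simp [hf, ys]
  have y3 : f 3 = 0 := by simp [hf, ys]
  have y4 : f 4 = 1 / u ^ 5 := by simp [hf, ys]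
  simp only [Finset.sum_range_succ, Finset.sum_range_zero, y0, y1, y2, y3, y4, add_zero,
    sub_zero, zero_add] at h1 h2 h3 h4 h5
  have hcomb := ((((h4.mul_left (1 / u)).add (h3.mul_left (422 / u ^ 2))).add
    (h2.mul_left (249 / u ^ 3))).add (h1.mul_left (24877 / u ^ 4))).neg
  have hfun : (fun n => f (n + 5)) = fun n => -(1 / u * f (n + 4) + 422 / u ^ 2 * f (n + 3)
      + 249 / u ^ 3 * f (n + 2) + 24877 / u ^ 4 * f (n + 1)) := by
    funext n
    simp only [hf]
    rw [ys_facts_rec']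
    push_cast
    field_simp
    ring
  rw [hfun] at h5
  have key := h5.unique hcomb
  have hne : u ^ 5 + u ^ 4 + 422 * u ^ 3 + 249 * u ^ 2 + 24877 * u ≠ 0 := by positivity
  rw [eq_div_iff hne]
  have key2 : (S - 1 / u ^ 5) * u ^ 5 = -(1 / u * S + 422 / u ^ 2 * S + 249 / u ^ 3 * S
      + 24877 / u ^ 4 * S) * u ^ 5 := by
    rw [key]
  field_simp at key2
  linarith

/-! ### part E4 -/


/-- state machine: `(y_n, …, y_{n+4}, A_n)` -/
def gst : ℕ → (ℤ × ℤ × ℤ × ℤ × ℤ × ℤ × ℤ)
  | 0 => (0, 0, 0, 0, 1, 0, 1)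
  | (n + 1) =>
    let q := gst n
    (q.2.1, q.2.2.1, q.2.2.2.1, q.2.2.2.2.1,
      -(q.2.2.2.2.1 + 422 * q.2.2.2.1 + 249 * q.2.2.1 + 24877 * q.2.1),
      5 * n * q.2.2.2.2.2.1 + q.2.2.2.2.2.2 * q.1, 4 * q.2.2.2.2.2.2)

theorem gst_ys (n : ℕ) : (gst n).1 = ys n ∧ (gst n).2.1 = ys (n + 1) ∧
    (gst n).2.2.1 = ys (n + 2) ∧ (gst n).2.2.2.1 = ys (n + 3) ∧
    (gst n).2.2.2.2.1 = ys (n + 4) ∧ (gst n).2.2.2.2.2.2 = 4 ^ n := by
  induction n with
  | zero => simp [gst, ys]
  | succ n ih =>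
    obtain ⟨h1, h2, h3, h4, h5, h6⟩ := ih
    refine ⟨?_, ?_, ?_, ?_, ?_, ?_⟩
    · show (gst n).2.1 = _
      exact h2
    · show (gst n).2.2.1 = _
      exact h3
    · show (gst n).2.2.2.1 = _
      exact h4
    · show (gst n).2.2.2.2.1 = _
      exact h5
    · show -((gst n).2.2.2.2.1 + 422 * (gst n).2.2.2.1 + 249 * (gst n).2.2.1
        + 24877 * (gst n).2.1) = ys (n + 5)
      rw [h2, h3, h4, h5]
      rw [ys]
    · show 4 * (gst n).2.2.2.2.2.2 = _
      rw [h6]; ring

theorem gst_sum (n : ℕ) :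
    ∑ k ∈ Finset.range (n + 1), (ys k : ℝ) * (4 / 5 : ℝ) ^ k / (k.factorial : ℝ)
      = ((gst (n + 1)).2.2.2.2.2.1 : ℝ) / (5 ^ n * (n.factorial : ℝ)) := by
  have hA : ∀ m : ℕ, (gst (m + 1)).2.2.2.2.2.1
      = 5 * m * (gst m).2.2.2.2.2.1 + 4 ^ m * ys m := by
    intro m
    obtain ⟨h1, _, _, _, _, h6⟩ := gst_ys m
    show 5 * m * (gst m).2.2.2.2.2.1 + (gst m).2.2.2.2.2.2 * (gst m).1 = _
    rw [h1, h6]
  induction n with
  | zero =>
    rw [hA 0]
    simp [ys]
  | succ n ih =>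
    rw [Finset.sum_range_succ, ih, hA (n + 1)]
    have hf : ((n.factorial : ℕ) : ℝ) ≠ 0 := by positivity
    have hn : ((n : ℝ) + 1) ≠ 0 := by positivity
    rw [Nat.factorial_succ]
    push_cast
    rw [div_pow]
    field_simp
    try ring

theorem gst_val : 1000000 * (gst 60).2.2.2.2.2.1 < -2 * 5 ^ 59 * (Nat.factorial 59 : ℤ) := by
  decide +kernel

theorem tail_step (P Q F x : ℝ) (hP : 0 < P) (hQ : 0 < Q) (hF : 0 < F) (hx : 0 ≤ x) :
    P * 23 * (Q * (4 / 5)) / ((x + 61) * F) ≤ P * Q / F * (1 / 3) := by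
  rw [div_le_iff₀ (by positivity)]
  have h1 : P * Q / F * (1 / 3) * ((x + 61) * F) = P * Q * ((x + 61) / 3) := by
    field_simp
  rw [h1]
  have h2 : 0 < P * Q := mul_pos hP hQ
  nlinarith [mul_nonneg h2.le hx]

theorem tail_bd (n : ℕ) : (23 : ℝ) ^ (n + 56) * (4 / 5 : ℝ) ^ (n + 60) / ((n + 60).factorial : ℝ)
    ≤ ((23 : ℝ) ^ 56 * (4 / 5 : ℝ) ^ 60 / ((60 : ℕ).factorial : ℝ)) * (1 / 3) ^ n := by
  induction n with
  | zero =>
    rw [pow_zero, mul_one, zero_add, zero_add]
  | succ n ih =>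
    have e3 : (((n + 1 + 60).factorial : ℕ) : ℝ) = ((n : ℝ) + 61) * (((n + 60).factorial : ℕ) : ℝ) := by
      have e2 : n + 1 + 60 = (n + 60) + 1 := by omega
      rw [e2, Nat.factorial_succ, Nat.cast_mul]
      congr 1
      push_cast
      ring
    have e4 : (23 : ℝ) ^ (n + 1 + 56) = 23 ^ (n + 56) * 23 := by
      rw [show n + 1 + 56 = (n + 56) + 1 by omega, pow_succ]
    have e5 : (4 / 5 : ℝ) ^ (n + 1 + 60) = (4 / 5) ^ (n + 60) * (4 / 5) := by
      rw [show n + 1 + 60 = (n + 60) + 1 by omega, pow_succ]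
    rw [e3, e4, e5]
    refine le_trans (tail_step _ _ _ _ (by positivity) (by positivity)
      (Nat.cast_pos.mpr (Nat.factorial_pos _)) (Nat.cast_nonneg n)) ?_
    rw [pow_succ (1 / 3 : ℝ) n, ← mul_assoc]
    exact mul_le_mul_of_nonneg_right ih (by norm_num)

theorem fin_step (G F : ℝ) (h : 1000000 * G < -2 * 5 ^ 59 * F) (hF : 0 < F) :
    G / (5 ^ 59 * F) < -2 / 1000000 := by
  rw [div_lt_iff₀ (by positivity)]
  nlinarith

theorem ys_neg (h : ∀ n : ℕ, |(ys (n + 4) : ℝ)| ≤ 23 ^ n) :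
    ∑' n : ℕ, (ys n : ℝ) * (4 / 5 : ℝ) ^ n / (n.factorial : ℝ) < 0 := by
  set f : ℕ → ℝ := fun n => (ys n : ℝ) * (4 / 5 : ℝ) ^ n / (n.factorial : ℝ) with hf
  set K : ℝ := (23 : ℝ) ^ 56 * (4 / 5 : ℝ) ^ 60 / ((60 : ℕ).factorial : ℝ) with hK
  have hb : ∀ n, |f (n + 60)| ≤ K * (1 / 3) ^ n := by
    intro n
    refine le_trans ?_ (tail_bd n)
    have h1 := h (n + 56)
    have h2 : n + 56 + 4 = n + 60 := by ring
    rw [h2] at h1
    simp only [hf]
    rw [abs_div, abs_mul, abs_of_nonneg (show (0 : ℝ) ≤ (4 / 5) ^ (n + 60) by positivity),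
      abs_of_nonneg (show (0 : ℝ) ≤ ((n + 60).factorial : ℝ) by positivity)]
    gcongr
  have hg : Summable (fun n : ℕ => K * (1 / 3 : ℝ) ^ n) :=
    (summable_geometric_of_lt_one (by norm_num) (by norm_num)).mul_left K
  have hs60 : Summable (fun n => f (n + 60)) :=
    Summable.of_norm_bounded hg (fun n => by rw [Real.norm_eq_abs]; exact hb n)
  have hs : Summable f := (summable_nat_add_iff 60).mp hs60
  rw [← hs.sum_add_tsum_nat_add 60]
  have ht : ∑' n, f (n + 60) ≤ K * (3 / 2) := by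
    have h1 : ∑' n, f (n + 60) ≤ ∑' n : ℕ, K * (1 / 3 : ℝ) ^ n :=
      hs60.tsum_le_tsum (fun n => le_trans (le_abs_self _) (hb n)) hg
    rw [tsum_mul_left, tsum_geometric_of_lt_one (by norm_num) (by norm_num)] at h1
    refine le_trans h1 (le_of_eq ?_)
    norm_num
  have hKv : K * (3 / 2) < 1 / 1000000 := by
    rw [hK]
    norm_num [Nat.factorial]
  have hp : ∑ i ∈ Finset.range 60, f i < -2 / 1000000 := by
    have h1 := gst_sum 59
    rw [show (59 : ℕ) + 1 = 60 by norm_num] at h1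
    rw [h1]
    have h2 := gst_val
    have h3 : (1000000 : ℝ) * ((gst 60).2.2.2.2.2.1 : ℝ) < -2 * 5 ^ 59 * (Nat.factorial 59 : ℝ) := by
      exact_mod_cast h2
    exact fin_step _ _ h3 (Nat.cast_pos.mpr (Nat.factorial_pos _))
  linarith

/-! ### part E5 -/



theorem facSum_P5 : facSum ({40, 50, 51, 55, 55} : Multiset ℝ) = P5 := by
  have hC : ∀ n : ℕ, (C ((n : ℕ) : ℝ) : ℝ[X]) = (n : ℝ[X]) := fun n => by simp
  have c40 : (C (40 : ℝ) : ℝ[X]) = 40 := by simpa using hC 40
  have c50 : (C (50 : ℝ) : ℝ[X]) = 50 := by simpa using hC 50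
  have c51 : (C (51 : ℝ) : ℝ[X]) = 51 := by simpa using hC 51
  have c55 : (C (55 : ℝ) : ℝ[X]) = 55 := by simpa using hC 55
  have c1 : (C (251 : ℝ) : ℝ[X]) = 251 := by simpa using hC 251
  have c2 : (C (25125 : ℝ) : ℝ[X]) = 25125 := by simpa using hC 25125
  have c3 : (C (1253425 : ℝ) : ℝ[X]) = 1253425 := by simpa using hC 1253425
  have c4 : (C (31154750 : ℝ) : ℝ[X]) = 31154750 := by simpa using hC 31154750
  have c5 : (C (308550000 : ℝ) : ℝ[X]) = 308550000 := by simpa using hC 308550000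
  have d1 : (C (241 : ℝ) : ℝ[X]) = 241 := by simpa using hC 241
  have d2 : (C (23654 : ℝ) : ℝ[X]) = 23654 := by simpa using hC 23654
  have d3 : (C (1180761 : ℝ) : ℝ[X]) = 1180761 := by simpa using hC 1180761
  have d4 : (C (29950093 : ℝ) : ℝ[X]) = 29950093 := by simpa using hC 29950093
  have hq : (Multiset.map (fun a => X + C a) ({40, 50, 51, 55, 55} : Multiset ℝ)).prod =
      (X ^ 5 + C 251 * X ^ 4 + C 25125 * X ^ 3 + C 1253425 * X ^ 2 + C 31154750 * X +
        C 308550000 : ℝ[X]) := by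
    simp only [Multiset.insert_eq_cons, Multiset.map_cons, Multiset.map_singleton,
      Multiset.prod_cons, Multiset.prod_singleton]
    rw [c40, c50, c51, c55, c1, c2, c3, c4, c5]
    ring
  have hcard : Multiset.card ({40, 50, 51, 55, 55} : Multiset ℝ) = 5 := by
    simp
  unfold facSum P5
  rw [hcard, hq]
  simp only [Finset.sum_range_succ, Finset.sum_range_zero, zero_add]
  have k0 : (X ^ 5 + C 251 * X ^ 4 + C 25125 * X ^ 3 + C 1253425 * X ^ 2 + C 31154750 * X +
        C 308550000 : ℝ[X]).coeff 0 = 308550000 := by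
    simp [coeff_X, coeff_X_pow, coeff_C]
  have k1 : (X ^ 5 + C 251 * X ^ 4 + C 25125 * X ^ 3 + C 1253425 * X ^ 2 + C 31154750 * X +
        C 308550000 : ℝ[X]).coeff 1 = 31154750 := by
    simp [coeff_X, coeff_X_pow, coeff_C]
  have k2 : (X ^ 5 + C 251 * X ^ 4 + C 25125 * X ^ 3 + C 1253425 * X ^ 2 + C 31154750 * X +
        C 308550000 : ℝ[X]).coeff 2 = 1253425 := by
    simp [coeff_X, coeff_X_pow, coeff_C]
  have k3 : (X ^ 5 + C 251 * X ^ 4 + C 25125 * X ^ 3 + C 1253425 * X ^ 2 + C 31154750 * X +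
        C 308550000 : ℝ[X]).coeff 3 = 25125 := by
    simp [coeff_X, coeff_X_pow, coeff_C]
  have k4 : (X ^ 5 + C 251 * X ^ 4 + C 25125 * X ^ 3 + C 1253425 * X ^ 2 + C 31154750 * X +
        C 308550000 : ℝ[X]).coeff 4 = 251 := by
    simp [coeff_X, coeff_X_pow, coeff_C]
  have k5 : (X ^ 5 + C 251 * X ^ 4 + C 25125 * X ^ 3 + C 1253425 * X ^ 2 + C 31154750 * X +
        C 308550000 : ℝ[X]).coeff 5 = 1 := by
    simp [coeff_X, coeff_X_pow, coeff_C]
  rw [k0, k1, k2, k3, k4, k5]
  have p0 : descPochhammer ℝ 0 = 1 := descPochhammer_zero ℝ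
  have p1 : descPochhammer ℝ 1 = X := descPochhammer_one ℝ
  have p2 : descPochhammer ℝ 2 = X * (X - 1) := by
    rw [show (2 : ℕ) = 1 + 1 from rfl, descPochhammer_succ_right, p1]; simp
  have p3 : descPochhammer ℝ 3 = X * (X - 1) * (X - 2) := by
    rw [show (3 : ℕ) = 2 + 1 from rfl, descPochhammer_succ_right, p2]; simp
  have p4 : descPochhammer ℝ 4 = X * (X - 1) * (X - 2) * (X - 3) := by
    rw [show (4 : ℕ) = 3 + 1 from rfl, descPochhammer_succ_right, p3]; simp
  have p5 : descPochhammer ℝ 5 = X * (X - 1) * (X - 2) * (X - 3) * (X - 4) := by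
    rw [show (5 : ℕ) = 4 + 1 from rfl, descPochhammer_succ_right, p4]; simp
  rw [p0, p1, p2, p3, p4, p5, c1, c2, c3, c4, c5, d1, d2, d3, d4, C_1]
  ring

/-! ### part F1 -/


theorem facSum_aux (y : ℝ) (j : ℕ) :
    HasSum (fun m : ℕ => (m.descFactorial j : ℝ) * (y ^ m / (m.factorial : ℝ))) (y ^ j * Real.exp y) := by
  have h0 : ∑ i ∈ Finset.range j, ((i.descFactorial j : ℕ) : ℝ) * (y ^ i / (i.factorial : ℝ)) = 0 := by
    apply Finset.sum_eq_zero
    intro i hi
    rw [Nat.descFactorial_eq_zero_iff_lt.2 (Finset.mem_range.1 hi)]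
    simp
  have hexp : HasSum (fun m : ℕ => y ^ m / (m.factorial : ℝ)) (Real.exp y) := by
    rw [Real.exp_eq_exp_ℝ]
    exact NormedSpace.expSeries_div_hasSum_exp y
  have h1 : HasSum (fun m : ℕ => (((m + j).descFactorial j : ℕ) : ℝ) *
      (y ^ (m + j) / ((m + j).factorial : ℝ))) (y ^ j * Real.exp y) := by
    have h2 := hexp.mul_left (y ^ j)
    have h4 : (fun m : ℕ => (((m + j).descFactorial j : ℕ) : ℝ) *
      (y ^ (m + j) / ((m + j).factorial : ℝ))) = fun m : ℕ => y ^ j * (y ^ m / (m.factorial : ℝ)) := by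
      funext m
      have h5 : m.factorial * (m + j).descFactorial j = (m + j).factorial := by
        have := Nat.factorial_mul_descFactorial (n := m + j) (k := j) (Nat.le_add_left _ _)
        rwa [Nat.add_sub_cancel] at this
      have h6 : ((m + j).factorial : ℝ) = m.factorial * ((m + j).descFactorial j : ℕ) := by
        rw [← h5]
        push_cast
        rfl
      have h7 : (m.factorial : ℝ) ≠ 0 := by positivity
      have h8 : (((m + j).descFactorial j : ℕ) : ℝ) ≠ 0 := by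
        intro h
        rw [h, mul_zero] at h6
        have : ((m + j).factorial : ℝ) ≠ 0 := by positivity
        exact this h6
      rw [h6, pow_add]
      field_simp
    rw [h4]
    exact h2
  have h3 := (hasSum_nat_add_iff (f := fun m : ℕ => (m.descFactorial j : ℝ) *
    (y ^ m / (m.factorial : ℝ))) j).1 h1
  rwa [h0, add_zero] at h3

theorem facSum_egf (S : Multiset ℝ) (r x : ℝ) :
    HasSum (fun m : ℕ => r ^ m * (facSum S).eval (m:ℝ) * x ^ m / (m.factorial : ℝ))
      (Real.exp (r * x) * (S.map (fun a => r * x + a)).prod) := by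
  have hdeg : ((S.map fun a => X + C a).prod).natDegree < Multiset.card S + 1 := by
    have h1 := Polynomial.natDegree_multiset_prod_le (S.map fun a => (X + C a : ℝ[X]))
    have h2 : ((S.map fun a => (X + C a : ℝ[X])).map natDegree).sum = Multiset.card S := by
      rw [Multiset.map_map]
      have : (natDegree ∘ fun a : ℝ => (X + C a : ℝ[X])) = fun _ => 1 := by
        funext a
        simp [Function.comp]
      rw [this]
      simp
    omega
  have heval : ((S.map fun a => X + C a).prod).eval (r * x) = (S.map (fun a => r * x + a)).prod := by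
    rw [Polynomial.eval_multiset_prod, Multiset.map_map]
    congr 1
    apply Multiset.map_congr rfl
    intro a _
    simp
  have hsum : HasSum (fun m : ℕ => ∑ j ∈ Finset.range (Multiset.card S + 1),
      ((S.map fun a => X + C a).prod).coeff j *
        ((m.descFactorial j : ℝ) * ((r * x) ^ m / (m.factorial : ℝ))))
      (∑ j ∈ Finset.range (Multiset.card S + 1),
        ((S.map fun a => X + C a).prod).coeff j * ((r * x) ^ j * Real.exp (r * x))) :=
    hasSum_sum fun j _ => (facSum_aux (r * x) j).mul_left _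
  have h3 : (∑ j ∈ Finset.range (Multiset.card S + 1),
        ((S.map fun a => X + C a).prod).coeff j * ((r * x) ^ j * Real.exp (r * x))) =
      Real.exp (r * x) * (S.map (fun a => r * x + a)).prod := by
    rw [← heval, Polynomial.eval_eq_sum_range' hdeg, Finset.mul_sum]
    refine Finset.sum_congr rfl fun j _ => ?_
    ring
  rw [← h3]
  convert hsum using 2 with m
  unfold facSum
  rw [Polynomial.eval_finset_sum, Finset.mul_sum, Finset.sum_mul, Finset.sum_div]
  refine Finset.sum_congr rfl fun j _ => ?_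
  rw [Polynomial.eval_mul, Polynomial.eval_C, descPochhammer_eval_eq_descFactorial, mul_pow]
  ring

/-! ### part G1 -/

theorem cubic_dom_eval (p q s x : ℝ) :
    (X ^ 3 + C p * X ^ 2 + C q * X + C s : ℝ[X]).eval x = x ^ 3 + p * x ^ 2 + q * x + s := by
  simp

theorem cubic_dom_aeval (p q s : ℝ) (z : ℂ) :
    aeval z (X ^ 3 + C p * X ^ 2 + C q * X + C s : ℝ[X]) = z ^ 3 + p * z ^ 2 + q * z + s := by
  simp

theorem cubic_dom_re (b k : ℝ) (z : ℂ) (h : z ^ 2 + b * z + k = 0) :
    z.re ^ 2 - z.im ^ 2 + b * z.re + k = 0 ∧ z.im * (2 * z.re + b) = 0 := by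
  have h1 := congrArg Complex.re h
  have h2 := congrArg Complex.im h
  simp [pow_two] at h1 h2
  constructor
  · linear_combination h1
  · linear_combination h2

theorem cubic_dom_fac (p q s x0 : ℝ) (hx : x0 ^ 3 + p * x0 ^ 2 + q * x0 + s = 0) (z : ℂ)
    (h : z ^ 3 + p * z ^ 2 + q * z + s = 0) :
    z = x0 ∨ z ^ 2 + ((p + x0 : ℝ) : ℂ) * z + ((q + x0 * (p + x0) : ℝ) : ℂ) = 0 := by
  have h1 : (z - x0) * (z ^ 2 + ((p + x0 : ℝ) : ℂ) * z + ((q + x0 * (p + x0) : ℝ) : ℂ)) = 0 := by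
    have hx' : (x0 : ℂ) ^ 3 + p * x0 ^ 2 + q * x0 + s = 0 := by
      have := congrArg (fun t : ℝ => (t : ℂ)) hx
      simpa using this
    push_cast
    linear_combination h - hx'
  rcases mul_eq_zero.mp h1 with h2 | h2
  · left; linear_combination h2
  · right; exact h2

theorem cubic_dom_mp (p q s : ℝ) (hs : 0 < s)
    (h : NegDominantZero (X ^ 3 + C p * X ^ 2 + C q * X + C s : ℝ[X])) :
      0 < p ∧ 0 < q ∧ (0 ≤ 18 * p * q * s - 4 * p ^ 3 * s + p ^ 2 * q ^ 2 - 4 * q ^ 3 - 27 * s ^ 2 ∨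
        2 * p ^ 3 - 9 * p * q + 27 * s ≤ 0) := by
  obtain ⟨x0, hx0, hP, hdom⟩ := h
  rw [cubic_dom_eval] at hP
  obtain ⟨b, hb⟩ : ∃ b, b = p + x0 := ⟨_, rfl⟩
  obtain ⟨k, hk⟩ : ∃ k, k = q + x0 * b := ⟨_, rfl⟩
  have hp' : p = b - x0 := by linarith
  have hq' : q = k - x0 * b := by linarith
  have hs' : s = -x0 * k := by
    rw [hp', hq'] at hP
    linear_combination hP
  have hkpos : 0 < k := by
    by_contra hcon
    push Not at hcon
    have : -x0 * k ≤ 0 := mul_nonpos_of_nonneg_of_nonpos (by linarith) hcon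
    linarith
  have hdisc : 18 * p * q * s - 4 * p ^ 3 * s + p ^ 2 * q ^ 2 - 4 * q ^ 3 - 27 * s ^ 2
      = (b ^ 2 - 4 * k) * (x0 ^ 2 + b * x0 + k) ^ 2 := by
    rw [hp', hq', hs']; ring
  by_cases hd : 0 ≤ b ^ 2 - 4 * k
  · have hsq := Real.sq_sqrt hd
    set w := Real.sqrt (b ^ 2 - 4 * k) with hw
    have hw0 : 0 ≤ w := Real.sqrt_nonneg _
    have hr : (((-b + w) / 2 : ℝ) : ℂ).re ≤ x0 := by
      apply hdom
      rw [cubic_dom_aeval]
      have h1 : ((-b + w) / 2) ^ 3 + p * ((-b + w) / 2) ^ 2 + q * ((-b + w) / 2) + s = 0 := by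
        have h2 : ((-b + w) / 2) ^ 2 + b * ((-b + w) / 2) + k = 0 := by
          linear_combination (1 / 4) * hsq
        rw [hp', hq', hs']
        linear_combination (((-b + w) / 2) - x0) * h2
      have h3 := congrArg (fun t : ℝ => (t : ℂ)) h1
      simpa using h3
    rw [Complex.ofReal_re] at hr
    have hbpos : 0 < b := by linarith
    refine ⟨by linarith, ?_, Or.inl ?_⟩
    · rw [hq']
      have : 0 < -x0 * b := mul_pos (by linarith) hbpos
      linarith
    · rw [hdisc]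
      exact mul_nonneg hd (sq_nonneg _)
  · push Not at hd
    have hd' : 0 ≤ 4 * k - b ^ 2 := by linarith
    have hsq := Real.sq_sqrt hd'
    set w := Real.sqrt (4 * k - b ^ 2) with hw
    have hr : (((-b / 2 : ℝ) : ℂ) + ((w / 2 : ℝ) : ℂ) * Complex.I).re ≤ x0 := by
      apply hdom
      rw [cubic_dom_aeval]
      have hsq' : ((w : ℝ) : ℂ) ^ 2 = 4 * k - b ^ 2 := by
        have h3 := congrArg (fun t : ℝ => (t : ℂ)) hsq
        simpa using h3
      have h2 : (((-b / 2 : ℝ) : ℂ) + ((w / 2 : ℝ) : ℂ) * Complex.I) ^ 2 +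
          b * (((-b / 2 : ℝ) : ℂ) + ((w / 2 : ℝ) : ℂ) * Complex.I) + k = 0 := by
        push_cast
        linear_combination (1 / 4 : ℂ) * (w : ℂ) ^ 2 * Complex.I_sq - (1 / 4 : ℂ) * hsq'
      rw [hp', hq', hs']
      push_cast at h2 ⊢
      linear_combination ((-(b : ℂ) / 2 + w / 2 * Complex.I) - x0) * h2
    simp at hr
    have hb2 : -b / 2 ≤ x0 := hr
    have hbpos : 0 < b := by linarith
    refine ⟨by linarith, ?_, Or.inr ?_⟩
    · rw [hq']
      have : 0 < -x0 * b := mul_pos (by linarith) hbpos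
      linarith
    · have h3 : 2 * p ^ 3 - 9 * p * q + 27 * s
          = -27 * ((p / 3 + x0) * ((p / 3) ^ 2 - b * (p / 3) + k)) := by
        rw [hq', hs', hp']; ring
      rw [h3]
      have h4 : 0 ≤ p / 3 + x0 := by linarith
      have h5 : 0 ≤ (p / 3) ^ 2 - b * (p / 3) + k := by nlinarith [sq_nonneg (p / 3 - b / 2)]
      nlinarith [mul_nonneg h4 h5]

theorem cubic_dom_mpr (p q s : ℝ) (hs : 0 < s) (hp : 0 < p) (hq : 0 < q)
    (h : 0 ≤ 18 * p * q * s - 4 * p ^ 3 * s + p ^ 2 * q ^ 2 - 4 * q ^ 3 - 27 * s ^ 2 ∨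
        2 * p ^ 3 - 9 * p * q + 27 * s ≤ 0) :
    NegDominantZero (X ^ 3 + C p * X ^ 2 + C q * X + C s : ℝ[X]) := by
  have hneg : ∀ x : ℝ, x ^ 3 + p * x ^ 2 + q * x + s = 0 → x < 0 := by
    intro x hx
    by_contra hcon
    push Not at hcon
    have : 0 ≤ x ^ 3 := by positivity
    have : 0 ≤ p * x ^ 2 := by positivity
    have : 0 ≤ q * x := by positivity
    linarith
  have hroot : ∃ x0 : ℝ, x0 ^ 3 + p * x0 ^ 2 + q * x0 + s = 0 := by
    have hc : ContinuousOn (fun x : ℝ => x ^ 3 + p * x ^ 2 + q * x + s)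
        (Set.Icc (-(1 + p + s)) 0) := by fun_prop
    have hle : -(1 + p + s) ≤ (0 : ℝ) := by linarith
    have h1 := intermediate_value_Icc hle hc
    have h2 : (0 : ℝ) ∈ Set.Icc ((fun x : ℝ => x ^ 3 + p * x ^ 2 + q * x + s) (-(1 + p + s)))
        ((fun x : ℝ => x ^ 3 + p * x ^ 2 + q * x + s) 0) := by
      constructor
      · change (-(1 + p + s)) ^ 3 + p * (-(1 + p + s)) ^ 2 + q * (-(1 + p + s)) + s ≤ 0
        have h3 : 1 ≤ (1 + p + s) ^ 2 := by nlinarith
        nlinarith [mul_pos hq (show 0 < 1 + p + s by linarith), mul_nonneg hs.le (show 0 ≤ (1 + p + s) ^ 2 - 1 by linarith)]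
      · change (0:ℝ) ≤ 0 ^ 3 + p * 0 ^ 2 + q * 0 + s
        linarith
    obtain ⟨x, _, hx⟩ := h1 h2
    exact ⟨x, hx⟩
  obtain ⟨x0, hx0⟩ := hroot
  obtain ⟨b, hb⟩ : ∃ b, b = p + x0 := ⟨_, rfl⟩
  obtain ⟨k, hk⟩ : ∃ k, k = q + x0 * b := ⟨_, rfl⟩
  have hp' : p = b - x0 := by linarith
  have hq' : q = k - x0 * b := by linarith
  have hs' : s = -x0 * k := by
    have hP := hx0
    rw [hp', hq'] at hP
    linear_combination hP
  have hdisc : 18 * p * q * s - 4 * p ^ 3 * s + p ^ 2 * q ^ 2 - 4 * q ^ 3 - 27 * s ^ 2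
      = (b ^ 2 - 4 * k) * (x0 ^ 2 + b * x0 + k) ^ 2 := by
    rw [hp', hq', hs']; ring
  have hfac : ∀ z : ℂ, aeval z (X ^ 3 + C p * X ^ 2 + C q * X + C s : ℝ[X]) = 0 →
      z = x0 ∨ z ^ 2 + (b : ℂ) * z + (k : ℂ) = 0 := by
    intro z hz
    rw [cubic_dom_aeval] at hz
    have := cubic_dom_fac p q s x0 hx0 z hz
    rw [← hb, ← hk] at this
    exact this
  by_cases hd : 0 ≤ b ^ 2 - 4 * k
  · have hsq := Real.sq_sqrt hd
    set w := Real.sqrt (b ^ 2 - 4 * k) with hw
    have hw0 : 0 ≤ w := Real.sqrt_nonneg _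
    have hr : ((-b + w) / 2) ^ 3 + p * ((-b + w) / 2) ^ 2 + q * ((-b + w) / 2) + s = 0 := by
      have h2 : ((-b + w) / 2) ^ 2 + b * ((-b + w) / 2) + k = 0 := by
        linear_combination (1 / 4) * hsq
      rw [hp', hq', hs']
      linear_combination (((-b + w) / 2) - x0) * h2
    have hz : ∀ z : ℂ, z ^ 2 + (b : ℂ) * z + (k : ℂ) = 0 → z.re ≤ (-b + w) / 2 := by
      intro z hz
      obtain ⟨h1, h2⟩ := cubic_dom_re b k z hz
      rcases mul_eq_zero.mp h2 with h3 | h3
      · rw [h3] at h1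
        by_contra hcon
        push Not at hcon
        nlinarith
      · linarith
    rcases le_total x0 ((-b + w) / 2) with hle | hle
    · refine ⟨(-b + w) / 2, hneg _ hr, by rw [cubic_dom_eval]; exact hr, ?_⟩
      intro z hz'
      rcases hfac z hz' with h1 | h1
      · rw [h1, Complex.ofReal_re]; exact hle
      · exact hz z h1
    · refine ⟨x0, hneg _ hx0, by rw [cubic_dom_eval]; exact hx0, ?_⟩
      intro z hz'
      rcases hfac z hz' with h1 | h1
      · rw [h1, Complex.ofReal_re]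
      · exact (hz z h1).trans hle
  · push Not at hd
    have hquad : ∀ x : ℝ, 0 < x ^ 2 + b * x + k := by
      intro x
      nlinarith [sq_nonneg (x + b / 2)]
    have h1 : 2 * p ^ 3 - 9 * p * q + 27 * s ≤ 0 := by
      rcases h with h | h
      · exfalso
        rw [hdisc] at h
        have h2 : 0 < (x0 ^ 2 + b * x0 + k) ^ 2 := pow_pos (hquad x0) 2
        nlinarith
      · exact h
    have h3 : 2 * p ^ 3 - 9 * p * q + 27 * s
        = -27 * ((p / 3 + x0) * ((-(p / 3)) ^ 2 + b * (-(p / 3)) + k)) := by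
      rw [hq', hs', hp']; ring
    rw [h3] at h1
    have h4 : 0 ≤ p / 3 + x0 := by
      by_contra hcon
      push Not at hcon
      have := mul_neg_of_neg_of_pos hcon (hquad (-(p / 3)))
      linarith
    refine ⟨x0, hneg _ hx0, by rw [cubic_dom_eval]; exact hx0, ?_⟩
    intro z hz'
    rcases hfac z hz' with h5 | h5
    · rw [h5, Complex.ofReal_re]
    · obtain ⟨h6, h7⟩ := cubic_dom_re b k z h5
      rcases mul_eq_zero.mp h7 with h8 | h8
      · exfalso
        rw [h8] at h6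
        have := hquad z.re
        linarith
      · linarith

theorem cubic_dom (p q s : ℝ) (hs : 0 < s) :
    NegDominantZero (X ^ 3 + C p * X ^ 2 + C q * X + C s : ℝ[X]) ↔
      0 < p ∧ 0 < q ∧ (0 ≤ 18 * p * q * s - 4 * p ^ 3 * s + p ^ 2 * q ^ 2 - 4 * q ^ 3 - 27 * s ^ 2 ∨
        2 * p ^ 3 - 9 * p * q + 27 * s ≤ 0) :=
  ⟨cubic_dom_mp p q s hs, fun h => cubic_dom_mpr p q s hs h.1 h.2.1 h.2.2⟩

theorem cubic_natDegree (p q s : ℝ) :
    (X ^ 3 + C p * X ^ 2 + C q * X + C s : ℝ[X]).natDegree = 3 := by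
  compute_degree!

/-! ### assembly -/

theorem act_geom_eval (c : ℝ) (p : ℝ[X]) (x : ℝ) :
    (act (fun m => c ^ m) p).eval x = p.eval (c * x) := by
  unfold act
  rw [eval_finsetSum, Polynomial.eval_eq_sum_range]
  refine Finset.sum_congr rfl fun k _ => ?_
  rw [eval_mul, eval_C, eval_pow, eval_X, mul_pow]
  ring

theorem isLambda_geom (c : ℝ) (hc : c ≠ 0) : IsLambda (fun m : ℕ => c ^ m) :=
  ⟨fun k => pow_ne_zero k hc, fun p hp x => by rw [act_geom_eval]; exact hp _⟩

theorem isLambda_scale (r : ℝ) (hr : 0 < r) (g : ℕ → ℝ) :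
    IsLambda (fun m => 1 / (r ^ m * g m)) ↔ IsLambda (fun m => 1 / g m) := by
  constructor
  · intro h
    have h1 := isLambda_mul _ _ (isLambda_geom r hr.ne') h
    have e : (fun m : ℕ => 1 / g m) = (fun m : ℕ => r ^ m * (1 / (r ^ m * g m))) := by
      funext m
      have : r ^ m ≠ 0 := pow_ne_zero m hr.ne'
      rw [one_div, one_div, mul_inv, ← mul_assoc, mul_inv_cancel₀ this, one_mul]
    rw [e]
    exact h1
  · intro h
    have h1 := isLambda_mul _ _ (isLambda_geom (r⁻¹) (inv_ne_zero hr.ne')) h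
    have e : (fun m : ℕ => 1 / (r ^ m * g m)) = (fun m : ℕ => (r⁻¹) ^ m * (1 / g m)) := by
      funext m
      rw [one_div, one_div, mul_inv, inv_pow]
    rw [e]
    exact h1

theorem nec (P : ℝ[X]) (hP : 1 ≤ P.natDegree) (hpos : ∀ m : ℕ, 0 < P.eval (m:ℝ))
    (hlam : IsLambda (fun m : ℕ => 1 / P.eval (m:ℝ))) : NegDominantZero P := by
  refine necessary_of P hP hpos
    (fun σ hσ => kernel_real P hP σ hσ
      (fun S hS hne => kernel_of_multiset σ S hS hne
        (fun ρ hρ k hk C n hb => conv_step σ ρ hρ k hk C n hb)))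
    (fun k hk σ C n hb hrep => ?_)
  have h1 := kernel_nonneg _ hlam k hk σ C n hb hrep
  refine ⟨h1, fun s hs hs0 => ?_⟩
  have := mass_bound _ hlam k hk σ C n hb hrep h1 s hs hs0
  simpa using this

theorem aeval_real (P : ℝ[X]) (x : ℝ) : aeval (x : ℂ) P = ((P.eval x : ℝ) : ℂ) := by
  rw [← Complex.coe_algebraMap, aeval_algebraMap_apply, Complex.coe_algebraMap]
  simp [aeval_def]

theorem real_rep (P : ℝ[X]) (k : ℝ → ℝ) (s : ℝ)
    (h : ∫ x in Ioi (0:ℝ), Complex.exp (-(s:ℂ) * x) * (k x : ℂ) = 1 / aeval (s:ℂ) P) :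
    ∫ x in Ioi (0:ℝ), Real.exp (-s * x) * k x = 1 / P.eval s := by
  have e1 : (fun x : ℝ => Complex.exp (-(s:ℂ) * x) * (k x : ℂ)) =
      fun x : ℝ => ((Real.exp (-s * x) * k x : ℝ) : ℂ) := by
    funext x
    push_cast
    rfl
  rw [e1, show (∫ x in Ioi (0:ℝ), ((Real.exp (-s * x) * k x : ℝ) : ℂ)) =
      ((∫ x in Ioi (0:ℝ), Real.exp (-s * x) * k x : ℝ) : ℂ) from integral_complex_ofReal,
    aeval_real] at h
  exact_mod_cast h

theorem criterion (P : ℝ[X]) (hP : 1 ≤ P.natDegree) (hpos : ∀ m : ℕ, 0 < P.eval (m:ℝ)) :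
    IsLambda (fun m : ℕ => 1 / P.eval (m:ℝ)) ↔ LaplaceNonneg P := by
  constructor
  · intro hlam
    obtain ⟨x0, hx0, -, hz⟩ := nec P hP hpos hlam
    obtain ⟨k, hk, ⟨C, n, hb⟩, hrep⟩ := kernel_real P hP x0 hz
      (fun S hS hne => kernel_of_multiset x0 S hS hne
        (fun ρ hρ k hk C n hb => conv_step x0 ρ hρ k hk C n hb))
    refine ⟨fun z hz0 => lt_of_le_of_lt (hz z hz0) hx0, k, hk, ?_, ?_, ?_⟩
    · refine kernel_nonneg _ hlam k hk x0 C n hb (fun m hm => ?_)
      exact real_rep P k m (hrep ((m:ℝ):ℂ) (by simpa using hm))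
    · exact integrableOn_of_bound k hk x0 C n hx0 hb
    · intro s hs
      exact hrep s (by linarith)
  · rintro ⟨-, k, hk, hnn, hint, hrep⟩
    refine isLambda_of_kernel _ (fun m => (one_div_pos.mpr (hpos m)).ne') k
      (fun x hx => hnn x hx.le) (fun m => integrableOn_exp_mul k hk hint m) (fun m => ?_)
    exact real_rep P k m (hrep ((m:ℝ):ℂ) (by simp))

theorem suff_pair (P : ℝ[X]) (hpos : ∀ m : ℕ, 0 < P.eval (m:ℝ))
    (hcard : Multiset.card ((P.map (algebraMap ℝ ℂ)).roots.filter (fun z => z.im ≠ 0)) ≤ 2)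
    (h : P.natDegree = 0 ∨ NegDominantZero P) : IsLambda (fun m : ℕ => 1 / P.eval (m:ℝ)) := by
  have hP0 : P ≠ 0 := by
    rintro rfl
    simpa using hpos 0
  by_cases h0 : P.natDegree = 0
  · obtain ⟨c, rfl⟩ := Polynomial.natDegree_eq_zero.mp h0
    have hc : 0 < c := by simpa using hpos 0
    simpa using isLambda_const (1 / c) (by positivity)
  · have hN : NegDominantZero P := by tauto
    obtain ⟨x0, hx0, he, hz⟩ := hN
    rcases factor_one_pair P hP0 hcard with ⟨c, S, hc, hPS⟩ | ⟨c, b, w, S, hc, hw, hroot, hPS⟩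
    · refine isLambda_split isLambda_mul isLambda_const isLambda_linear P hpos c S hc
        (fun a ha => ?_) hPS
      have h1 : P.eval a = 0 := by
        rw [hPS, Multiset.prod_eq_zero (Multiset.mem_map.mpr ⟨a, ha, sub_self a⟩), mul_zero]
      have h2 := hz (a : ℂ) (by rw [aeval_real, h1]; simp)
      have h3 : a ≤ x0 := by simpa using h2
      linarith
    · have hbx : -b ≤ x0 := by
        have := hz _ hroot
        simpa using this
      have hbpos : 0 < b := by linarith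
      have hmem : x0 ∈ S := by
        rw [hPS] at he
        have h1 : (x0 + b) ^ 2 + w ^ 2 ≠ 0 := by positivity
        have h2 : (S.map (fun a => x0 - a)).prod = 0 := by
          rcases mul_eq_zero.mp he with h | h
          · exact absurd h hc
          · rcases mul_eq_zero.mp h with h | h
            · exact h
            · exact absurd h h1
        rw [Multiset.prod_eq_zero_iff, Multiset.mem_map] at h2
        obtain ⟨a, ha, hax⟩ := h2
        have : a = x0 := by linarith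
        rw [← this]
        exact ha
      have hSneg : ∀ a ∈ S, a < 0 := by
        intro a ha
        have h1 : P.eval a = 0 := by
          rw [hPS, Multiset.prod_eq_zero (Multiset.mem_map.mpr ⟨a, ha, sub_self a⟩), zero_mul,
            mul_zero]
        have h2 := hz (a : ℂ) (by rw [aeval_real, h1]; simp)
        have h3 : a ≤ x0 := by simpa using h2
        linarith
      obtain ⟨S', rfl⟩ := Multiset.exists_cons_of_mem hmem
      have hcpos : 0 < c := by
        have h1 := hpos 0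
        rw [hPS] at h1
        have h2 : 0 < (((x0 ::ₘ S').map (fun a => ((0:ℕ):ℝ) - a)).prod) := by
          apply Multiset.prod_pos
          intro t ht
          rw [Multiset.mem_map] at ht
          obtain ⟨a, ha, rfl⟩ := ht
          have := hSneg a ha
          simp only [Nat.cast_zero]
          linarith
        have h3 : 0 < (((0:ℕ):ℝ) + b) ^ 2 + w ^ 2 := by positivity
        by_contra hcn
        have h4 := mul_nonpos_of_nonpos_of_nonneg (not_lt.mp hcn) (mul_pos h2 h3).le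
        linarith
      obtain ⟨k, hk1, hk2, hk3⟩ := cubic_kernel x0 b w hx0 hbx hw
      have hprod : ∀ m : ℕ, 0 < ((m:ℝ) - x0) * (((m:ℝ) + b) ^ 2 + w ^ 2) := by
        intro m
        have hm : (0:ℝ) ≤ m := Nat.cast_nonneg m
        have : 0 < (m:ℝ) - x0 := by linarith
        positivity
      have hl := isLambda_of_kernel (fun m : ℕ => 1 / (((m:ℝ) - x0) * (((m:ℝ) + b) ^ 2 + w ^ 2)))
        (fun m => (one_div_pos.mpr (hprod m)).ne') k hk1 hk2 hk3
      have hl2 := isLambda_split_aux isLambda_mul isLambda_const isLambda_linear c hcpos S'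
        (fun a ha => hSneg a (Multiset.mem_cons_of_mem ha))
      have hfin := isLambda_mul _ _ hl2 hl
      have heq : (fun m : ℕ => 1 / P.eval (m:ℝ)) =
          (fun m : ℕ => (1 / (c * (S'.map (fun a => (m:ℝ) - a)).prod)) *
            (1 / (((m:ℝ) - x0) * (((m:ℝ) + b) ^ 2 + w ^ 2)))) := by
        funext m
        rw [hPS, one_div_mul_one_div, Multiset.map_cons, Multiset.prod_cons]
        congr 1
        ring
      rw [heq]
      exact hfin

theorem pair_iff (P : ℝ[X]) (hpos : ∀ m : ℕ, 0 < P.eval (m:ℝ))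
    (hd : P.natDegree ≤ 4 ∨
      Multiset.card ((P.map (algebraMap ℝ ℂ)).roots.filter (fun z => z.im ≠ 0)) ≤ 2) :
    IsLambda (fun m : ℕ => 1 / P.eval (m:ℝ)) ↔ P.natDegree = 0 ∨ NegDominantZero P := by
  have hP0 : P ≠ 0 := by
    rintro rfl
    simpa using hpos 0
  constructor
  · intro hlam
    by_cases h0 : P.natDegree = 0
    · exact Or.inl h0
    · exact Or.inr (nec P (by omega) hpos hlam)
  · intro h
    rcases hd with hd | hd
    · rcases h with h | h
      · refine suff_pair P hpos ?_ (Or.inl h)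
        refine le_trans (Multiset.card_le_card (Multiset.filter_le _ _)) ?_
        refine le_trans (Polynomial.card_roots' _) ?_
        rw [Polynomial.natDegree_map, h]
        omega
      · obtain ⟨x0, hx0, he, hz⟩ := h
        exact suff_pair P hpos (few_nonreal P hP0 hd x0 he) (Or.inr ⟨x0, hx0, he, hz⟩)
    · exact suff_pair P hpos hd h

theorem deg5 : ∃ P : ℝ[X], P.natDegree = 5 ∧ (∀ m : ℕ, 0 < P.eval (m:ℝ)) ∧ NegDominantZero P ∧
    ¬ IsLambda (fun m : ℕ => 1 / P.eval (m:ℝ)) := by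
  obtain ⟨h1, h2, h3, h4, h5, h6⟩ := deg5_facts
  refine ⟨_, h5, fun m => ?_, h4, fun hlam => ?_⟩
  · rw [h6]
    positivity
  · have hk := kernel_nonneg _ hlam _ h3 (-1) 2 1 h2 (fun m _ => by
      rw [h6]
      exact deg5_laplace m (Nat.cast_nonneg m)) (5 * Real.pi / 2) (by positivity)
    have h7 : Real.exp (-(5 * Real.pi / 2)) * (1 - Real.cos (5 * Real.pi / 2) -
        5 * Real.pi / 2 / 2 * Real.sin (5 * Real.pi / 2)) < 0 :=
      mul_neg_of_pos_of_neg (Real.exp_pos _) h1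
    linarith

theorem facSum_eval (S : Multiset ℝ) (m : ℕ) : (facSum S).eval (m:ℝ) =
    ∑ j ∈ Finset.range (Multiset.card S + 1),
      ((S.map fun a => X + C a).prod).coeff j * (m.descFactorial j : ℝ) := by
  unfold facSum
  rw [eval_finsetSum]
  refine Finset.sum_congr rfl fun j _ => ?_
  rw [eval_mul, eval_C, descPochhammer_eval_eq_descFactorial]

theorem prodX_natDegree (S : Multiset ℝ) :
    ((S.map fun a => X + C a).prod).natDegree = Multiset.card S := by
  induction S using Multiset.induction_on with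
  | empty => simp
  | cons a S ih =>
    rw [Multiset.map_cons, Multiset.prod_cons, natDegree_mul (X_add_C_ne_zero a), ih,
      natDegree_X_add_C, Multiset.card_cons, add_comm]
    exact Multiset.prod_ne_zero (by
      intro h
      rw [Multiset.mem_map] at h
      obtain ⟨b, -, hb⟩ := h
      exact X_add_C_ne_zero b hb)

theorem prodX_monic (S : Multiset ℝ) : ((S.map fun a => X + C a).prod).Monic := by
  induction S using Multiset.induction_on with
  | empty => simp
  | cons a S ih =>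
    rw [Multiset.map_cons, Multiset.prod_cons]
    exact (monic_X_add_C a).mul ih

theorem prodX_coeff_nonneg (S : Multiset ℝ) (hS : ∀ a ∈ S, 0 < a) (j : ℕ) :
    0 ≤ ((S.map fun a => X + C a).prod).coeff j := by
  induction S using Multiset.induction_on generalizing j with
  | empty =>
    simp only [Multiset.map_zero, Multiset.prod_zero, coeff_one]
    split_ifs <;> norm_num
  | cons a S ih =>
    have ih' := ih (fun b hb => hS b (Multiset.mem_cons_of_mem hb))
    have ha := hS a (Multiset.mem_cons_self a S)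
    rw [Multiset.map_cons, Multiset.prod_cons, add_mul, coeff_add, coeff_C_mul]
    refine add_nonneg ?_ (mul_nonneg ha.le (ih' j))
    rcases j with _ | j
    · simp
    · rw [coeff_X_mul]
      exact ih' j

theorem prodX_coeff_zero (S : Multiset ℝ) (hS : ∀ a ∈ S, 0 < a) :
    0 < ((S.map fun a => X + C a).prod).coeff 0 := by
  induction S using Multiset.induction_on with
  | empty => simp
  | cons a S ih =>
    have ih' := ih (fun b hb => hS b (Multiset.mem_cons_of_mem hb))
    have ha := hS a (Multiset.mem_cons_self a S)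
    rw [Multiset.map_cons, Multiset.prod_cons, mul_coeff_zero]
    simp only [coeff_add, coeff_X_zero, coeff_C_zero, zero_add]
    exact mul_pos ha ih'

theorem facSum_pos (S : Multiset ℝ) (hS : ∀ a ∈ S, 0 < a) (m : ℕ) : 0 < (facSum S).eval (m:ℝ) := by
  rw [facSum_eval, Finset.sum_range_succ']
  refine add_pos_of_nonneg_of_pos (Finset.sum_nonneg fun j _ => ?_) ?_
  · exact mul_nonneg (prodX_coeff_nonneg S hS _) (Nat.cast_nonneg _)
  · rw [Nat.descFactorial_zero, Nat.cast_one, mul_one]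
    exact prodX_coeff_zero S hS

theorem facSum_natDegree (S : Multiset ℝ) : (facSum S).natDegree = Multiset.card S := by
  unfold facSum
  rw [Finset.sum_range_succ]
  have hlc : ((S.map fun a => X + C a).prod).coeff (Multiset.card S) = 1 := by
    have h := prodX_monic S
    rw [Monic, leadingCoeff, prodX_natDegree] at h
    exact h
  have hdj : ∀ j : ℕ, (descPochhammer ℝ j).natDegree = j := fun j => descPochhammer_natDegree ℝ j
  rw [hlc, C_1, one_mul]
  by_cases h0 : Multiset.card S = 0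
  · rw [h0]
    simp
  · rw [natDegree_add_eq_right_of_natDegree_lt, hdj]
    rw [hdj]
    refine lt_of_le_of_lt (natDegree_sum_le_of_forall_le (n := Multiset.card S - 1) _ _ fun j hj => ?_)
      (by omega)
    refine le_trans (natDegree_C_mul_le _ _) ?_
    rw [hdj]
    rw [Finset.mem_range] at hj
    omega

theorem facSum_mult (S : Multiset ℝ) (hS : ∀ a ∈ S, 0 < a) :
    IsMultiplier (fun m : ℕ => (facSum S).eval (m:ℝ)) := by
  refine mult_of T_hyperbolic S hS _ rfl _ fun m => ?_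
  rw [facSum_eval, prodX_natDegree]

theorem isLambda_matched (c : ℝ) (hc : 0 < c) (S : Multiset ℝ) (hS : ∀ a ∈ S, a < 0)
    (M : Multiset (ℝ × ℝ × ℝ)) (hM : ∀ t ∈ M, t.1 < 0 ∧ -t.2.1 ≤ t.1 ∧ 0 < t.2.2) :
    IsLambda (fun m : ℕ => 1 / (c * (S.map (fun a => (m:ℝ) - a)).prod *
      (M.map (fun t => ((m:ℝ) - t.1) * (((m:ℝ) + t.2.1) ^ 2 + t.2.2 ^ 2))).prod)) := by
  induction M using Multiset.induction_on with
  | empty =>
    have := isLambda_split_aux isLambda_mul isLambda_const isLambda_linear c hc S hS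
    simpa using this
  | cons t M ih =>
    have h1 := ih (fun u hu => hM u (Multiset.mem_cons_of_mem hu))
    obtain ⟨ht1, ht2, ht3⟩ := hM t (Multiset.mem_cons_self t M)
    obtain ⟨k, hk1, hk2, hk3⟩ := cubic_kernel t.1 t.2.1 t.2.2 ht1 ht2 ht3
    have hprod : ∀ m : ℕ, 0 < ((m:ℝ) - t.1) * (((m:ℝ) + t.2.1) ^ 2 + t.2.2 ^ 2) := by
      intro m
      have hm : (0:ℝ) ≤ m := Nat.cast_nonneg m
      have : 0 < (m:ℝ) - t.1 := by linarith
      positivity
    have hl := isLambda_of_kernel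
      (fun m : ℕ => 1 / (((m:ℝ) - t.1) * (((m:ℝ) + t.2.1) ^ 2 + t.2.2 ^ 2)))
      (fun m => (one_div_pos.mpr (hprod m)).ne') k hk1 hk2 hk3
    have hfin := isLambda_mul _ _ h1 hl
    have heq : (fun m : ℕ => 1 / (c * (S.map (fun a => (m:ℝ) - a)).prod *
        ((t ::ₘ M).map (fun t => ((m:ℝ) - t.1) * (((m:ℝ) + t.2.1) ^ 2 + t.2.2 ^ 2))).prod)) =
        (fun m : ℕ => (1 / (c * (S.map (fun a => (m:ℝ) - a)).prod *
          (M.map (fun t => ((m:ℝ) - t.1) * (((m:ℝ) + t.2.1) ^ 2 + t.2.2 ^ 2))).prod)) *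
          (1 / (((m:ℝ) - t.1) * (((m:ℝ) + t.2.1) ^ 2 + t.2.2 ^ 2)))) := by
      funext m
      rw [one_div_mul_one_div, Multiset.map_cons, Multiset.prod_cons]
      congr 1
      ring
    rw [heq]
    exact hfin

theorem P5_not_lambda : ¬ IsLambda (fun m : ℕ => 1 / P5.eval (m:ℝ)) := by
  intro hlam
  obtain ⟨hys1, hys2, hys3⟩ := ys_facts
  obtain ⟨-, -, hev, -⟩ := P5_dom
  obtain ⟨hY1, hY2, hY3⟩ := egf_kernel (fun n => (ys n : ℝ)) 23 (by norm_num) hys2
  set Y : ℝ → ℝ := fun t : ℝ => ∑' n : ℕ, (ys n : ℝ) * t ^ n / (n.factorial : ℝ) with hY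
  have hk : Continuous (fun t : ℝ => Real.exp (-48 * t) * Y t) := by
    have : Continuous (fun t : ℝ => Real.exp (-48 * t)) := by fun_prop
    exact this.mul hY1
  have h := kernel_nonneg _ hlam (fun t : ℝ => Real.exp (-48 * t) * Y t) hk (-25) 1 0
    (fun x hx => by
      rw [abs_mul, Real.abs_exp, pow_zero, one_mul, one_mul]
      refine le_trans (mul_le_mul_of_nonneg_left (hY2 x hx) (Real.exp_pos _).le) (le_of_eq ?_)
      rw [← Real.exp_add]
      congr 1
      ring)
    (fun m _ => by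
      have e : (fun x : ℝ => Real.exp (-(m:ℝ) * x) * (Real.exp (-48 * x) * Y x)) =
          fun x : ℝ => Real.exp (-((m:ℝ) + 48) * x) * Y x := by
        funext x
        rw [← mul_assoc, ← Real.exp_add]
        congr 2
        ring
      have hm : (0:ℝ) ≤ m := Nat.cast_nonneg m
      rw [e, hY3 ((m:ℝ) + 48) (by linarith), hys3 ((m:ℝ) + 48) (by linarith), hev]) (4 / 5)
    (by norm_num)
  have h2 : Real.exp (-48 * (4 / 5 : ℝ)) * Y (4 / 5) < 0 :=
    mul_neg_of_pos_of_neg (Real.exp_pos _) (ys_neg hys1)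
  exact absurd h (not_le.mpr h2)

theorem sharp : ∃ S : Multiset ℝ, (∀ a ∈ S, 0 < a) ∧ Multiset.card S = 5 ∧
    NegDominantZero (facSum S) ∧ ¬ IsLambda (fun m : ℕ => 1 / (facSum S).eval (m:ℝ)) := by
  refine ⟨({40, 50, 51, 55, 55} : Multiset ℝ), ?_, by simp, ?_, ?_⟩
  · intro a ha
    simp only [Multiset.insert_eq_cons, Multiset.mem_cons, Multiset.mem_singleton] at ha
    rcases ha with rfl | rfl | rfl | rfl | rfl <;> norm_num
  · rw [facSum_P5]
    exact P5_dom.1
  · rw [facSum_P5]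
    exact P5_not_lambda

theorem mult_three (a b c : ℝ) (ha : 0 < a) (hb : 0 < b) (hc : 0 < c) :
    IsMultiplier (fun m : ℕ => (m:ℝ) ^ 3 + (a + b + c - 3) * (m:ℝ) ^ 2 +
      (a * b + b * c + c * a - (a + b + c) + 2) * m + a * b * c) := by
  obtain ⟨e1, he1⟩ : ∃ e1, e1 = a + b + c := ⟨_, rfl⟩
  obtain ⟨e2, he2⟩ : ∃ e2, e2 = a * b + b * c + c * a := ⟨_, rfl⟩
  obtain ⟨e3, he3⟩ : ∃ e3, e3 = a * b * c := ⟨_, rfl⟩
  have hd : (X ^ 3 + C e1 * X ^ 2 + C e2 * X + C e3 : ℝ[X]).natDegree = 3 := by compute_degree!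
  refine mult_of T_hyperbolic {a, b, c} ?_ (X ^ 3 + C e1 * X ^ 2 + C e2 * X + C e3) ?_ _ ?_
  · intro x hx
    simp only [Multiset.insert_eq_cons, Multiset.mem_cons, Multiset.mem_singleton] at hx
    rcases hx with rfl | rfl | rfl <;> assumption
  · simp only [Multiset.insert_eq_cons, Multiset.map_cons, Multiset.map_singleton,
      Multiset.prod_cons, Multiset.prod_singleton]
    rw [he1, he2, he3]
    simp only [C_add, C_mul]
    ring
  · intro m
    rw [hd]
    simp only [Finset.sum_range_succ, Finset.sum_range_zero]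
    have h0 : (X ^ 3 + C e1 * X ^ 2 + C e2 * X + C e3 : ℝ[X]).coeff 0 = e3 := by simp
    have h1 : (X ^ 3 + C e1 * X ^ 2 + C e2 * X + C e3 : ℝ[X]).coeff 1 = e2 := by
      simp [coeff_X, coeff_C, coeff_X_pow]
    have h2 : (X ^ 3 + C e1 * X ^ 2 + C e2 * X + C e3 : ℝ[X]).coeff 2 = e1 := by
      simp [coeff_X, coeff_C, coeff_X_pow]
    have h3 : (X ^ 3 + C e1 * X ^ 2 + C e2 * X + C e3 : ℝ[X]).coeff 3 = 1 := by
      simp [coeff_X, coeff_C, coeff_X_pow]
    rw [h0, h1, h2, h3, ← he1, ← he2, ← he3]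
    rcases m with _ | _ | m
    · simp
    · simp [Nat.descFactorial_succ]
      ring
    · simp only [Nat.descFactorial_zero, Nat.descFactorial_succ, Nat.sub_zero]
      have e1' : m + 1 + 1 - 2 = m := by omega
      have e2' : m + 1 + 1 - 1 = m + 1 := by omega
      rw [e1', e2']
      push_cast
      ring

theorem cubic_iff (p q s r : ℝ) (hr : 0 < r)
    (hpos : ∀ m : ℕ, 0 < (m:ℝ) ^ 3 + p * (m:ℝ) ^ 2 + q * m + s) :
    IsLambda (fun m : ℕ => 1 / (r ^ m * ((m:ℝ) ^ 3 + p * (m:ℝ) ^ 2 + q * m + s))) ↔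
      0 < p ∧ 0 < q ∧ (0 ≤ 18 * p * q * s - 4 * p ^ 3 * s + p ^ 2 * q ^ 2 - 4 * q ^ 3 - 27 * s ^ 2 ∨
        2 * p ^ 3 - 9 * p * q + 27 * s ≤ 0) := by
  have hs : 0 < s := by simpa using hpos 0
  have hev : ∀ m : ℕ, (X ^ 3 + C p * X ^ 2 + C q * X + C s : ℝ[X]).eval (m:ℝ) =
      (m:ℝ) ^ 3 + p * (m:ℝ) ^ 2 + q * m + s := by
    intro m
    simp
  rw [isLambda_scale r hr (fun m : ℕ => (m:ℝ) ^ 3 + p * (m:ℝ) ^ 2 + q * m + s)]
  have h1 := pair_iff (X ^ 3 + C p * X ^ 2 + C q * X + C s) (fun m => by rw [hev]; exact hpos m)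
    (Or.inl (by rw [cubic_natDegree]; norm_num))
  simp only [hev] at h1
  rw [h1, cubic_natDegree, cubic_dom p q s hs]
  simp

theorem cubic_pos (a b c : ℝ) (ha : 0 < a) (hb : 0 < b) (hc : 0 < c) (m : ℕ) :
    0 < (m:ℝ) ^ 3 + (a + b + c - 3) * (m:ℝ) ^ 2 +
      (a * b + b * c + c * a - (a + b + c) + 2) * m + a * b * c := by
  have key : ∀ x : ℝ, x ^ 3 + (a + b + c - 3) * x ^ 2 +
      (a * b + b * c + c * a - (a + b + c) + 2) * x + a * b * c =
      x * (x - 1) * (x - 2) + (a + b + c) * (x * (x - 1)) + (a * b + b * c + c * a) * x +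
        a * b * c := by
    intro x
    ring
  rw [key]
  have h3 : 0 < a * b * c := by positivity
  have hS : 0 < a + b + c := by positivity
  have hQ : 0 < a * b + b * c + c * a := by positivity
  rcases m with _ | _ | m
  · simpa using h3
  · simp
    positivity
  · have e : (((m + 1 + 1 : ℕ) : ℝ)) = (m:ℝ) + 2 := by push_cast; ring
    rw [e]
    have hm : (0:ℝ) ≤ m := Nat.cast_nonneg m
    have h1 : 0 ≤ ((m:ℝ) + 2) * ((m:ℝ) + 2 - 1) * ((m:ℝ) + 2 - 2) := by
      have : ((m:ℝ) + 2) * ((m:ℝ) + 2 - 1) * ((m:ℝ) + 2 - 2) = (m + 2) * (m + 1) * m := by ring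
      rw [this]
      positivity
    have h2 : 0 ≤ ((m:ℝ) + 2) * ((m:ℝ) + 2 - 1) := by
      have : ((m:ℝ) + 2) * ((m:ℝ) + 2 - 1) = (m + 2) * (m + 1) := by ring
      rw [this]
      positivity
    have h4 := mul_nonneg hS.le h2
    have h5 : 0 ≤ (a * b + b * c + c * a) * ((m:ℝ) + 2) := by positivity
    linarith

/-- Main theorem. -/
theorem result :
    -- (1) the sequences `r^m P_S(m)`: positive multiplier sequences, with their generating function
    (∀ (S : Multiset ℝ) (r : ℝ), (∀ a ∈ S, 0 < a) → 0 < r →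
      IsMultiplier (fun m : ℕ => r ^ m * (facSum S).eval (m:ℝ)) ∧
      (∀ m : ℕ, 0 < (facSum S).eval (m:ℝ)) ∧ (facSum S).natDegree = Multiset.card S ∧
      ∀ x : ℝ, HasSum (fun m : ℕ => r ^ m * (facSum S).eval (m:ℝ) * x ^ m / (m.factorial : ℝ))
        (Real.exp (r * x) * (S.map (fun a => r * x + a)).prod)) ∧
    -- (2) the criterion and the dominance condition, for every polynomial positive at `0, 1, 2, …`
    (∀ (P : ℝ[X]) (r : ℝ), 0 < r → 1 ≤ P.natDegree → (∀ m : ℕ, 0 < P.eval (m:ℝ)) →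
      (IsLambda (fun m : ℕ => 1 / (r ^ m * P.eval (m:ℝ))) ↔ LaplaceNonneg P) ∧
      (IsLambda (fun m : ℕ => 1 / (r ^ m * P.eval (m:ℝ))) → NegDominantZero P)) ∧
    -- (3) degree at most four, or at most two nonreal zeros: dominance is also sufficient
    (∀ (P : ℝ[X]) (r : ℝ), 0 < r → (∀ m : ℕ, 0 < P.eval (m:ℝ)) →
      (P.natDegree ≤ 4 ∨
        Multiset.card ((P.map (algebraMap ℝ ℂ)).roots.filter (fun z => z.im ≠ 0)) ≤ 2) →
      (IsLambda (fun m : ℕ => 1 / (r ^ m * P.eval (m:ℝ))) ↔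
        P.natDegree = 0 ∨ NegDominantZero P)) ∧
    -- (4) in degree five dominance is not sufficient, even for these multiplier sequences
    (∃ S : Multiset ℝ, (∀ a ∈ S, 0 < a) ∧ Multiset.card S = 5 ∧
      NegDominantZero (facSum S) ∧ ¬ IsLambda (fun m : ℕ => 1 / (facSum S).eval (m:ℝ))) ∧
    -- (5) a sufficient condition in every degree
    (∀ (c r : ℝ) (S : Multiset ℝ) (M : Multiset (ℝ × ℝ × ℝ)), 0 < c → 0 < r →
      (∀ a ∈ S, a < 0) → (∀ t ∈ M, t.1 < 0 ∧ -t.2.1 ≤ t.1 ∧ 0 < t.2.2) →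
      IsLambda (fun m : ℕ => 1 / (r ^ m * (c * (S.map (fun a => (m:ℝ) - a)).prod *
        (M.map (fun t => ((m:ℝ) - t.1) * (((m:ℝ) + t.2.1) ^ 2 + t.2.2 ^ 2))).prod)))) ∧
    -- (6) two factors
    (∀ a b r : ℝ, 0 < a → 0 < b → 0 < r →
      IsMultiplier (fun m : ℕ => r ^ m * ((m:ℝ) ^ 2 + (a + b - 1) * m + a * b)) ∧
      (∀ m : ℕ, 0 < r ^ m * ((m:ℝ) ^ 2 + (a + b - 1) * m + a * b)) ∧
      (IsLambda (fun m : ℕ => 1 / (r ^ m * ((m:ℝ) ^ 2 + (a + b - 1) * m + a * b))) ↔
        1 ≤ |Real.sqrt a - Real.sqrt b|)) ∧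
    -- (7) three factors
    (∀ a b c r p q s : ℝ, 0 < a → 0 < b → 0 < c → 0 < r →
      p = a + b + c - 3 → q = a * b + b * c + c * a - (a + b + c) + 2 → s = a * b * c →
      IsMultiplier (fun m : ℕ => r ^ m * ((m:ℝ) ^ 3 + p * (m:ℝ) ^ 2 + q * m + s)) ∧
      (∀ m : ℕ, 0 < r ^ m * ((m:ℝ) ^ 3 + p * (m:ℝ) ^ 2 + q * m + s)) ∧
      (IsLambda (fun m : ℕ => 1 / (r ^ m * ((m:ℝ) ^ 3 + p * (m:ℝ) ^ 2 + q * m + s))) ↔
        0 < p ∧ 0 < q ∧
          (0 ≤ 18 * p * q * s - 4 * p ^ 3 * s + p ^ 2 * q ^ 2 - 4 * q ^ 3 - 27 * s ^ 2 ∨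
            2 * p ^ 3 - 9 * p * q + 27 * s ≤ 0))) := by
  refine ⟨fun S r hS hr => ⟨mult_scale _ (facSum_mult S hS) r hr, facSum_pos S hS,
    facSum_natDegree S, facSum_egf S r⟩, fun P r hr hP hpos => ?_, fun P r hr hpos hd => ?_,
    sharp, fun c r S M hc hr hS hM => (isLambda_scale r hr _).2 (isLambda_matched c hc S hS M hM),
    fun a b r ha hb hr => ?_, ?_⟩
  · rw [isLambda_scale r hr (fun m : ℕ => P.eval (m:ℝ))]
    exact ⟨criterion P hP hpos, nec P hP hpos⟩
  · rw [isLambda_scale r hr (fun m : ℕ => P.eval (m:ℝ))]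
    exact pair_iff P hpos hd
  · have hev : ∀ m : ℕ, (X ^ 2 + C (a + b - 1) * X + C (a * b) : ℝ[X]).eval (m:ℝ) =
        (m:ℝ) ^ 2 + (a + b - 1) * m + a * b := by
      intro m
      simp
    have hpos : ∀ m : ℕ, 0 < (m:ℝ) ^ 2 + (a + b - 1) * m + a * b := by
      intro m
      rcases Nat.eq_zero_or_pos m with rfl | hm
      · simp
        positivity
      · have h1 : (1:ℝ) ≤ m := by exact_mod_cast hm
        have h2 : 0 < a * b := mul_pos ha hb
        nlinarith
    refine ⟨mult_scale _ (mult_two T_hyperbolic act_eq_T a b ha hb) r hr,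
      fun m => mul_pos (pow_pos hr m) (hpos m), ?_⟩
    rw [isLambda_scale r hr (fun m : ℕ => (m:ℝ) ^ 2 + (a + b - 1) * m + a * b)]
    have h1 := pair_iff (X ^ 2 + C (a + b - 1) * X + C (a * b)) (fun m => by rw [hev]; exact hpos m)
      (Or.inl (by rw [quad_natDegree]; norm_num))
    simp only [hev] at h1
    rw [h1, quad_natDegree, quad_dom a b ha hb]
    simp
  · rintro a b c r p q s ha hb hc hr rfl rfl rfl
    exact ⟨mult_scale _ (mult_three a b c ha hb hc) r hr,
      fun m => mul_pos (pow_pos hr m) (cubic_pos a b c ha hb hc m),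
      cubic_iff _ _ _ r hr (cubic_pos a b c ha hb hc)⟩

end Pool.Agent.Results.MP_98db6a_an.PolynomialSequences
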